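import Mathlib

set_option autoImplicit false

open Finset

namespace Pool.Agent.Helper69.DS

/-- distance of two natural numbers -/
def ndist (i j : ℕ) : ℕ := (i - j) + (j - i)

lemma ndist_self (i : ℕ) : ndist i i = 0 := by simp [ndist]

lemma ndist_comm (i j : ℕ) : ndist i j = ndist j i := by simp [ndist, add_comm]

lemma geom_range_le (r : ℝ) (hr0 : 0 ≤ r) (hr1 : r < 1) (n : ℕ) :
    ∑ j ∈ range n, r ^ (j + 1) ≤ r / (1 - r) := by
  have h1 : 0 < 1 - r := by linarith
  have h2 : ∑ j ∈ range n, r ^ (j + 1) = r * ∑ j ∈ range n, r ^ j := by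
    rw [Finset.mul_sum]
    refine Finset.sum_congr rfl fun j _ => ?_
    ring
  rw [h2, div_eq_mul_inv]
  have h3 : ∑ j ∈ range n, r ^ j ≤ (1 - r)⁻¹ := by
    have := (hasSum_geometric_of_lt_one hr0 hr1)
    exact sum_le_hasSum _ (fun i _ => pow_nonneg hr0 i) this
  exact mul_le_mul_of_nonneg_left h3 hr0

lemma geom_row (r : ℝ) (hr0 : 0 ≤ r) (hr1 : r < 1) (n i : ℕ) :
    ∑ j ∈ (range n).filter (fun j => i ≠ j), r ^ (ndist i j) ≤ 2 * r / (1 - r) := by
  have h1 : 0 < 1 - r := by linarith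
  have hsplit : (range n).filter (fun j => i ≠ j) =
      (range n).filter (fun j => j < i) ∪ (range n).filter (fun j => i < j) := by
    ext j
    simp only [mem_filter, mem_range, mem_union]
    constructor
    · rintro ⟨h, h'⟩
      rcases lt_or_gt_of_ne h' with h2 | h2
      · right; exact ⟨h, h2⟩
      · left; exact ⟨h, h2⟩
    · rintro (⟨h, h'⟩ | ⟨h, h'⟩)
      · exact ⟨h, by omega⟩
      · exact ⟨h, by omega⟩
  have hdisj : Disjoint ((range n).filter (fun j => j < i)) ((range n).filter (fun j => i < j)) := by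
    rw [Finset.disjoint_left]
    intro j hj hj'
    simp only [mem_filter, mem_range] at hj hj'
    omega
  rw [hsplit, Finset.sum_union hdisj]
  have hA : ∑ j ∈ (range n).filter (fun j => j < i), r ^ (ndist i j) ≤ r / (1 - r) := by
    calc ∑ j ∈ (range n).filter (fun j => j < i), r ^ (ndist i j)
        ≤ ∑ k ∈ range i, r ^ (k + 1) := by
          have himg : ((range n).filter (fun j => j < i)).image (fun j => i - 1 - j) ⊆ range i := by
            intro k hk
            simp only [mem_image, mem_filter, mem_range] at hk ⊢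
            obtain ⟨j, ⟨_, hj⟩, rfl⟩ := hk
            omega
          have hinj : Set.InjOn (fun j => i - 1 - j) ((range n).filter (fun j => j < i) : Finset ℕ) := by
            intro a ha b hb hab
            simp only [coe_filter, mem_range, Set.mem_ofPred_eq] at ha hb
            simp only at hab
            omega
          calc ∑ j ∈ (range n).filter (fun j => j < i), r ^ (ndist i j)
              = ∑ j ∈ (range n).filter (fun j => j < i), r ^ ((i - 1 - j) + 1) := by
                refine Finset.sum_congr rfl fun j hj => ?_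
                simp only [mem_filter, mem_range] at hj
                congr 1
                unfold ndist
                omega
            _ = ∑ k ∈ ((range n).filter (fun j => j < i)).image (fun j => i - 1 - j), r ^ (k + 1) := by
                rw [Finset.sum_image hinj]
            _ ≤ ∑ k ∈ range i, r ^ (k + 1) :=
                Finset.sum_le_sum_of_subset_of_nonneg himg (fun k _ _ => pow_nonneg hr0 _)
      _ ≤ r / (1 - r) := geom_range_le r hr0 hr1 i
  have hB : ∑ j ∈ (range n).filter (fun j => i < j), r ^ (ndist i j) ≤ r / (1 - r) := by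
    calc ∑ j ∈ (range n).filter (fun j => i < j), r ^ (ndist i j)
        ≤ ∑ k ∈ range n, r ^ (k + 1) := by
          have himg : ((range n).filter (fun j => i < j)).image (fun j => j - i - 1) ⊆ range n := by
            intro k hk
            simp only [mem_image, mem_filter, mem_range] at hk ⊢
            obtain ⟨j, ⟨hj1, hj⟩, rfl⟩ := hk
            omega
          have hinj : Set.InjOn (fun j => j - i - 1) ((range n).filter (fun j => i < j) : Finset ℕ) := by
            intro a ha b hb hab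
            simp only [coe_filter, mem_range, Set.mem_ofPred_eq] at ha hb
            simp only at hab
            omega
          calc ∑ j ∈ (range n).filter (fun j => i < j), r ^ (ndist i j)
              = ∑ j ∈ (range n).filter (fun j => i < j), r ^ ((j - i - 1) + 1) := by
                refine Finset.sum_congr rfl fun j hj => ?_
                simp only [mem_filter, mem_range] at hj
                congr 1
                unfold ndist
                omega
            _ = ∑ k ∈ ((range n).filter (fun j => i < j)).image (fun j => j - i - 1), r ^ (k + 1) := by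
                rw [Finset.sum_image hinj]
            _ ≤ ∑ k ∈ range n, r ^ (k + 1) :=
                Finset.sum_le_sum_of_subset_of_nonneg himg (fun k _ _ => pow_nonneg hr0 _)
      _ ≤ r / (1 - r) := geom_range_le r hr0 hr1 n
  calc _ ≤ r / (1 - r) + r / (1 - r) := add_le_add hA hB
    _ = 2 * r / (1 - r) := by ring

lemma cube_mul_le (a b : ℝ) : a ^ 3 * b ^ 3 ≤ (a ^ 6 + b ^ 6) / 2 := by
  nlinarith [sq_nonneg (a ^ 3 - b ^ 3)]

/-- Schur type bound for off-diagonal sums -/
lemma schur (r : ℝ) (hr0 : 0 ≤ r) (hr1 : r < 1) (n : ℕ) (q : ℕ → Prop) [DecidablePred q]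
    (X Y : ℕ → ℝ) :
    ∑ i ∈ (range n).filter q, ∑ j ∈ ((range n).filter q).filter (fun j => i ≠ j),
      r ^ (ndist i j) * (X i ^ 3 * Y j ^ 3) ≤
    (2 * r / (1 - r)) * ((∑ i ∈ (range n).filter q, X i ^ 6 + ∑ j ∈ (range n).filter q, Y j ^ 6) / 2) := by
  set I := (range n).filter q with hI
  have hsub : ∀ i, (I.filter (fun j => i ≠ j)) ⊆ (range n).filter (fun j => i ≠ j) := by
    intro i j hj
    simp only [hI, mem_filter] at hj ⊢
    exact ⟨hj.1.1, hj.2⟩
  have hrow : ∀ i, ∑ j ∈ I.filter (fun j => i ≠ j), r ^ (ndist i j) ≤ 2 * r / (1 - r) := by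
    intro i
    exact (Finset.sum_le_sum_of_subset_of_nonneg (hsub i) (fun k _ _ => pow_nonneg hr0 _)).trans
      (geom_row r hr0 hr1 n i)
  have h1 : ∑ i ∈ I, ∑ j ∈ I.filter (fun j => i ≠ j), r ^ (ndist i j) * (X i ^ 3 * Y j ^ 3) ≤
      ∑ i ∈ I, ∑ j ∈ I.filter (fun j => i ≠ j), r ^ (ndist i j) * (X i ^ 6 / 2) +
      ∑ i ∈ I, ∑ j ∈ I.filter (fun j => i ≠ j), r ^ (ndist i j) * (Y j ^ 6 / 2) := by
    rw [← Finset.sum_add_distrib]
    refine Finset.sum_le_sum fun i _ => ?_
    rw [← Finset.sum_add_distrib]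
    refine Finset.sum_le_sum fun j _ => ?_
    have := mul_le_mul_of_nonneg_left (cube_mul_le (X i) (Y j)) (pow_nonneg hr0 (ndist i j))
    linarith
  have h2 : ∑ i ∈ I, ∑ j ∈ I.filter (fun j => i ≠ j), r ^ (ndist i j) * (X i ^ 6 / 2) ≤
      ∑ i ∈ I, (2 * r / (1 - r)) * (X i ^ 6 / 2) := by
    refine Finset.sum_le_sum fun i _ => ?_
    rw [← Finset.sum_mul]
    have h6 : (0:ℝ) ≤ X i ^ 6 := by positivity
    exact mul_le_mul_of_nonneg_right (hrow i) (by linarith)
  have h3 : ∑ i ∈ I, ∑ j ∈ I.filter (fun j => i ≠ j), r ^ (ndist i j) * (Y j ^ 6 / 2) ≤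
      ∑ j ∈ I, (2 * r / (1 - r)) * (Y j ^ 6 / 2) := by
    have hsw : ∑ i ∈ I, ∑ j ∈ I.filter (fun j => i ≠ j), r ^ (ndist i j) * (Y j ^ 6 / 2) =
        ∑ j ∈ I, ∑ i ∈ I.filter (fun i => j ≠ i), r ^ (ndist j i) * (Y j ^ 6 / 2) := by
      simp only [Finset.sum_filter]
      rw [Finset.sum_comm]
      refine Finset.sum_congr rfl fun j _ => Finset.sum_congr rfl fun i _ => ?_
      by_cases h : i = j
      · subst h; simp
      · rw [if_pos h, if_pos (Ne.symm h), ndist_comm]
    rw [hsw]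
    refine Finset.sum_le_sum fun j _ => ?_
    rw [← Finset.sum_mul]
    have h6 : (0:ℝ) ≤ Y j ^ 6 := by positivity
    exact mul_le_mul_of_nonneg_right (hrow j) (by linarith)
  calc _ ≤ _ := h1
    _ ≤ ∑ i ∈ I, (2 * r / (1 - r)) * (X i ^ 6 / 2) + ∑ j ∈ I, (2 * r / (1 - r)) * (Y j ^ 6 / 2) :=
        add_le_add h2 h3
    _ = _ := by
        rw [← Finset.mul_sum, ← Finset.mul_sum, ← Finset.sum_div, ← Finset.sum_div]
        ring


/-- The concentration lemma. -/
theorem conc (n : ℕ) (X Y : ℕ → ℝ) (e : ℕ → ℕ → ℝ) (r ρ η : ℝ)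
    (hr0 : 0 ≤ r) (hr1 : r < 1) (hρ : 0 ≤ ρ) (hη : η = ρ * (2 * r / (1 - r))) (hη' : η ≤ 1 / 256)
    (hX : ∀ i, 0 ≤ X i) (hY : ∀ i, 0 ≤ Y i) (he : ∀ i j, 0 ≤ e i j)
    (hX1 : ∑ i ∈ range n, X i ^ 4 = 1) (hY1 : ∑ i ∈ range n, Y i ^ 4 = 1)
    (he1 : ∑ i ∈ range n, ∑ j ∈ range n, e i j = 1)
    (hoff : ∀ i ∈ range n, ∀ j ∈ range n, i ≠ j → e i j ≤ ρ * r ^ ndist i j * (X i ^ 3 * Y j ^ 3))
    (hdiag : ∀ i ∈ range n, e i i ≤ X i ^ 3 * Y i ^ 3)
    (hrow : ∀ k ∈ range n, ∑ j ∈ range n, e k j ≤ (3 * X k ^ 4 + 1) / 4)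
    (hcol : ∀ k ∈ range n, ∑ i ∈ range n, e i k ≤ (3 * Y k ^ 4 + 1) / 4) :
    ∃ k ∈ range n,
      (∑ i ∈ (range n).filter (fun i => i ≠ k), ∑ j ∈ (range n).filter (fun j => j ≠ k), e i j
        ≤ 128 * η ^ 6) ∧
      (∑ i ∈ range n, ∑ j ∈ (range n).filter (fun j => i ≠ j), e i j ≤ 17 * η ^ 4) := by
  have h1r : 0 < 1 - r := by linarith
  have hη0 : 0 ≤ η := by rw [hη]; positivity
  -- X i ≤ 1
  have hX4 : ∀ i ∈ range n, X i ^ 4 ≤ 1 := by
    intro i hi
    rw [← hX1]
    exact Finset.single_le_sum (f := fun i => X i ^ 4) (fun j _ => pow_nonneg (hX j) 4) hi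
  have hY4 : ∀ i ∈ range n, Y i ^ 4 ≤ 1 := by
    intro i hi
    rw [← hY1]
    exact Finset.single_le_sum (f := fun i => Y i ^ 4) (fun j _ => pow_nonneg (hY j) 4) hi
  have hXle : ∀ i ∈ range n, X i ≤ 1 := by
    intro i hi
    by_contra h
    push Not at h
    have := one_lt_pow₀ h (n := 4) (by norm_num)
    linarith [hX4 i hi]
  have hYle : ∀ i ∈ range n, Y i ≤ 1 := by
    intro i hi
    by_contra h
    push Not at h
    have := one_lt_pow₀ h (n := 4) (by norm_num)
    linarith [hY4 i hi]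
  have hX6 : ∑ i ∈ range n, X i ^ 6 ≤ 1 := by
    rw [← hX1]
    refine Finset.sum_le_sum fun i hi => ?_
    exact pow_le_pow_of_le_one (hX i) (hXle i hi) (by norm_num)
  have hY6 : ∑ i ∈ range n, Y i ^ 6 ≤ 1 := by
    rw [← hY1]
    refine Finset.sum_le_sum fun i hi => ?_
    exact pow_le_pow_of_le_one (hY i) (hYle i hi) (by norm_num)
  -- off-diagonal sum
  have hsplit : ∀ i ∈ range n, ∑ j ∈ range n, e i j =
      e i i + ∑ j ∈ (range n).filter (fun j => i ≠ j), e i j := by
    intro i hi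
    have h := Finset.sum_filter_add_sum_filter_not (range n) (fun j => i = j) (fun j => e i j)
    rw [← h]
    congr 1
    have : (range n).filter (fun j => i = j) = {i} := by
      ext j
      simp only [mem_filter, mem_singleton, mem_range] at hi ⊢
      constructor
      · rintro ⟨_, h⟩; exact h.symm
      · rintro rfl; exact ⟨hi, rfl⟩
    rw [this, Finset.sum_singleton]
  have hO : ∑ i ∈ range n, ∑ j ∈ (range n).filter (fun j => i ≠ j), e i j ≤ η := by
    have hs := schur r hr0 hr1 n (fun _ => True) X Y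
    simp only [Finset.filter_true] at hs
    have h1 : ∑ i ∈ range n, ∑ j ∈ (range n).filter (fun j => i ≠ j), e i j ≤
        ρ * ∑ i ∈ range n, ∑ j ∈ (range n).filter (fun j => i ≠ j),
          r ^ (ndist i j) * (X i ^ 3 * Y j ^ 3) := by
      rw [Finset.mul_sum]
      refine Finset.sum_le_sum fun i hi => ?_
      rw [Finset.mul_sum]
      refine Finset.sum_le_sum fun j hj => ?_
      simp only [mem_filter] at hj
      have := hoff i hi j hj.1 hj.2
      linarith
    have h2 : (2 * r / (1 - r)) * ((∑ i ∈ range n, X i ^ 6 + ∑ j ∈ range n, Y j ^ 6) / 2) ≤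
        2 * r / (1 - r) := by
      have : (∑ i ∈ range n, X i ^ 6 + ∑ j ∈ range n, Y j ^ 6) / 2 ≤ 1 := by linarith
      have h0 : 0 ≤ 2 * r / (1 - r) := by positivity
      nlinarith
    calc _ ≤ _ := h1
      _ ≤ ρ * (2 * r / (1 - r)) := mul_le_mul_of_nonneg_left (hs.trans h2) hρ
      _ = η := hη.symm
  -- diagonal sum
  have hD : 1 - η ≤ ∑ i ∈ range n, X i ^ 3 * Y i ^ 3 := by
    have h1 : ∑ i ∈ range n, e i i + ∑ i ∈ range n, ∑ j ∈ (range n).filter (fun j => i ≠ j), e i j
        = 1 := by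
      rw [← he1, ← Finset.sum_add_distrib]
      exact Finset.sum_congr rfl fun i hi => (hsplit i hi).symm
    have h2 : ∑ i ∈ range n, e i i ≤ ∑ i ∈ range n, X i ^ 3 * Y i ^ 3 :=
      Finset.sum_le_sum hdiag
    linarith
  have hne : (range n).Nonempty := by
    rw [Finset.nonempty_iff_ne_empty]
    intro h0
    rw [h0] at hX1
    simp at hX1
  obtain ⟨k, hk, hkmax⟩ := Finset.exists_max_image (range n) (fun i => X i * Y i) hne
  have hM : 1 - η ≤ X k * Y k := by
    have h1 : ∑ i ∈ range n, X i ^ 3 * Y i ^ 3 ≤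
        ∑ i ∈ range n, (X k * Y k) * ((X i ^ 4 + Y i ^ 4) / 2) := by
      refine Finset.sum_le_sum fun i hi => ?_
      have h2 := hkmax i hi
      have h3 : 0 ≤ X i * Y i := mul_nonneg (hX i) (hY i)
      have h4 : X i ^ 3 * Y i ^ 3 = (X i * Y i) * (X i ^ 2 * Y i ^ 2) := by ring
      have h5 : X i ^ 2 * Y i ^ 2 ≤ (X i ^ 4 + Y i ^ 4) / 2 := by
        nlinarith [sq_nonneg (X i ^ 2 - Y i ^ 2)]
      rw [h4]
      exact mul_le_mul h2 h5 (by positivity) (h3.trans h2)
    have h6 : ∑ i ∈ range n, (X k * Y k) * ((X i ^ 4 + Y i ^ 4) / 2) = X k * Y k := by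
      rw [← Finset.mul_sum, ← Finset.sum_div, Finset.sum_add_distrib, hX1, hY1]
      norm_num
    linarith
  have hXk : 1 - η ≤ X k := by
    have := mul_le_mul_of_nonneg_left (hYle k hk) (hX k)
    linarith
  have hYk : 1 - η ≤ Y k := by
    have := mul_le_mul_of_nonneg_right (hXle k hk) (hY k)
    linarith
  have hpow : 1 - 4 * η ≤ (1 - η) ^ 4 := by
    have h := one_add_mul_le_pow (a := -η) (by linarith) 4
    push_cast at h
    have h2 : (1 + -η) ^ 4 = (1 - η) ^ 4 := by ring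
    rw [h2] at h
    linarith
  have h1η : 0 ≤ 1 - η := by linarith
  set xb := 1 - X k ^ 4 with hxb
  set yb := 1 - Y k ^ 4 with hyb
  have hxb4 : xb ≤ 4 * η := by
    have := pow_le_pow_left₀ h1η hXk 4
    linarith
  have hyb4 : yb ≤ 4 * η := by
    have := pow_le_pow_left₀ h1η hYk 4
    linarith
  have hxb0 : 0 ≤ xb := by linarith [hX4 k hk]
  have hyb0 : 0 ≤ yb := by linarith [hY4 k hk]
  set I := (range n).filter (fun i => i ≠ k) with hI
  have hIsum : ∀ f : ℕ → ℝ, ∑ i ∈ range n, f i = f k + ∑ i ∈ I, f i := by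
    intro f
    have h := Finset.sum_filter_add_sum_filter_not (range n) (fun i => i = k) f
    rw [← h]
    congr 1
    have : (range n).filter (fun i => i = k) = {k} := by
      ext j
      simp only [mem_filter, mem_singleton, mem_range] at hk ⊢
      constructor
      · rintro ⟨_, h⟩; exact h
      · rintro rfl; exact ⟨hk, rfl⟩
    rw [this, Finset.sum_singleton]
  have hXI : ∑ i ∈ I, X i ^ 4 = xb := by
    have := hIsum (fun i => X i ^ 4)
    rw [hX1] at this
    linarith
  have hYI : ∑ i ∈ I, Y i ^ 4 = yb := by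
    have := hIsum (fun i => Y i ^ 4)
    rw [hY1] at this
    linarith
  -- z
  obtain ⟨z, hz0, hz4⟩ : ∃ z : ℝ, 0 ≤ z ∧ z ^ 4 = max xb yb := by
    refine ⟨Real.sqrt (Real.sqrt (max xb yb)), Real.sqrt_nonneg _, ?_⟩
    have h0 : 0 ≤ max xb yb := le_max_of_le_left hxb0
    have h1 : Real.sqrt (Real.sqrt (max xb yb)) ^ 4 =
        (Real.sqrt (Real.sqrt (max xb yb)) ^ 2) ^ 2 := by ring
    rw [h1, Real.sq_sqrt (Real.sqrt_nonneg _), Real.sq_sqrt h0]
  have hxz : xb ≤ z ^ 4 := by rw [hz4]; exact le_max_left _ _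
  have hyz : yb ≤ z ^ 4 := by rw [hz4]; exact le_max_right _ _
  have hz4η : z ^ 4 ≤ 4 * η := by rw [hz4]; exact max_le hxb4 hyb4
  have hXz : ∀ i ∈ I, X i ≤ z := by
    intro i hi
    have h1 : X i ^ 4 ≤ xb := by
      rw [← hXI]
      exact Finset.single_le_sum (f := fun i => X i ^ 4) (fun j _ => pow_nonneg (hX j) 4) hi
    exact le_of_pow_le_pow_left₀ (by norm_num) hz0 (h1.trans hxz)
  have hYz : ∀ i ∈ I, Y i ≤ z := by
    intro i hi
    have h1 : Y i ^ 4 ≤ yb := by
      rw [← hYI]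
      exact Finset.single_le_sum (f := fun i => Y i ^ 4) (fun j _ => pow_nonneg (hY j) 4) hi
    exact le_of_pow_le_pow_left₀ (by norm_num) hz0 (h1.trans hyz)
  have hX6I : ∑ i ∈ I, X i ^ 6 ≤ z ^ 6 := by
    calc ∑ i ∈ I, X i ^ 6 ≤ ∑ i ∈ I, z ^ 2 * X i ^ 4 := by
          refine Finset.sum_le_sum fun i hi => ?_
          have := pow_le_pow_left₀ (hX i) (hXz i hi) 2
          have h4 : 0 ≤ X i ^ 4 := by positivity
          calc X i ^ 6 = X i ^ 2 * X i ^ 4 := by ring
            _ ≤ z ^ 2 * X i ^ 4 := mul_le_mul_of_nonneg_right this h4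
      _ = z ^ 2 * xb := by rw [← Finset.mul_sum, hXI]
      _ ≤ z ^ 2 * z ^ 4 := mul_le_mul_of_nonneg_left hxz (by positivity)
      _ = z ^ 6 := by ring
  have hY6I : ∑ i ∈ I, Y i ^ 6 ≤ z ^ 6 := by
    calc ∑ i ∈ I, Y i ^ 6 ≤ ∑ i ∈ I, z ^ 2 * Y i ^ 4 := by
          refine Finset.sum_le_sum fun i hi => ?_
          have := pow_le_pow_left₀ (hY i) (hYz i hi) 2
          have h4 : 0 ≤ Y i ^ 4 := by positivity
          calc Y i ^ 6 = Y i ^ 2 * Y i ^ 4 := by ring
            _ ≤ z ^ 2 * Y i ^ 4 := mul_le_mul_of_nonneg_right this h4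
      _ = z ^ 2 * yb := by rw [← Finset.mul_sum, hYI]
      _ ≤ z ^ 2 * z ^ 4 := mul_le_mul_of_nonneg_left hyz (by positivity)
      _ = z ^ 6 := by ring
  -- both deviate
  have hIr : ∀ i ∈ I, i ∈ range n := fun i hi => (Finset.mem_filter.mp hi).1
  have hBB : ∑ i ∈ I, ∑ j ∈ I, e i j ≤ 2 * z ^ 6 := by
    have hsplitI : ∀ i ∈ I, ∑ j ∈ I, e i j =
        e i i + ∑ j ∈ I.filter (fun j => i ≠ j), e i j := by
      intro i hi
      have h := Finset.sum_filter_add_sum_filter_not I (fun j => i = j) (fun j => e i j)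
      rw [← h]
      congr 1
      have : I.filter (fun j => i = j) = {i} := by
        ext j
        simp only [mem_filter, mem_singleton]
        constructor
        · rintro ⟨_, h⟩; exact h.symm
        · rintro rfl; exact ⟨hi, rfl⟩
      rw [this, Finset.sum_singleton]
    rw [Finset.sum_congr rfl hsplitI, Finset.sum_add_distrib]
    have hd : ∑ i ∈ I, e i i ≤ z ^ 6 := by
      calc ∑ i ∈ I, e i i ≤ ∑ i ∈ I, (X i ^ 6 + Y i ^ 6) / 2 := by
            refine Finset.sum_le_sum fun i hi => ?_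
            exact (hdiag i (hIr i hi)).trans (cube_mul_le _ _)
        _ = (∑ i ∈ I, X i ^ 6 + ∑ i ∈ I, Y i ^ 6) / 2 := by
            rw [← Finset.sum_div, Finset.sum_add_distrib]
        _ ≤ z ^ 6 := by linarith
    have ho : ∑ i ∈ I, ∑ j ∈ I.filter (fun j => i ≠ j), e i j ≤ η * z ^ 6 := by
      have hs := schur r hr0 hr1 n (fun i => i ≠ k) X Y
      have h1 : ∑ i ∈ I, ∑ j ∈ I.filter (fun j => i ≠ j), e i j ≤
          ρ * ∑ i ∈ I, ∑ j ∈ I.filter (fun j => i ≠ j),
            r ^ (ndist i j) * (X i ^ 3 * Y j ^ 3) := by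
        rw [Finset.mul_sum]
        refine Finset.sum_le_sum fun i hi => ?_
        rw [Finset.mul_sum]
        refine Finset.sum_le_sum fun j hj => ?_
        simp only [mem_filter] at hj
        have := hoff i (hIr i hi) j (hIr j hj.1) hj.2
        linarith
      have h2 : (2 * r / (1 - r)) * ((∑ i ∈ I, X i ^ 6 + ∑ j ∈ I, Y j ^ 6) / 2) ≤
          2 * r / (1 - r) * z ^ 6 := by
        have : (∑ i ∈ I, X i ^ 6 + ∑ j ∈ I, Y j ^ 6) / 2 ≤ z ^ 6 := by linarith
        exact mul_le_mul_of_nonneg_left this (by positivity)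
      calc _ ≤ _ := h1
        _ ≤ ρ * (2 * r / (1 - r) * z ^ 6) := mul_le_mul_of_nonneg_left (hs.trans h2) hρ
        _ = η * z ^ 6 := by rw [hη]; ring
    have hz6 : 0 ≤ z ^ 6 := by positivity
    nlinarith
  -- one deviates
  have hRowDev : ∑ i ∈ I, e i k ≤ η * z ^ 3 := by
    calc ∑ i ∈ I, e i k ≤ ∑ i ∈ I, ρ * z ^ 3 * r ^ ndist k i := by
          refine Finset.sum_le_sum fun i hi => ?_
          have hik : i ≠ k := (Finset.mem_filter.mp hi).2
          have h1 := hoff i (hIr i hi) k hk hik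
          have h2 : X i ^ 3 * Y k ^ 3 ≤ z ^ 3 * 1 := by
            refine mul_le_mul (pow_le_pow_left₀ (hX i) (hXz i hi) 3) ?_ (pow_nonneg (hY k) 3)
              (by positivity)
            exact pow_le_one₀ (hY k) (hYle k hk)
          have h3 : 0 ≤ ρ * r ^ ndist i k := by positivity
          calc e i k ≤ ρ * r ^ ndist i k * (X i ^ 3 * Y k ^ 3) := h1
            _ ≤ ρ * r ^ ndist i k * (z ^ 3 * 1) := mul_le_mul_of_nonneg_left h2 h3
            _ = ρ * z ^ 3 * r ^ ndist k i := by rw [ndist_comm i k]; ring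
      _ = ρ * z ^ 3 * ∑ i ∈ I, r ^ ndist k i := by rw [Finset.mul_sum]
      _ ≤ ρ * z ^ 3 * (2 * r / (1 - r)) := by
          refine mul_le_mul_of_nonneg_left ?_ (by positivity)
          have hIe : I = (range n).filter (fun j => k ≠ j) := by
            rw [hI]
            ext j
            simp only [mem_filter]
            exact ⟨fun h => ⟨h.1, h.2.symm⟩, fun h => ⟨h.1, h.2.symm⟩⟩
          rw [hIe]
          exact geom_row r hr0 hr1 n k
      _ = η * z ^ 3 := by rw [hη]; ring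
  have hColDev : ∑ j ∈ I, e k j ≤ η * z ^ 3 := by
    calc ∑ j ∈ I, e k j ≤ ∑ j ∈ I, ρ * z ^ 3 * r ^ ndist k j := by
          refine Finset.sum_le_sum fun j hj => ?_
          have hjk : k ≠ j := (Finset.mem_filter.mp hj).2.symm
          have h1 := hoff k hk j (hIr j hj) hjk
          have h2 : X k ^ 3 * Y j ^ 3 ≤ 1 * z ^ 3 := by
            refine mul_le_mul ?_ (pow_le_pow_left₀ (hY j) (hYz j hj) 3) (pow_nonneg (hY j) 3)
              (by norm_num)
            exact pow_le_one₀ (hX k) (hXle k hk)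
          have h3 : 0 ≤ ρ * r ^ ndist k j := by positivity
          calc e k j ≤ ρ * r ^ ndist k j * (X k ^ 3 * Y j ^ 3) := h1
            _ ≤ ρ * r ^ ndist k j * (1 * z ^ 3) := mul_le_mul_of_nonneg_left h2 h3
            _ = ρ * z ^ 3 * r ^ ndist k j := by ring
      _ = ρ * z ^ 3 * ∑ i ∈ I, r ^ ndist k i := by rw [Finset.mul_sum]
      _ ≤ ρ * z ^ 3 * (2 * r / (1 - r)) := by
          refine mul_le_mul_of_nonneg_left ?_ (by positivity)
          have hIe : I = (range n).filter (fun j => k ≠ j) := by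
            rw [hI]
            ext j
            simp only [mem_filter]
            exact ⟨fun h => ⟨h.1, h.2.symm⟩, fun h => ⟨h.1, h.2.symm⟩⟩
          rw [hIe]
          exact geom_row r hr0 hr1 n k
      _ = η * z ^ 3 := by rw [hη]; ring
  -- lower bounds
  have hLowX : 3 / 4 * xb ≤ η * z ^ 3 + 2 * z ^ 6 := by
    have h1 := hrow k hk
    have h2 := hIsum (fun i => ∑ j ∈ range n, e i j)
    rw [he1] at h2
    have h3 : ∑ i ∈ I, ∑ j ∈ range n, e i j = ∑ i ∈ I, e i k + ∑ i ∈ I, ∑ j ∈ I, e i j := by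
      rw [← Finset.sum_add_distrib]
      refine Finset.sum_congr rfl fun i _ => ?_
      exact hIsum (fun j => e i j)
    linarith
  have hLowY : 3 / 4 * yb ≤ η * z ^ 3 + 2 * z ^ 6 := by
    have h1 := hcol k hk
    have h2 := hIsum (fun j => ∑ i ∈ range n, e i j)
    have h2' : ∑ j ∈ range n, ∑ i ∈ range n, e i j = 1 := by rw [Finset.sum_comm]; exact he1
    rw [h2'] at h2
    have h3 : ∑ j ∈ I, ∑ i ∈ range n, e i j = ∑ j ∈ I, e k j + ∑ i ∈ I, ∑ j ∈ I, e i j := by
      rw [Finset.sum_comm (s := I) (t := I), ← Finset.sum_add_distrib]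
      refine Finset.sum_congr rfl fun j _ => ?_
      exact hIsum (fun i => e i j)
    linarith
  have hLow : 3 / 4 * z ^ 4 ≤ η * z ^ 3 + 2 * z ^ 6 := by
    rw [hz4]
    rcases max_choice xb yb with h | h
    · rw [h]; exact hLowX
    · rw [h]; exact hLowY
  have hz2 : z ^ 2 ≤ 1 / 8 := by
    by_contra h
    push Not at h
    have : (1 / 8 : ℝ) ^ 2 < (z ^ 2) ^ 2 := by
      apply pow_lt_pow_left₀ h (by norm_num) (by norm_num)
    have h2 : (z ^ 2) ^ 2 = z ^ 4 := by ring
    rw [h2] at this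
    linarith
  have hzη : z ≤ 2 * η := by
    rcases eq_or_lt_of_le hz0 with h | h
    · rw [← h]; linarith
    · have h3 : 0 < z ^ 3 := by positivity
      have h4 : 2 * z ^ 6 ≤ 1 / 4 * z ^ 4 := by
        have h5 : 2 * z ^ 6 = 2 * z ^ 2 * z ^ 4 := by ring
        rw [h5]
        exact mul_le_mul_of_nonneg_right (by linarith) (by positivity)
      have h6 : 1 / 2 * z * z ^ 3 ≤ η * z ^ 3 := by nlinarith
      have h7 := le_of_mul_le_mul_right h6 h3
      linarith
  have hz6η : z ^ 6 ≤ 64 * η ^ 6 := by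
    calc z ^ 6 ≤ (2 * η) ^ 6 := pow_le_pow_left₀ hz0 hzη 6
      _ = 64 * η ^ 6 := by ring
  have hz3η : z ^ 3 ≤ 8 * η ^ 3 := by
    calc z ^ 3 ≤ (2 * η) ^ 3 := pow_le_pow_left₀ hz0 hzη 3
      _ = 8 * η ^ 3 := by ring
  refine ⟨k, hk, ?_, ?_⟩
  · linarith
  · have htot : ∑ i ∈ range n, ∑ j ∈ (range n).filter (fun j => i ≠ j), e i j ≤
        ∑ j ∈ I, e k j + ∑ i ∈ I, e i k + ∑ i ∈ I, ∑ j ∈ I, e i j := by
      have h2 := hIsum (fun i => ∑ j ∈ (range n).filter (fun j => i ≠ j), e i j)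
      rw [h2]
      have hk1 : ∑ j ∈ (range n).filter (fun j => k ≠ j), e k j = ∑ j ∈ I, e k j := by
        have hIe : I = (range n).filter (fun j => k ≠ j) := by
          rw [hI]
          ext j
          simp only [mem_filter]
          exact ⟨fun h => ⟨h.1, h.2.symm⟩, fun h => ⟨h.1, h.2.symm⟩⟩
        rw [hIe]
      rw [hk1]
      have hk2 : ∑ i ∈ I, ∑ j ∈ (range n).filter (fun j => i ≠ j), e i j ≤
          ∑ i ∈ I, (e i k + ∑ j ∈ I, e i j) := by
        refine Finset.sum_le_sum fun i _ => ?_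
        rw [← hIsum (fun j => e i j)]
        exact Finset.sum_le_sum_of_subset_of_nonneg (Finset.filter_subset _ _)
          (fun j _ _ => he i j)
      rw [Finset.sum_add_distrib] at hk2
      linarith
    have h1 : η * z ^ 3 ≤ 8 * η ^ 4 := by
      calc η * z ^ 3 ≤ η * (8 * η ^ 3) := mul_le_mul_of_nonneg_left hz3η hη0
        _ = 8 * η ^ 4 := by ring
    have h2 : 128 * η ^ 6 ≤ η ^ 4 := by
      have h3 : η ^ 2 ≤ (1 / 256) ^ 2 := pow_le_pow_left₀ hη0 hη' 2
      have h4 : 0 ≤ η ^ 4 := by positivity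
      have h5 : 128 * η ^ 2 ≤ 1 := by
        have : (128:ℝ) * (1 / 256) ^ 2 ≤ 1 := by norm_num
        linarith
      calc 128 * η ^ 6 = 128 * η ^ 2 * η ^ 4 := by ring
        _ ≤ 1 * η ^ 4 := mul_le_mul_of_nonneg_right h5 h4
        _ = η ^ 4 := by ring
    linarith

end Pool.Agent.Helper69.DS
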