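import Mathlib
import Pool.Agent.Helper69.DS.Conc

set_option autoImplicit false

open Finset

namespace Pool.Agent.Helper69.DS

/-- `φ(n)/n` as a real number -/
noncomputable def phr (n : ℕ) : ℝ := (Nat.totient n : ℝ) / n

lemma phr_eq_prod {n : ℕ} (hn : n ≠ 0) : phr n = ∏ p ∈ n.primeFactors, (1 - (p : ℝ)⁻¹) := by
  have h := Nat.totient_eq_mul_prod_factors n
  have h2 : (Nat.totient n : ℝ) = n * ∏ p ∈ n.primeFactors, (1 - (p : ℝ)⁻¹) := by
    have h3 := congrArg (fun q : ℚ => (q : ℝ)) h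
    push_cast at h3
    exact h3
  unfold phr
  rw [h2]
  have : (n : ℝ) ≠ 0 := by exact_mod_cast hn
  field_simp

lemma one_sub_inv_nonneg {p : ℕ} (hp : p.Prime) : 0 < 1 - (p : ℝ)⁻¹ := by
  have h2 : (2 : ℝ) ≤ p := by exact_mod_cast hp.two_le
  have : (p : ℝ)⁻¹ ≤ 2⁻¹ := inv_anti₀ (by norm_num) h2
  norm_num at this ⊢
  linarith

lemma one_sub_inv_le_one (p : ℕ) : 1 - (p : ℝ)⁻¹ ≤ 1 := by
  have : 0 ≤ (p : ℝ)⁻¹ := by positivity
  linarith

lemma phr_nonneg (n : ℕ) : 0 ≤ phr n := by unfold phr; positivity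

lemma phr_pos {n : ℕ} (hn : n ≠ 0) : 0 < phr n := by
  unfold phr
  have h1 : 0 < (Nat.totient n : ℝ) := by exact_mod_cast Nat.totient_pos.mpr (Nat.pos_of_ne_zero hn)
  have h2 : 0 < (n : ℝ) := by exact_mod_cast Nat.pos_of_ne_zero hn
  positivity

lemma phr_le_one (n : ℕ) : phr n ≤ 1 := by
  unfold phr
  rcases Nat.eq_zero_or_pos n with h | h
  · subst h; simp
  · rw [div_le_one (by exact_mod_cast h)]
    exact_mod_cast Nat.totient_le n

lemma prod_one_sub_anti {S T : Finset ℕ} (hST : S ⊆ T) (hT : ∀ p ∈ T, Nat.Prime p) :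
    ∏ p ∈ T, (1 - (p : ℝ)⁻¹) ≤ ∏ p ∈ S, (1 - (p : ℝ)⁻¹) := by
  rw [← Finset.prod_sdiff hST]
  have h1 : ∏ p ∈ T \ S, (1 - (p : ℝ)⁻¹) ≤ 1 := by
    refine Finset.prod_le_one (fun p hp => ?_) (fun p _ => one_sub_inv_le_one p)
    exact (one_sub_inv_nonneg (hT p (Finset.sdiff_subset hp))).le
  have h2 : 0 ≤ ∏ p ∈ S, (1 - (p : ℝ)⁻¹) :=
    Finset.prod_nonneg fun p hp => (one_sub_inv_nonneg (hT p (hST hp))).le
  nlinarith

lemma phr_anti {d w : ℕ} (hw : w ≠ 0) (hd : d ∣ w) : phr w ≤ phr d := by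
  have hd0 : d ≠ 0 := fun h => hw (by rw [h] at hd; exact Nat.eq_zero_of_zero_dvd hd)
  rw [phr_eq_prod hw, phr_eq_prod hd0]
  exact prod_one_sub_anti (Nat.primeFactors_mono hd hw) (fun p hp => Nat.prime_of_mem_primeFactors hp)

section defs

variable (Q : Finset ℕ) (k : ℕ → ℕ)

/-- excess part -/
def rpt (v : ℕ) : ℕ := ∏ p ∈ Q, p ^ (v.factorization p - k p)

/-- common part -/
def npt (v : ℕ) : ℕ := ∏ p ∈ Q, p ^ (min (v.factorization p) (k p))

/-- deficiency part -/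
def spt (v : ℕ) : ℕ := ∏ p ∈ Q, p ^ (k p - v.factorization p)

/-- the centre -/
def Npt : ℕ := ∏ p ∈ Q, p ^ (k p)

end defs

lemma prod_pow_pos {Q : Finset ℕ} (hQ : ∀ p ∈ Q, Nat.Prime p) (e : ℕ → ℕ) :
    0 < ∏ p ∈ Q, p ^ (e p) :=
  Finset.prod_pos fun p hp => pow_pos (hQ p hp).pos _

lemma npt_mul_spt (Q : Finset ℕ) (k : ℕ → ℕ) (v : ℕ) : npt Q k v * spt Q k v = Npt Q k := by
  unfold npt spt Npt
  rw [← Finset.prod_mul_distrib]
  refine Finset.prod_congr rfl fun p _ => ?_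
  rw [← pow_add]
  congr 1
  omega

lemma prod_fact_dvd {Q : Finset ℕ} (m : ℕ) (hm : m ≠ 0) :
    ∏ p ∈ Q, p ^ (m.factorization p) ∣ m := by
  have h1 : ∏ p ∈ Q, p ^ (m.factorization p) =
      ∏ p ∈ Q.filter (fun p => p ∈ m.primeFactors), p ^ (m.factorization p) := by
    rw [Finset.prod_filter]
    refine Finset.prod_congr rfl fun p _ => ?_
    split_ifs with h
    · rfl
    · have : m.factorization p = 0 := by
        rw [← Finsupp.notMem_support_iff, Nat.support_factorization]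
        exact h
      rw [this, pow_zero]
  rw [h1]
  have h2 : ∏ p ∈ m.primeFactors, p ^ (m.factorization p) = m := by
    have := Nat.prod_factorization_pow_eq_self hm
    rwa [Finsupp.prod, Nat.support_factorization] at this
  conv_rhs => rw [← h2]
  exact Finset.prod_dvd_prod_of_subset _ _ _ (fun p hp => (Finset.mem_filter.mp hp).2)

lemma prod_pow_dvd_of_le {Q : Finset ℕ} (e : ℕ → ℕ) (m : ℕ) (hm : m ≠ 0)
    (he : ∀ p ∈ Q, e p ≤ m.factorization p) :
    ∏ p ∈ Q, p ^ (e p) ∣ m :=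
  (Finset.prod_dvd_prod_of_dvd _ _ fun p hp => pow_dvd_pow p (he p hp)).trans (prod_fact_dvd m hm)

lemma npt_dvd (Q : Finset ℕ) (k : ℕ → ℕ) (v : ℕ) (hv : v ≠ 0) : npt Q k v ∣ v :=
  prod_pow_dvd_of_le _ v hv fun _ _ => min_le_left _ _

lemma npt_dvd_Npt (Q : Finset ℕ) (k : ℕ → ℕ) (v : ℕ) : npt Q k v ∣ Npt Q k :=
  ⟨spt Q k v, (npt_mul_spt Q k v).symm⟩

lemma eq_prod_of_subset {P Q : Finset ℕ} (hPQ : Disjoint P Q) (k : ℕ → ℕ) (v : ℕ) (hv : v ≠ 0)
    (hpf : v.primeFactors ⊆ P ∪ Q) :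
    v = (∏ p ∈ P, p ^ (v.factorization p)) * (rpt Q k v * npt Q k v) := by
  have h1 : rpt Q k v * npt Q k v = ∏ p ∈ Q, p ^ (v.factorization p) := by
    unfold rpt npt
    rw [← Finset.prod_mul_distrib]
    refine Finset.prod_congr rfl fun p _ => ?_
    rw [← pow_add]
    congr 1
    omega
  rw [h1, ← Finset.prod_union hPQ]
  have h2 : ∏ p ∈ v.primeFactors, p ^ (v.factorization p) = v := by
    have := Nat.prod_factorization_pow_eq_self hv
    rwa [Finsupp.prod, Nat.support_factorization] at this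
  conv_lhs => rw [← h2]
  refine Finset.prod_subset hpf fun p _ hp => ?_
  have : v.factorization p = 0 := by
    rw [← Finsupp.notMem_support_iff, Nat.support_factorization]
    exact hp
  rw [this, pow_zero]

/-- The counting lemma. -/
lemma count_le (P Q : Finset ℕ) (hQ : ∀ p ∈ Q, Nat.Prime p)
    (hPQ : Disjoint P Q) (g k : ℕ → ℕ) (B : Finset ℕ) (hB : ∀ w ∈ B, w ≠ 0)
    (hBpf : ∀ w ∈ B, w.primeFactors ⊆ P ∪ Q) (hBg : ∀ w ∈ B, ∀ p ∈ P, w.factorization p = g p)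
    (ν : ℕ → ℝ) (β M : ℝ) (hβ : 0 ≤ β) (hM : 0 ≤ M)
    (hν : ∀ w ∈ B, ν w ≤ β / (spt Q k w) * phr w) (hr : ∀ w ∈ B, (rpt Q k w : ℝ) ≤ M) :
    ∑ w ∈ B, ν w ≤ β * M := by
  have hN : 0 < Npt Q k := prod_pow_pos hQ _
  have hNR : (0 : ℝ) < Npt Q k := by exact_mod_cast hN
  have h1 : ∀ w ∈ B, ν w ≤ β * (Nat.totient (npt Q k w) / Npt Q k) := by
    intro w hw
    refine (hν w hw).trans ?_
    have hn0 : 0 < npt Q k w := prod_pow_pos hQ _
    have hs0 : 0 < spt Q k w := prod_pow_pos hQ _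
    have hnR : (0 : ℝ) < npt Q k w := by exact_mod_cast hn0
    have hsR : (0 : ℝ) < spt Q k w := by exact_mod_cast hs0
    have h2 : phr w ≤ phr (npt Q k w) := phr_anti (hB w hw) (npt_dvd Q k w (hB w hw))
    have h3 : (npt Q k w : ℝ) * spt Q k w = Npt Q k := by exact_mod_cast npt_mul_spt Q k w
    calc β / (spt Q k w) * phr w ≤ β / (spt Q k w) * phr (npt Q k w) :=
          mul_le_mul_of_nonneg_left h2 (by positivity)
      _ = β * (Nat.totient (npt Q k w) / Npt Q k) := by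
          unfold phr
          rw [← h3]
          field_simp
  calc ∑ w ∈ B, ν w ≤ ∑ w ∈ B, β * (Nat.totient (npt Q k w) / Npt Q k) := Finset.sum_le_sum h1
    _ = β * ((∑ w ∈ B, (Nat.totient (npt Q k w) : ℝ)) / Npt Q k) := by
        rw [← Finset.mul_sum, ← Finset.sum_div]
    _ ≤ β * M := by
        refine mul_le_mul_of_nonneg_left ?_ hβ
        rw [div_le_iff₀ hNR]
        have hinj : Set.InjOn (fun w => (rpt Q k w, npt Q k w)) (B : Set ℕ) := by
          intro a ha b hb hab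
          simp only [Prod.mk.injEq] at hab
          rw [eq_prod_of_subset hPQ k a (hB a ha) (hBpf a ha),
            eq_prod_of_subset hPQ k b (hB b hb) (hBpf b hb), hab.1, hab.2]
          congr 1
          refine Finset.prod_congr rfl fun p hp => ?_
          rw [hBg a ha p hp, hBg b hb p hp]
        have himg : B.image (fun w => (rpt Q k w, npt Q k w)) ⊆
            (Finset.Icc 1 ⌊M⌋₊) ×ˢ (Npt Q k).divisors := by
          intro x hx
          rw [Finset.mem_image] at hx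
          obtain ⟨w, hw, rfl⟩ := hx
          rw [Finset.mem_product, Finset.mem_Icc, Nat.mem_divisors]
          refine ⟨⟨prod_pow_pos hQ _, Nat.le_floor (hr w hw)⟩, npt_dvd_Npt Q k w, hN.ne'⟩
        calc ∑ w ∈ B, (Nat.totient (npt Q k w) : ℝ)
            = ∑ x ∈ B.image (fun w => (rpt Q k w, npt Q k w)), (Nat.totient x.2 : ℝ) := by
              rw [Finset.sum_image hinj]
          _ ≤ ∑ x ∈ (Finset.Icc 1 ⌊M⌋₊) ×ˢ (Npt Q k).divisors, (Nat.totient x.2 : ℝ) :=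
              Finset.sum_le_sum_of_subset_of_nonneg himg (fun x _ _ => by positivity)
          _ = ∑ _r ∈ Finset.Icc 1 ⌊M⌋₊, ∑ d ∈ (Npt Q k).divisors, (Nat.totient d : ℝ) := by
              rw [Finset.sum_product]
          _ = (⌊M⌋₊ : ℝ) * (Npt Q k : ℝ) := by
              have : ∑ d ∈ (Npt Q k).divisors, (Nat.totient d : ℝ) = (Npt Q k : ℝ) := by
                exact_mod_cast Nat.sum_totient (Npt Q k)
              rw [this, Finset.sum_const, Nat.card_Icc]
              simp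
          _ ≤ M * (Npt Q k : ℝ) :=
              mul_le_mul_of_nonneg_right (Nat.floor_le hM) hNR.le

/-- Divisibility for edges whose deviations do not interfere. -/
lemma edge_dvd (P Q : Finset ℕ) (hPQ : Disjoint P Q) (k : ℕ → ℕ) (v w : ℕ) (hv : v ≠ 0) (hw : w ≠ 0)
    (hk : ∀ p ∈ Q, v.factorization p = k p ∨ w.factorization p = k p) :
    (∏ p ∈ P, p ^ (v.factorization p - w.factorization p)) * (rpt Q k v * spt Q k w) ∣
      v / Nat.gcd v w := by
  have hg : Nat.gcd v w ≠ 0 := Nat.gcd_ne_zero_left hv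
  have hdiv : v / Nat.gcd v w ≠ 0 := by
    have := Nat.div_pos (Nat.le_of_dvd (Nat.pos_of_ne_zero hv) (Nat.gcd_dvd_left v w))
      (Nat.pos_of_ne_zero hg)
    omega
  have hfac : ∀ p, (v / Nat.gcd v w).factorization p = v.factorization p - w.factorization p := by
    intro p
    rw [Nat.factorization_div (Nat.gcd_dvd_left v w), Nat.factorization_gcd hv hw]
    simp only [Finsupp.coe_tsub, Pi.sub_apply, Finsupp.inf_apply]
    omega
  have h1 : rpt Q k v * spt Q k w = ∏ p ∈ Q, p ^ (v.factorization p - w.factorization p) := by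
    unfold rpt spt
    rw [← Finset.prod_mul_distrib]
    refine Finset.prod_congr rfl fun p hp => ?_
    rw [← pow_add]
    congr 1
    rcases hk p hp with h | h <;> omega
  rw [h1, ← Finset.prod_union hPQ]
  exact prod_pow_dvd_of_le _ _ hdiv (fun p _ => (hfac p).ge)

lemma edge_le (P Q : Finset ℕ) (hPQ : Disjoint P Q) (k : ℕ → ℕ) (v w : ℕ) (hv : v ≠ 0) (hw : w ≠ 0)
    (hk : ∀ p ∈ Q, v.factorization p = k p ∨ w.factorization p = k p) (x : ℝ) (hx : 0 ≤ x)
    (hD : (v : ℝ) * x ≤ Nat.gcd v w) :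
    ((∏ p ∈ P, p ^ (v.factorization p - w.factorization p) : ℕ) : ℝ) *
      ((rpt Q k v : ℝ) * (spt Q k w)) * x ≤ 1 := by
  have hdvd := edge_dvd P Q hPQ k v w hv hw hk
  have hg : 0 < Nat.gcd v w := Nat.gcd_pos_of_pos_left _ (Nat.pos_of_ne_zero hv)
  have hgR : (0 : ℝ) < Nat.gcd v w := by exact_mod_cast hg
  have hdiv : 0 < v / Nat.gcd v w :=
    Nat.div_pos (Nat.le_of_dvd (Nat.pos_of_ne_zero hv) (Nat.gcd_dvd_left v w)) hg
  have hle := Nat.le_of_dvd hdiv hdvd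
  have hleR : ((∏ p ∈ P, p ^ (v.factorization p - w.factorization p) : ℕ) : ℝ) *
      ((rpt Q k v : ℝ) * (spt Q k w)) ≤ ((v / Nat.gcd v w : ℕ) : ℝ) := by
    exact_mod_cast hle
  have hcast : ((v / Nat.gcd v w : ℕ) : ℝ) = (v : ℝ) / (Nat.gcd v w) :=
    Nat.cast_div (Nat.gcd_dvd_left v w) hgR.ne'
  calc _ ≤ ((v / Nat.gcd v w : ℕ) : ℝ) * x := mul_le_mul_of_nonneg_right hleR hx
    _ = (v : ℝ) * x / (Nat.gcd v w) := by rw [hcast]; ring
    _ ≤ 1 := by rw [div_le_one hgR]; exact hD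

end Pool.Agent.Helper69.DS
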