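import Mathlib
import Pool.Agent.Helper69.DS.Count

set_option autoImplicit false

open Finset

namespace Pool.Agent.Helper69.DS

lemma prod_ndist (P : Finset ℕ) (f g : ℕ → ℕ) :
    (∏ p ∈ P, p ^ (f p - g p)) * (∏ p ∈ P, p ^ (g p - f p)) = ∏ p ∈ P, p ^ (ndist (f p) (g p)) := by
  rw [← Finset.prod_mul_distrib]
  refine Finset.prod_congr rfl fun p _ => ?_
  rw [← pow_add]
  rfl

/-- The final counting bound. -/
lemma final_bound (P Q : Finset ℕ) (hP : ∀ p ∈ P, Nat.Prime p) (hQ : ∀ p ∈ Q, Nat.Prime p)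
    (hPQ : Disjoint P Q) (f g k : ℕ → ℕ) (A B : Finset ℕ) (E : Finset (ℕ × ℕ)) (μ ν ψ θ : ℕ → ℝ)
    (hA : ∀ v ∈ A, v ≠ 0) (hB : ∀ w ∈ B, w ≠ 0)
    (hApf : ∀ v ∈ A, v.primeFactors ⊆ P ∪ Q) (hBpf : ∀ w ∈ B, w.primeFactors ⊆ P ∪ Q)
    (hAf : ∀ v ∈ A, ∀ p ∈ P, v.factorization p = f p)
    (hBg : ∀ w ∈ B, ∀ p ∈ P, w.factorization p = g p)
    (hμ : ∀ v ∈ A, 0 < μ v) (hν : ∀ w ∈ B, 0 < ν w)
    (hμψ : ∀ v ∈ A, μ v ≤ ψ v * phr v) (hνθ : ∀ w ∈ B, ν w ≤ θ w * phr w)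
    (hk : ∀ x ∈ E, ∀ p ∈ Q, x.1.factorization p = k p ∨ x.2.factorization p = k p)
    (hD1 : ∀ x ∈ E, (x.2 : ℝ) * ψ x.1 ≤ Nat.gcd x.1 x.2)
    (hD2 : ∀ x ∈ E, (x.1 : ℝ) * θ x.2 ≤ Nat.gcd x.1 x.2)
    (δ : ℝ) (hδ : 0 < δ)
    (hdegA : ∀ v ∈ A, δ * ∑ w ∈ B, ν w ≤ ∑ w ∈ B.filter (fun w => (v, w) ∈ E), ν w)
    (hdegB : ∀ w ∈ B, δ * ∑ v ∈ A, μ v ≤ ∑ v ∈ A.filter (fun v => (v, w) ∈ E), μ v)
    (hAne : A.Nonempty) (hBne : B.Nonempty) :
    δ ^ 2 * ((∑ v ∈ A, μ v) * (∑ w ∈ B, ν w)) * ((∏ p ∈ P, p ^ (ndist (f p) (g p)) : ℕ) : ℝ) ≤ 1 := by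
  obtain ⟨v0, hv0, hv0max⟩ := Finset.exists_max_image A (fun v => ψ v * (spt Q k v : ℝ)) hAne
  obtain ⟨w0, hw0, hw0max⟩ := Finset.exists_max_image B (fun w => θ w * (spt Q k w : ℝ)) hBne
  set A0 := ψ v0 * (spt Q k v0 : ℝ) with hA0
  set B0 := θ w0 * (spt Q k w0 : ℝ) with hB0
  set a' := ((∏ p ∈ P, p ^ (f p - g p) : ℕ) : ℝ) with ha'
  set b' := ((∏ p ∈ P, p ^ (g p - f p) : ℕ) : ℝ) with hb'
  have hs : ∀ v, (0 : ℝ) < spt Q k v := fun v => by exact_mod_cast (prod_pow_pos hQ _)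
  have hψ : ∀ v ∈ A, 0 < ψ v := by
    intro v hv
    have h1 := phr_pos (hA v hv)
    have h2 := (hμ v hv).trans_le (hμψ v hv)
    by_contra h
    push Not at h
    nlinarith
  have hθ : ∀ w ∈ B, 0 < θ w := by
    intro w hw
    have h1 := phr_pos (hB w hw)
    have h2 := (hν w hw).trans_le (hνθ w hw)
    by_contra h
    push Not at h
    nlinarith
  have hA0pos : 0 < A0 := mul_pos (hψ v0 hv0) (hs v0)
  have hB0pos : 0 < B0 := mul_pos (hθ w0 hw0) (hs w0)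
  have ha'pos : 0 < a' := by rw [ha']; exact_mod_cast prod_pow_pos hP _
  have hb'pos : 0 < b' := by rw [hb']; exact_mod_cast prod_pow_pos hP _
  -- neighbours of v0
  have hNv : ∑ w ∈ B.filter (fun w => (v0, w) ∈ E), ν w ≤ B0 * (1 / (b' * A0)) := by
    refine count_le P Q hQ hPQ g k (B.filter (fun w => (v0, w) ∈ E)) ?_ ?_ ?_ ν B0 (1 / (b' * A0))
      hB0pos.le (by positivity) ?_ ?_
    · intro w hw; exact hB w (Finset.mem_filter.mp hw).1
    · intro w hw; exact hBpf w (Finset.mem_filter.mp hw).1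
    · intro w hw; exact hBg w (Finset.mem_filter.mp hw).1
    · intro w hw
      have hwB := (Finset.mem_filter.mp hw).1
      refine (hνθ w hwB).trans ?_
      refine mul_le_mul_of_nonneg_right ?_ (phr_nonneg w)
      rw [le_div_iff₀ (hs w)]
      exact hw0max w hwB
    · intro w hw
      have hwB := (Finset.mem_filter.mp hw).1
      have hwE := (Finset.mem_filter.mp hw).2
      have h1 := edge_le P Q hPQ k w v0 (hB w hwB) (hA v0 hv0)
        (fun p hp => (hk (v0, w) hwE p hp).symm) (ψ v0) (hψ v0 hv0).le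
        (by rw [Nat.gcd_comm]; exact hD1 (v0, w) hwE)
      have h2 : ((∏ p ∈ P, p ^ (w.factorization p - v0.factorization p) : ℕ) : ℝ) = b' := by
        rw [hb']
        congr 1
        refine Finset.prod_congr rfl fun p hp => ?_
        rw [hBg w hwB p hp, hAf v0 hv0 p hp]
      rw [h2] at h1
      rw [le_div_iff₀ (by positivity)]
      calc (rpt Q k w : ℝ) * (b' * A0) = b' * ((rpt Q k w : ℝ) * (spt Q k v0)) * ψ v0 := by
            rw [hA0]; ring
        _ ≤ 1 := h1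
  have hNw : ∑ v ∈ A.filter (fun v => (v, w0) ∈ E), μ v ≤ A0 * (1 / (a' * B0)) := by
    refine count_le P Q hQ hPQ f k (A.filter (fun v => (v, w0) ∈ E)) ?_ ?_ ?_ μ A0 (1 / (a' * B0))
      hA0pos.le (by positivity) ?_ ?_
    · intro w hw; exact hA w (Finset.mem_filter.mp hw).1
    · intro w hw; exact hApf w (Finset.mem_filter.mp hw).1
    · intro w hw; exact hAf w (Finset.mem_filter.mp hw).1
    · intro w hw
      have hwB := (Finset.mem_filter.mp hw).1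
      refine (hμψ w hwB).trans ?_
      refine mul_le_mul_of_nonneg_right ?_ (phr_nonneg w)
      rw [le_div_iff₀ (hs w)]
      exact hv0max w hwB
    · intro w hw
      have hwB := (Finset.mem_filter.mp hw).1
      have hwE := (Finset.mem_filter.mp hw).2
      have h1 := edge_le P Q hPQ k w w0 (hA w hwB) (hB w0 hw0)
        (fun p hp => hk (w, w0) hwE p hp) (θ w0) (hθ w0 hw0).le
        (hD2 (w, w0) hwE)
      have h2 : ((∏ p ∈ P, p ^ (w.factorization p - w0.factorization p) : ℕ) : ℝ) = a' := by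
        rw [ha']
        congr 1
        refine Finset.prod_congr rfl fun p hp => ?_
        rw [hAf w hwB p hp, hBg w0 hw0 p hp]
      rw [h2] at h1
      rw [le_div_iff₀ (by positivity)]
      calc (rpt Q k w : ℝ) * (a' * B0) = a' * ((rpt Q k w : ℝ) * (spt Q k w0)) * θ w0 := by
            rw [hB0]; ring
        _ ≤ 1 := h1
  have h1 := (hdegA v0 hv0).trans hNv
  have h2 := (hdegB w0 hw0).trans hNw
  have hsν : 0 < ∑ w ∈ B, ν w := Finset.sum_pos hν hBne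
  have hsμ : 0 < ∑ v ∈ A, μ v := Finset.sum_pos hμ hAne
  have h3 := mul_le_mul h1 h2 (by positivity) (by positivity)
  have hprod : ((∏ p ∈ P, p ^ (ndist (f p) (g p)) : ℕ) : ℝ) = a' * b' := by
    rw [ha', hb', ← prod_ndist]
    push_cast
    ring
  rw [hprod]
  calc δ ^ 2 * ((∑ v ∈ A, μ v) * (∑ w ∈ B, ν w)) * (a' * b')
      = ((δ * ∑ w ∈ B, ν w) * (δ * ∑ v ∈ A, μ v)) * (a' * b') := by ring
    _ ≤ (B0 * (1 / (b' * A0)) * (A0 * (1 / (a' * B0)))) * (a' * b') :=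
        mul_le_mul_of_nonneg_right h3 (by positivity)
    _ = 1 := by field_simp

/-- edge weight -/
noncomputable def eW (E : Finset (ℕ × ℕ)) (μ ν : ℕ → ℝ) (A B : Finset ℕ) : ℝ :=
  ∑ x ∈ E.filter (fun x => x.1 ∈ A ∧ x.2 ∈ B), μ x.1 * ν x.2

lemma poly_aux {a b : ℝ} (ha : 0 ≤ a) (hb : 0 ≤ b) (h : a ^ 4 ≤ b ^ 3) : a ≤ (3 * b + 1) / 4 := by
  have h1 : b ^ 3 ≤ ((3 * b + 1) / 4) ^ 4 := by
    have : ((3 * b + 1) / 4) ^ 4 - b ^ 3 = (b - 1) ^ 2 * (81 * b ^ 2 + 14 * b + 1) / 256 := by ring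
    have h2 : 0 ≤ (b - 1) ^ 2 * (81 * b ^ 2 + 14 * b + 1) / 256 := by positivity
    linarith
  exact le_of_pow_le_pow_left₀ (by norm_num) (by positivity) (h.trans h1)

lemma eW_nonneg (E : Finset (ℕ × ℕ)) (μ ν : ℕ → ℝ) (A B : Finset ℕ) (hμ : ∀ v ∈ A, 0 ≤ μ v)
    (hν : ∀ w ∈ B, 0 ≤ ν w) : 0 ≤ eW E μ ν A B :=
  Finset.sum_nonneg fun x hx =>
    mul_nonneg (hμ _ (Finset.mem_filter.mp hx).2.1) (hν _ (Finset.mem_filter.mp hx).2.2)

lemma eW_le (E : Finset (ℕ × ℕ)) (μ ν : ℕ → ℝ) (A B : Finset ℕ) (hμ : ∀ v ∈ A, 0 ≤ μ v)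
    (hν : ∀ w ∈ B, 0 ≤ ν w) : eW E μ ν A B ≤ (∑ v ∈ A, μ v) * (∑ w ∈ B, ν w) := by
  unfold eW
  rw [Finset.sum_mul_sum, ← Finset.sum_product']
  refine Finset.sum_le_sum_of_subset_of_nonneg ?_ ?_
  · intro x hx
    exact Finset.mem_product.mpr (Finset.mem_filter.mp hx).2
  · intro x hx _
    rw [Finset.mem_product] at hx
    exact mul_nonneg (hμ _ hx.1) (hν _ hx.2)

lemma eW_erase_left (E : Finset (ℕ × ℕ)) (μ ν : ℕ → ℝ) (A B : Finset ℕ) (v : ℕ) (hv : v ∈ A) :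
    eW E μ ν A B = eW E μ ν (A.erase v) B + μ v * ∑ w ∈ B.filter (fun w => (v, w) ∈ E), ν w := by
  unfold eW
  have h := Finset.sum_filter_add_sum_filter_not (E.filter (fun x => x.1 ∈ A ∧ x.2 ∈ B))
    (fun x => x.1 ≠ v) (fun x => μ x.1 * ν x.2)
  rw [← h]
  congr 1
  · refine Finset.sum_congr ?_ fun _ _ => rfl
    ext x
    simp only [Finset.mem_filter, Finset.mem_erase]
    tauto
  · rw [Finset.mul_sum]
    symm
    refine Finset.sum_bij (fun w _ => (v, w)) ?_ ?_ ?_ ?_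
    · intro w hw
      simp only [Finset.mem_filter] at hw ⊢
      exact ⟨⟨hw.2, hv, hw.1⟩, by simp⟩
    · intro a _ b _ hab
      simpa using hab
    · intro x hx
      simp only [Finset.mem_filter, not_not] at hx
      refine ⟨x.2, ?_, ?_⟩
      · simp only [Finset.mem_filter]
        refine ⟨hx.1.2.2, ?_⟩
        rw [← hx.2]
        exact hx.1.1
      · rw [← hx.2]
    · intro w _
      rfl

lemma eW_erase_right (E : Finset (ℕ × ℕ)) (μ ν : ℕ → ℝ) (A B : Finset ℕ) (w : ℕ) (hw : w ∈ B) :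
    eW E μ ν A B = eW E μ ν A (B.erase w) + ν w * ∑ v ∈ A.filter (fun v => (v, w) ∈ E), μ v := by
  unfold eW
  have h := Finset.sum_filter_add_sum_filter_not (E.filter (fun x => x.1 ∈ A ∧ x.2 ∈ B))
    (fun x => x.2 ≠ w) (fun x => μ x.1 * ν x.2)
  rw [← h]
  congr 1
  · refine Finset.sum_congr ?_ fun _ _ => rfl
    ext x
    simp only [Finset.mem_filter, Finset.mem_erase]
    tauto
  · rw [Finset.mul_sum]
    symm
    refine Finset.sum_bij (fun v _ => (v, w)) ?_ ?_ ?_ ?_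
    · intro v hv
      simp only [Finset.mem_filter] at hv ⊢
      exact ⟨⟨hv.2, hv.1, hw⟩, by simp⟩
    · intro a _ b _ hab
      simpa using hab
    · intro x hx
      simp only [Finset.mem_filter, not_not] at hx
      refine ⟨x.1, ?_, ?_⟩
      · simp only [Finset.mem_filter]
        refine ⟨hx.1.2.1, ?_⟩
        rw [← hx.2]
        exact hx.1.1
      · rw [← hx.2]
    · intro v _
      simp only
      ring

/-- Passing to a sub-pair with good minimum degree. -/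
lemma max_sub (A' B' : Finset ℕ) (E : Finset (ℕ × ℕ)) (μ ν : ℕ → ℝ)
    (hμ : ∀ v ∈ A', 0 < μ v) (hν : ∀ w ∈ B', 0 < ν w) (he : 0 < eW E μ ν A' B') :
    ∃ A B : Finset ℕ, A ⊆ A' ∧ B ⊆ B' ∧ 0 < eW E μ ν A B ∧ A.Nonempty ∧ B.Nonempty ∧
      eW E μ ν A' B' ^ 4 / ((∑ v ∈ A', μ v) * (∑ w ∈ B', ν w)) ^ 3 ≤
        eW E μ ν A B ^ 4 / ((∑ v ∈ A, μ v) * (∑ w ∈ B, ν w)) ^ 3 ∧
      (∀ v ∈ A, (3 / 4 * eW E μ ν A B / ((∑ v ∈ A, μ v) * (∑ w ∈ B, ν w))) * ∑ w ∈ B, ν w ≤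
        ∑ w ∈ B.filter (fun w => (v, w) ∈ E), ν w) ∧
      (∀ w ∈ B, (3 / 4 * eW E μ ν A B / ((∑ v ∈ A, μ v) * (∑ w ∈ B, ν w))) * ∑ v ∈ A, μ v ≤
        ∑ v ∈ A.filter (fun v => (v, w) ∈ E), μ v) := by
  classical
  set S : Finset (Finset ℕ × Finset ℕ) :=
    (A'.powerset ×ˢ B'.powerset).filter (fun x => 0 < eW E μ ν x.1 x.2) with hS
  have hSne : S.Nonempty := ⟨(A', B'), by
    rw [hS, Finset.mem_filter, Finset.mem_product, Finset.mem_powerset, Finset.mem_powerset]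
    exact ⟨⟨subset_rfl, subset_rfl⟩, he⟩⟩
  obtain ⟨⟨A, B⟩, hAB, hmax⟩ := Finset.exists_max_image S
    (fun x => eW E μ ν x.1 x.2 ^ 4 / ((∑ v ∈ x.1, μ v) * (∑ w ∈ x.2, ν w)) ^ 3) hSne
  rw [hS, Finset.mem_filter, Finset.mem_product, Finset.mem_powerset, Finset.mem_powerset] at hAB
  obtain ⟨⟨hAA, hBB⟩, hpos⟩ := hAB
  simp only at hAA hBB hpos hmax
  have hμA : ∀ v ∈ A, 0 < μ v := fun v hv => hμ v (hAA hv)
  have hνB : ∀ w ∈ B, 0 < ν w := fun w hw => hν w (hBB hw)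
  have hXY := eW_le E μ ν A B (fun v hv => (hμA v hv).le) (fun w hw => (hνB w hw).le)
  have hAne : A.Nonempty := by
    rw [Finset.nonempty_iff_ne_empty]
    intro h0
    rw [h0] at hXY hpos
    simp at hXY
    linarith
  have hBne : B.Nonempty := by
    rw [Finset.nonempty_iff_ne_empty]
    intro h0
    rw [h0] at hXY hpos
    simp at hXY
    linarith
  set X := ∑ v ∈ A, μ v with hX
  set Y := ∑ w ∈ B, ν w with hY
  have hXpos : 0 < X := Finset.sum_pos hμA hAne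
  have hYpos : 0 < Y := Finset.sum_pos hνB hBne
  set e := eW E μ ν A B with he'
  -- general inequality
  have key : ∀ A2 B2 : Finset ℕ, A2 ⊆ A → B2 ⊆ B →
      (eW E μ ν A2 B2 / e) ^ 4 ≤ (((∑ v ∈ A2, μ v) * (∑ w ∈ B2, ν w)) / (X * Y)) ^ 3 := by
    intro A2 B2 hA2 hB2
    have h0 : 0 ≤ eW E μ ν A2 B2 := eW_nonneg E μ ν A2 B2 (fun v hv => (hμA v (hA2 hv)).le)
      (fun w hw => (hνB w (hB2 hw)).le)
    have hsum0 : 0 ≤ (∑ v ∈ A2, μ v) * (∑ w ∈ B2, ν w) :=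
      mul_nonneg (Finset.sum_nonneg fun v hv => (hμA v (hA2 hv)).le)
        (Finset.sum_nonneg fun w hw => (hνB w (hB2 hw)).le)
    rcases eq_or_lt_of_le h0 with h | h
    · rw [← h]
      have : (0 / e) ^ 4 = 0 := by simp
      rw [this]
      positivity
    · have hle := eW_le E μ ν A2 B2 (fun v hv => (hμA v (hA2 hv)).le)
        (fun w hw => (hνB w (hB2 hw)).le)
      have hspos : 0 < (∑ v ∈ A2, μ v) * (∑ w ∈ B2, ν w) := h.trans_le hle
      have hm := hmax (A2, B2) (by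
        rw [hS, Finset.mem_filter, Finset.mem_product, Finset.mem_powerset, Finset.mem_powerset]
        exact ⟨⟨hA2.trans hAA, hB2.trans hBB⟩, h⟩)
      simp only at hm
      rw [div_le_div_iff₀ (by positivity) (by positivity)] at hm
      rw [div_pow, div_pow, div_le_div_iff₀ (by positivity) (by positivity)]
      linarith
  refine ⟨A, B, hAA, hBB, hpos, hAne, hBne, ?_, ?_, ?_⟩
  · exact hmax (A', B') (by
      rw [hS, Finset.mem_filter, Finset.mem_product, Finset.mem_powerset, Finset.mem_powerset]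
      exact ⟨⟨subset_rfl, subset_rfl⟩, he⟩)
  · intro v hv
    have h1 := key (A.erase v) B (Finset.erase_subset _ _) subset_rfl
    have h2 : ∑ v ∈ A.erase v, μ v = X - μ v := by
      rw [hX, ← Finset.add_sum_erase A μ hv]; ring
    have h3 := eW_erase_left E μ ν A B v hv
    have h4 : ((X - μ v) * Y) / (X * Y) = (X - μ v) / X := by field_simp
    rw [h2, h4] at h1
    have hx0 : 0 ≤ (X - μ v) / X := by
      rw [← h2]
      exact div_nonneg (Finset.sum_nonneg fun u hu => (hμA u (Finset.erase_subset _ _ hu)).le)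
        hXpos.le
    have he0 : 0 ≤ eW E μ ν (A.erase v) B / e :=
      div_nonneg (eW_nonneg E μ ν _ B (fun u hu => (hμA u (Finset.erase_subset _ _ hu)).le)
        (fun w hw => (hνB w hw).le)) hpos.le
    have h5 := poly_aux he0 hx0 h1
    have h6 : eW E μ ν (A.erase v) B = e - μ v * ∑ w ∈ B.filter (fun w => (v, w) ∈ E), ν w := by
      rw [he', h3]; ring
    rw [h6, div_le_iff₀ hpos] at h5
    have h7 : 3 / 4 * e * (μ v / X) ≤ μ v * ∑ w ∈ B.filter (fun w => (v, w) ∈ E), ν w := by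
      have h8 : (3 * ((X - μ v) / X) + 1) / 4 * e = e - 3 / 4 * e * (μ v / X) := by
        field_simp
        ring
      rw [h8] at h5
      linarith
    have hmv := hμA v hv
    have h9 : 3 / 4 * e / (X * Y) * Y = 3 / 4 * e / X := by field_simp
    rw [h9]
    have h10 : 3 / 4 * e * (μ v / X) = μ v * (3 / 4 * e / X) := by ring
    rw [h10] at h7
    exact le_of_mul_le_mul_left h7 hmv
  · intro w hw
    have h1 := key A (B.erase w) subset_rfl (Finset.erase_subset _ _)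
    have h2 : ∑ w ∈ B.erase w, ν w = Y - ν w := by
      rw [hY, ← Finset.add_sum_erase B ν hw]; ring
    have h3 := eW_erase_right E μ ν A B w hw
    have h4 : (X * (Y - ν w)) / (X * Y) = (Y - ν w) / Y := by field_simp
    rw [h2, h4] at h1
    have hx0 : 0 ≤ (Y - ν w) / Y := by
      rw [← h2]
      exact div_nonneg (Finset.sum_nonneg fun u hu => (hνB u (Finset.erase_subset _ _ hu)).le)
        hYpos.le
    have he0 : 0 ≤ eW E μ ν A (B.erase w) / e :=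
      div_nonneg (eW_nonneg E μ ν A _ (fun u hu => (hμA u hu).le)
        (fun u hu => (hνB u (Finset.erase_subset _ _ hu)).le)) hpos.le
    have h5 := poly_aux he0 hx0 h1
    have h6 : eW E μ ν A (B.erase w) = e - ν w * ∑ v ∈ A.filter (fun v => (v, w) ∈ E), μ v := by
      rw [he', h3]; ring
    rw [h6, div_le_iff₀ hpos] at h5
    have h7 : 3 / 4 * e * (ν w / Y) ≤ ν w * ∑ v ∈ A.filter (fun v => (v, w) ∈ E), μ v := by
      have h8 : (3 * ((Y - ν w) / Y) + 1) / 4 * e = e - 3 / 4 * e * (ν w / Y) := by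
        field_simp
        ring
      rw [h8] at h5
      linarith
    have hmv := hνB w hw
    have h9 : 3 / 4 * e / (X * Y) * X = 3 / 4 * e / Y := by field_simp
    rw [h9]
    have h10 : 3 / 4 * e * (ν w / Y) = ν w * (3 / 4 * e / Y) := by ring
    rw [h10] at h7
    exact le_of_mul_le_mul_left h7 hmv

end Pool.Agent.Helper69.DS
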