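import Mathlib
import Pool.Agent.Helper69.DS.Final

set_option autoImplicit false

open Finset

namespace Pool.Agent.Helper69.DS

/-- `p^(-1/4)` -/
noncomputable def rp (p : ℕ) : ℝ := (p : ℝ) ^ (-(1 / 4 : ℝ))

/-- the off-diagonal parameter -/
noncomputable def eta (R : ℝ) (p : ℕ) : ℝ := R ^ (1 / 4 : ℝ) * (2 * rp p / (1 - rp p))

lemma rp_nonneg (p : ℕ) : 0 ≤ rp p := by unfold rp; positivity

lemma rp_pow_four {p : ℕ} (hp : 0 < p) : rp p ^ 4 = (p : ℝ)⁻¹ := by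
  unfold rp
  rw [← Real.rpow_natCast, ← Real.rpow_mul (by positivity)]
  norm_num
  exact Real.rpow_neg_one _

lemma rp_le_half {p : ℕ} (hp : 16 ≤ p) : rp p ≤ 1 / 2 := by
  have h1 : rp p ^ 4 ≤ (1 / 2 : ℝ) ^ 4 := by
    rw [rp_pow_four (by omega)]
    have : (16 : ℝ) ≤ p := by exact_mod_cast hp
    calc (p : ℝ)⁻¹ ≤ 16⁻¹ := inv_anti₀ (by norm_num) this
      _ = (1 / 2 : ℝ) ^ 4 := by norm_num
  exact le_of_pow_le_pow_left₀ (by norm_num) (by norm_num) h1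

lemma rp_le_prime {p : ℕ} (hp : 2 ≤ p) : rp p ≤ 17 / 20 := by
  have h1 : rp p ^ 4 ≤ (17 / 20 : ℝ) ^ 4 := by
    rw [rp_pow_four (by omega)]
    have : (2 : ℝ) ≤ p := by exact_mod_cast hp
    calc (p : ℝ)⁻¹ ≤ 2⁻¹ := inv_anti₀ (by norm_num) this
      _ ≤ (17 / 20 : ℝ) ^ 4 := by norm_num
  exact le_of_pow_le_pow_left₀ (by norm_num) (by norm_num) h1

lemma R4 {R : ℝ} (hR : 1 ≤ R) : (R ^ (1 / 4 : ℝ)) ^ 4 = R := by
  rw [← Real.rpow_natCast, ← Real.rpow_mul (by linarith)]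
  norm_num

lemma eta_nonneg {R : ℝ} (hR : 1 ≤ R) {p : ℕ} (hp : 2 ≤ p) : 0 ≤ eta R p := by
  unfold eta
  have h1 := rp_nonneg p
  have h2 := rp_le_prime hp
  have h3 : 0 < 1 - rp p := by linarith
  have : 0 ≤ R := by linarith
  positivity

lemma eta_le {R : ℝ} (hR : 1 ≤ R) {p : ℕ} (hp : 16 ≤ p) :
    eta R p ≤ 4 * (R ^ (1 / 4 : ℝ) * rp p) := by
  unfold eta
  have h1 := rp_nonneg p
  have h2 := rp_le_half hp
  have h3 : 0 < 1 - rp p := by linarith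
  have h4 : 2 * rp p / (1 - rp p) ≤ 4 * rp p := by
    rw [div_le_iff₀ h3]
    nlinarith
  have h5 : 0 ≤ R ^ (1 / 4 : ℝ) := by positivity
  nlinarith

lemma eta_four {R : ℝ} (hR : 1 ≤ R) {p : ℕ} (hp : 16 ≤ p) : eta R p ^ 4 ≤ 256 * R / p := by
  calc eta R p ^ 4 ≤ (4 * (R ^ (1 / 4 : ℝ) * rp p)) ^ 4 :=
        pow_le_pow_left₀ (eta_nonneg hR (by omega)) (eta_le hR hp) 4
    _ = 256 * (R ^ (1 / 4 : ℝ)) ^ 4 * rp p ^ 4 := by ring
    _ = 256 * R / p := by rw [R4 hR, rp_pow_four (by omega)]; ring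

lemma eta_six {R : ℝ} (hR : 1 ≤ R) {p : ℕ} (hp : 16 ≤ p) :
    128 * eta R p ^ 6 ≤ (524288 * (R ^ (1 / 4 : ℝ)) ^ 6) * (p : ℝ) ^ (-(3 / 2 : ℝ)) := by
  have h6 : rp p ^ 6 = (p : ℝ) ^ (-(3 / 2 : ℝ)) := by
    unfold rp
    rw [← Real.rpow_natCast, ← Real.rpow_mul (by positivity)]
    norm_num
  calc 128 * eta R p ^ 6 ≤ 128 * (4 * (R ^ (1 / 4 : ℝ) * rp p)) ^ 6 :=
        mul_le_mul_of_nonneg_left
          (pow_le_pow_left₀ (eta_nonneg hR (by omega)) (eta_le hR hp) 6) (by norm_num)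
    _ = (524288 * (R ^ (1 / 4 : ℝ)) ^ 6) * rp p ^ 6 := by ring
    _ = _ := by rw [h6]

lemma exists_p0 (R : ℝ) (hR : 1 ≤ R) : ∃ p0 : ℕ, 16 ≤ p0 ∧
    (∀ p : ℕ, p0 < p → eta R p ≤ 1 / 256) ∧
    (∀ S : Finset ℕ, (∀ p ∈ S, p0 < p) → ∑ p ∈ S, 128 * eta R p ^ 6 ≤ 1 / 4) := by
  have hsum : Summable (fun p : ℕ => (524288 * (R ^ (1 / 4 : ℝ)) ^ 6) * (p : ℝ) ^ (-(3 / 2 : ℝ))) := by
    apply Summable.mul_left
    exact Real.summable_nat_rpow.mpr (by norm_num)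
  have hv := (summable_iff_vanishing_norm).mp hsum (1 / 4) (by norm_num)
  obtain ⟨s, hs⟩ := hv
  set N1 := s.sup id with hN1
  set N2 := ⌈256 ^ 5 * R⌉₊ with hN2
  refine ⟨16 + N1 + N2, by omega, ?_, ?_⟩
  · intro p hp
    have hp16 : 16 ≤ p := by omega
    have h1 := eta_four hR hp16
    have hpN : (N2 : ℝ) ≤ p := by exact_mod_cast (by omega : N2 ≤ p)
    have hR2 : 256 ^ 5 * R ≤ p := (Nat.le_ceil _).trans hpN
    have hp0 : (0 : ℝ) < p := by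
      have : 0 < p := by omega
      exact_mod_cast this
    have h2 : 256 * R / p ≤ (1 / 256 : ℝ) ^ 4 := by
      rw [div_le_iff₀ hp0]
      have : 256 * R = (1 / 256 : ℝ) ^ 4 * (256 ^ 5 * R) := by ring
      rw [this]
      exact mul_le_mul_of_nonneg_left hR2 (by positivity)
    exact le_of_pow_le_pow_left₀ (by norm_num) (by norm_num) (h1.trans h2)
  · intro S hS
    have hdisj : Disjoint S s := by
      rw [Finset.disjoint_left]
      intro p hpS hps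
      have h1 := hS p hpS
      have h2 : p ≤ N1 := Finset.le_sup (f := id) hps
      omega
    have h1 := hs S hdisj
    have h2 : ∑ p ∈ S, 128 * eta R p ^ 6 ≤
        ∑ p ∈ S, (524288 * (R ^ (1 / 4 : ℝ)) ^ 6) * (p : ℝ) ^ (-(3 / 2 : ℝ)) :=
      Finset.sum_le_sum fun p hp => eta_six hR (by have := hS p hp; omega)
    have h3 := (le_abs_self (∑ p ∈ S, (524288 * (R ^ (1 / 4 : ℝ)) ^ 6) * (p : ℝ) ^ (-(3 / 2 : ℝ))))
    rw [Real.norm_eq_abs] at h1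
    linarith

/-- `∑_{p > t} 1/p² ≤ 1/t` for finite sets -/
lemma sum_inv_sq_le (t : ℕ) (ht : 0 < t) (S : Finset ℕ) (hS : ∀ p ∈ S, t < p) :
    ∑ p ∈ S, (1 : ℝ) / (p : ℝ) ^ 2 ≤ 1 / t := by
  have hsub : S ⊆ Finset.Ioo t (S.sup id + 1) := by
    intro p hp
    rw [Finset.mem_Ioo]
    exact ⟨hS p hp, Nat.lt_succ_of_le (Finset.le_sup (f := id) hp)⟩
  calc ∑ p ∈ S, (1 : ℝ) / (p : ℝ) ^ 2 ≤ ∑ p ∈ Finset.Ioo t (S.sup id + 1), (1 : ℝ) / (p : ℝ) ^ 2 :=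
        Finset.sum_le_sum_of_subset_of_nonneg hsub (fun p _ _ => by positivity)
    _ ≤ ∑ p ∈ Finset.Ico (t + 1) (t + 1 + (S.sup id + 1)), (1 : ℝ) / (p : ℝ) ^ 2 := by
        refine Finset.sum_le_sum_of_subset_of_nonneg ?_ (fun p _ _ => by positivity)
        intro p hp
        rw [Finset.mem_Ioo] at hp
        rw [Finset.mem_Ico]
        omega
    _ ≤ 1 / t := by
        have : ∀ m : ℕ, ∑ p ∈ Finset.Ico (t + 1) (t + 1 + m), (1 : ℝ) / (p : ℝ) ^ 2 ≤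
            1 / t - 1 / (t + m) := by
          intro m
          induction m with
          | zero => simp
          | succ m ih =>
            rw [← Nat.add_assoc, Finset.sum_Ico_succ_top (by omega)]
            have h0 : (0 : ℝ) < t := by exact_mod_cast ht
            have h1 : (1 : ℝ) / ((t + 1 + m : ℕ) : ℝ) ^ 2 ≤ 1 / (t + m) - 1 / (t + (m + 1 : ℕ)) := by
              push_cast
              have hm : (0 : ℝ) ≤ m := by positivity
              rw [div_sub_div _ _ (by positivity) (by positivity), div_le_div_iff₀ (by positivity) (by positivity)]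
              nlinarith
            linarith
        have h2 := this (S.sup id + 1)
        have h3 : (0 : ℝ) ≤ 1 / (t + ((S.sup id + 1 : ℕ) : ℝ)) := by positivity
        linarith

end Pool.Agent.Helper69.DS
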