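import Mathlib
import Pool.Agent.Helper69.DS.Params

set_option autoImplicit false

open Finset

namespace Pool.Agent.Helper69.DS

/-- fourth root -/
noncomputable def q4 (x : ℝ) : ℝ := Real.sqrt (Real.sqrt x)

lemma q4_nonneg (x : ℝ) : 0 ≤ q4 x := Real.sqrt_nonneg _

lemma q4_pow {x : ℝ} (hx : 0 ≤ x) : q4 x ^ 4 = x := by
  have h1 : q4 x ^ 4 = (Real.sqrt (Real.sqrt x) ^ 2) ^ 2 := by unfold q4; ring
  rw [h1, Real.sq_sqrt (Real.sqrt_nonneg _), Real.sq_sqrt hx]

lemma fiber (E' : Finset (ℕ × ℕ)) (w : ℕ × ℕ → ℝ) (a b : ℕ × ℕ → ℕ) (n : ℕ)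
    (ha : ∀ x ∈ E', a x < n) (hb : ∀ x ∈ E', b x < n) (T : ℕ → ℕ → Prop) [∀ i j, Decidable (T i j)] :
    ∑ i ∈ range n, ∑ j ∈ (range n).filter (fun j => T i j),
      ∑ x ∈ E'.filter (fun x => a x = i ∧ b x = j), w x =
    ∑ x ∈ E'.filter (fun x => T (a x) (b x)), w x := by
  have h1 : ∀ i ∈ range n, ∑ j ∈ (range n).filter (fun j => T i j),
      ∑ x ∈ E'.filter (fun x => a x = i ∧ b x = j), w x =
      ∑ x ∈ E', ∑ j ∈ range n, if T i j ∧ a x = i ∧ b x = j then w x else 0 := by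
    intro i _
    rw [Finset.sum_filter, Finset.sum_comm]
    refine Finset.sum_congr rfl fun j _ => ?_
    by_cases hT : T i j
    · rw [if_pos hT, Finset.sum_filter]
      refine Finset.sum_congr rfl fun x _ => ?_
      simp [hT]
    · rw [if_neg hT]
      symm
      apply Finset.sum_eq_zero
      intro x _
      simp [hT]
  rw [Finset.sum_congr rfl h1, Finset.sum_comm, Finset.sum_filter]
  refine Finset.sum_congr rfl fun x hx => ?_
  have hai : a x ∈ range n := Finset.mem_range.mpr (ha x hx)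
  have hbi : b x ∈ range n := Finset.mem_range.mpr (hb x hx)
  rw [Finset.sum_eq_single (a x), Finset.sum_eq_single (b x)]
  · simp
  · intro j _ hj
    rw [if_neg]
    rintro ⟨_, _, h⟩
    exact hj h.symm
  · intro h; exact absurd hbi h
  · intro i _ hi
    apply Finset.sum_eq_zero
    intro j _
    rw [if_neg]
    rintro ⟨_, h, _⟩
    exact hi h.symm
  · intro h; exact absurd hai h

/-- restriction to a given valuation -/
def res (p : ℕ) (A : Finset ℕ) (i : ℕ) : Finset ℕ := A.filter (fun v => v.factorization p = i)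

lemma sum_res (p : ℕ) (A : Finset ℕ) (μ : ℕ → ℝ) (n : ℕ) (hn : ∀ v ∈ A, v.factorization p < n) :
    ∑ i ∈ range n, ∑ v ∈ res p A i, μ v = ∑ v ∈ A, μ v := by
  unfold res
  exact Finset.sum_fiberwise_of_maps_to (fun v hv => Finset.mem_range.mpr (hn v hv)) μ

lemma eW_res (E : Finset (ℕ × ℕ)) (μ ν : ℕ → ℝ) (A B : Finset ℕ) (p i j : ℕ) :
    eW E μ ν (res p A i) (res p B j) =
      ∑ x ∈ (E.filter (fun x => x.1 ∈ A ∧ x.2 ∈ B)).filter
        (fun x => x.1.factorization p = i ∧ x.2.factorization p = j), μ x.1 * ν x.2 := by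
  unfold eW res
  refine Finset.sum_congr ?_ fun _ _ => rfl
  ext x
  simp only [Finset.mem_filter]
  tauto

lemma eW_res_left (E : Finset (ℕ × ℕ)) (μ ν : ℕ → ℝ) (A B : Finset ℕ) (p i n : ℕ)
    (hn : ∀ v ∈ B, v.factorization p < n) :
    ∑ j ∈ range n, eW E μ ν (res p A i) (res p B j) = eW E μ ν (res p A i) B := by
  unfold eW
  have h := Finset.sum_fiberwise_of_maps_to
    (s := E.filter (fun x => x.1 ∈ res p A i ∧ x.2 ∈ B)) (t := range n)
    (g := fun x => x.2.factorization p)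
    (fun x hx => Finset.mem_range.mpr (hn _ (Finset.mem_filter.mp hx).2.2))
    (fun x => μ x.1 * ν x.2)
  rw [← h]
  refine Finset.sum_congr rfl fun j _ => Finset.sum_congr ?_ fun _ _ => rfl
  ext x
  simp only [Finset.mem_filter, res]
  tauto

lemma eW_res_right (E : Finset (ℕ × ℕ)) (μ ν : ℕ → ℝ) (A B : Finset ℕ) (p j n : ℕ)
    (hn : ∀ v ∈ A, v.factorization p < n) :
    ∑ i ∈ range n, eW E μ ν (res p A i) (res p B j) = eW E μ ν A (res p B j) := by
  unfold eW
  have h := Finset.sum_fiberwise_of_maps_to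
    (s := E.filter (fun x => x.1 ∈ A ∧ x.2 ∈ res p B j)) (t := range n)
    (g := fun x => x.1.factorization p)
    (fun x hx => Finset.mem_range.mpr (hn _ (Finset.mem_filter.mp hx).2.1))
    (fun x => μ x.1 * ν x.2)
  rw [← h]
  refine Finset.sum_congr rfl fun j _ => Finset.sum_congr ?_ fun _ _ => rfl
  ext x
  simp only [Finset.mem_filter, res]
  tauto

lemma root_bound {a b c p : ℝ} {r ρ X Y : ℝ} {d : ℕ} (ha : 0 ≤ a) (hr : 0 ≤ r) (hρ : 0 ≤ ρ)
    (hX : 0 ≤ X) (hY : 0 ≤ Y) (hX4 : X ^ 4 = b) (hY4 : Y ^ 4 = c) (hp : 0 < p) (hr4 : r ^ 4 = p⁻¹)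
    {R : ℝ} (hR : 0 < R) (hρ4 : ρ ^ 4 = R) (h : a ^ 4 * (p ^ d / R) ≤ (b * c) ^ 3) :
    a ≤ ρ * r ^ d * (X ^ 3 * Y ^ 3) := by
  have h1 : a ^ 4 ≤ (ρ * r ^ d * (X ^ 3 * Y ^ 3)) ^ 4 := by
    have h2 : (ρ * r ^ d * (X ^ 3 * Y ^ 3)) ^ 4 = ρ ^ 4 * (r ^ 4) ^ d * ((X ^ 4) * (Y ^ 4)) ^ 3 := by
      ring
    rw [h2, hρ4, hr4, hX4, hY4]
    have h3 : a ^ 4 = a ^ 4 * (p ^ d / R) * (R * p⁻¹ ^ d) := by
      rw [inv_pow]
      field_simp
    rw [h3]
    calc a ^ 4 * (p ^ d / R) * (R * p⁻¹ ^ d) ≤ (b * c) ^ 3 * (R * p⁻¹ ^ d) :=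
          mul_le_mul_of_nonneg_right h (by positivity)
      _ = R * p⁻¹ ^ d * (b * c) ^ 3 := by ring
  exact le_of_pow_le_pow_left₀ (by norm_num) (by positivity) h1

section

variable (E : Finset (ℕ × ℕ)) (μ ν : ℕ → ℝ) (A B : Finset ℕ) (p n : ℕ)

/-- Large primes: concentration of the valuations on the edges. -/
lemma conc_edges (hμ : ∀ v ∈ A, 0 < μ v) (hν : ∀ w ∈ B, 0 < ν w)
    (he : 0 < eW E μ ν A B) (hnA : ∀ v ∈ A, v.factorization p < n)
    (hnB : ∀ w ∈ B, w.factorization p < n) (R : ℝ) (hR : 1 ≤ R) (hp : 16 ≤ p)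
    (heta : eta R p ≤ 1 / 256)
    (H1 : ∀ i j, i ≠ j → eW E μ ν (res p A i) (res p B j) ^ 4 * ((p : ℝ) ^ (ndist i j) / R) *
      ((∑ v ∈ A, μ v) * (∑ w ∈ B, ν w)) ^ 3 ≤
      eW E μ ν A B ^ 4 * ((∑ v ∈ res p A i, μ v) * (∑ w ∈ res p B j, ν w)) ^ 3)
    (H1' : ∀ i, eW E μ ν (res p A i) (res p B i) ^ 4 *
      ((∑ v ∈ A, μ v) * (∑ w ∈ B, ν w)) ^ 3 ≤
      eW E μ ν A B ^ 4 * ((∑ v ∈ res p A i, μ v) * (∑ w ∈ res p B i, ν w)) ^ 3)
    (H2 : ∀ i, eW E μ ν (res p A i) B ^ 4 * ((∑ v ∈ A, μ v) * (∑ w ∈ B, ν w)) ^ 3 ≤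
      eW E μ ν A B ^ 4 * ((∑ v ∈ res p A i, μ v) * (∑ w ∈ B, ν w)) ^ 3)
    (H3 : ∀ j, eW E μ ν A (res p B j) ^ 4 * ((∑ v ∈ A, μ v) * (∑ w ∈ B, ν w)) ^ 3 ≤
      eW E μ ν A B ^ 4 * ((∑ v ∈ A, μ v) * (∑ w ∈ res p B j, ν w)) ^ 3) :
    ∃ k : ℕ,
      (∑ x ∈ (E.filter (fun x => x.1 ∈ A ∧ x.2 ∈ B)).filter
        (fun x => x.1.factorization p ≠ k ∧ x.2.factorization p ≠ k), μ x.1 * ν x.2
        ≤ 128 * eta R p ^ 6 * eW E μ ν A B) ∧
      (∑ x ∈ (E.filter (fun x => x.1 ∈ A ∧ x.2 ∈ B)).filter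
        (fun x => x.1.factorization p ≠ x.2.factorization p), μ x.1 * ν x.2
        ≤ 17 * eta R p ^ 4 * eW E μ ν A B) := by
  have hle := eW_le E μ ν A B (fun v hv => (hμ v hv).le) (fun w hw => (hν w hw).le)
  have hXY : 0 < (∑ v ∈ A, μ v) * (∑ w ∈ B, ν w) := he.trans_le hle
  have hX0 : 0 ≤ ∑ v ∈ A, μ v := Finset.sum_nonneg fun v hv => (hμ v hv).le
  have hY0 : 0 ≤ ∑ w ∈ B, ν w := Finset.sum_nonneg fun w hw => (hν w hw).le
  have hX : 0 < ∑ v ∈ A, μ v := by
    rcases eq_or_lt_of_le hX0 with h | h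
    · rw [← h] at hXY; simp at hXY
    · exact h
  have hY : 0 < ∑ w ∈ B, ν w := by
    rcases eq_or_lt_of_le hY0 with h | h
    · rw [← h] at hXY; simp at hXY
    · exact h
  set X := ∑ v ∈ A, μ v with hXd
  set Y := ∑ w ∈ B, ν w with hYd
  set e := eW E μ ν A B with hed
  set x : ℕ → ℝ := fun i => (∑ v ∈ res p A i, μ v) / X with hx
  set y : ℕ → ℝ := fun j => (∑ w ∈ res p B j, ν w) / Y with hy
  have hresA : ∀ i, ∀ v ∈ res p A i, 0 < μ v := fun i v hv => hμ v (Finset.mem_filter.mp hv).1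
  have hresB : ∀ i, ∀ v ∈ res p B i, 0 < ν v := fun i v hv => hν v (Finset.mem_filter.mp hv).1
  have hx0 : ∀ i, 0 ≤ x i := fun i =>
    div_nonneg (Finset.sum_nonneg fun v hv => (hresA i v hv).le) hX.le
  have hy0 : ∀ i, 0 ≤ y i := fun i =>
    div_nonneg (Finset.sum_nonneg fun v hv => (hresB i v hv).le) hY.le
  have heW0 : ∀ i j, 0 ≤ eW E μ ν (res p A i) (res p B j) := fun i j =>
    eW_nonneg E μ ν _ _ (fun v hv => (hresA i v hv).le) (fun w hw => (hresB j w hw).le)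
  have hr1 : rp p < 1 := by
    have := rp_le_half hp
    linarith
  have hrp0 := rp_nonneg p
  have hp0 : (0 : ℝ) < p := by
    have : 0 < p := by omega
    exact_mod_cast this
  have hρ0 : 0 ≤ R ^ (1 / 4 : ℝ) := by positivity
  have hsumx : ∑ i ∈ range n, x i = 1 := by
    rw [hx, ← Finset.sum_div, sum_res p A μ n hnA]
    exact div_self hX.ne'
  have hsumy : ∑ i ∈ range n, y i = 1 := by
    rw [hy, ← Finset.sum_div, sum_res p B ν n hnB]
    exact div_self hY.ne'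
  have hEA : ∀ z ∈ E.filter (fun x => x.1 ∈ A ∧ x.2 ∈ B), z.1.factorization p < n := fun z hz =>
    hnA _ (Finset.mem_filter.mp hz).2.1
  have hEB : ∀ z ∈ E.filter (fun x => x.1 ∈ A ∧ x.2 ∈ B), z.2.factorization p < n := fun z hz =>
    hnB _ (Finset.mem_filter.mp hz).2.2
  have hfib : ∀ (T : ℕ → ℕ → Prop) [∀ i j, Decidable (T i j)],
      ∑ i ∈ range n, ∑ j ∈ (range n).filter (fun j => T i j),
        eW E μ ν (res p A i) (res p B j) / e =
      (∑ z ∈ (E.filter (fun x => x.1 ∈ A ∧ x.2 ∈ B)).filter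
        (fun z => T (z.1.factorization p) (z.2.factorization p)), μ z.1 * ν z.2) / e := by
    intro T _
    rw [← fiber (E.filter (fun x => x.1 ∈ A ∧ x.2 ∈ B)) (fun z => μ z.1 * ν z.2)
      (fun z => z.1.factorization p) (fun z => z.2.factorization p) n hEA hEB T, Finset.sum_div]
    refine Finset.sum_congr rfl fun i _ => ?_
    rw [Finset.sum_div]
    refine Finset.sum_congr rfl fun j _ => ?_
    rw [eW_res]
  have hconc := conc n (fun i => q4 (x i)) (fun i => q4 (y i))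
    (fun i j => eW E μ ν (res p A i) (res p B j) / e) (rp p) (R ^ (1 / 4 : ℝ)) (eta R p)
    hrp0 hr1 hρ0 rfl heta (fun i => q4_nonneg _) (fun i => q4_nonneg _)
    (fun i j => div_nonneg (heW0 i j) he.le)
    (by rw [← hsumx]; exact Finset.sum_congr rfl fun i _ => q4_pow (hx0 i))
    (by rw [← hsumy]; exact Finset.sum_congr rfl fun i _ => q4_pow (hy0 i))
    (by
      have h := hfib (fun _ _ => True)
      simp only [Finset.filter_true] at h
      rw [h]
      exact div_self he.ne')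
    (by
      intro i _ j _ hij
      refine root_bound (div_nonneg (heW0 i j) he.le) hrp0 hρ0 (q4_nonneg _) (q4_nonneg _)
        (q4_pow (hx0 i)) (q4_pow (hy0 j)) hp0 (rp_pow_four (by omega)) (by linarith) (R4 hR) ?_
      have h := H1 i j hij
      rw [hx, hy]
      simp only
      rw [div_mul_div_comm, div_pow, div_pow, div_mul_eq_mul_div, div_le_div_iff₀ (by positivity) (by positivity)]
      linarith)
    (by
      intro i _
      have h := H1' i
      have h2 : (eW E μ ν (res p A i) (res p B i) / e) ^ 4 ≤ (q4 (x i) ^ 3 * q4 (y i) ^ 3) ^ 4 := by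
        have h3 : (q4 (x i) ^ 3 * q4 (y i) ^ 3) ^ 4 = (q4 (x i) ^ 4 * q4 (y i) ^ 4) ^ 3 := by ring
        rw [h3, q4_pow (hx0 i), q4_pow (hy0 i), hx, hy]
        simp only
        rw [div_mul_div_comm, div_pow, div_pow, div_le_div_iff₀ (by positivity) (by positivity)]
        linarith
      exact le_of_pow_le_pow_left₀ (by norm_num)
        (by have := q4_nonneg (x i); have := q4_nonneg (y i); positivity) h2)
    (by
      intro i _
      have h1 : ∑ j ∈ range n, eW E μ ν (res p A i) (res p B j) / e = eW E μ ν (res p A i) B / e := by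
        rw [← Finset.sum_div, eW_res_left E μ ν A B p i n hnB]
      rw [h1, q4_pow (hx0 i)]
      refine poly_aux (div_nonneg (eW_nonneg E μ ν _ _ (fun v hv => (hresA i v hv).le)
        (fun w hw => (hν w hw).le)) he.le) (hx0 i) ?_
      have h := H2 i
      have h3 : x i ^ 3 = (((∑ v ∈ res p A i, μ v) * Y) / (X * Y)) ^ 3 := by
        rw [hx]
        simp only
        congr 1
        field_simp
      rw [h3, div_pow, div_pow, div_le_div_iff₀ (by positivity) (by positivity)]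
      linarith)
    (by
      intro i _
      have h1 : ∑ j ∈ range n, eW E μ ν (res p A j) (res p B i) / e = eW E μ ν A (res p B i) / e := by
        rw [← Finset.sum_div, eW_res_right E μ ν A B p i n hnA]
      rw [h1, q4_pow (hy0 i)]
      refine poly_aux (div_nonneg (eW_nonneg E μ ν _ _ (fun v hv => (hμ v hv).le)
        (fun w hw => (hresB i w hw).le)) he.le) (hy0 i) ?_
      have h := H3 i
      have h3 : y i ^ 3 = ((X * (∑ v ∈ res p B i, ν v)) / (X * Y)) ^ 3 := by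
        rw [hy]
        simp only
        congr 1
        field_simp
      rw [h3, div_pow, div_pow, div_le_div_iff₀ (by positivity) (by positivity)]
      linarith)
  obtain ⟨k, _, hk1, hk2⟩ := hconc
  refine ⟨k, ?_, ?_⟩
  · have h := hfib (fun i j => i ≠ k ∧ j ≠ k)
    have h2 : ∑ i ∈ (range n).filter (fun i => i ≠ k), ∑ j ∈ (range n).filter (fun j => j ≠ k),
        eW E μ ν (res p A i) (res p B j) / e =
        ∑ i ∈ range n, ∑ j ∈ (range n).filter (fun j => i ≠ k ∧ j ≠ k),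
        eW E μ ν (res p A i) (res p B j) / e := by
      rw [Finset.sum_filter]
      refine Finset.sum_congr rfl fun i _ => ?_
      split_ifs with hi
      · refine Finset.sum_congr ?_ fun _ _ => rfl
        ext j
        simp [hi]
      · symm
        apply Finset.sum_eq_zero
        intro j hj
        exact absurd (Finset.mem_filter.mp hj).2.1 hi
    rw [h2, h, div_le_iff₀ he] at hk1
    exact hk1
  · have h := hfib (fun i j => i ≠ j)
    rw [h, div_le_iff₀ he] at hk2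
    exact hk2

/-- Small primes: contradiction. -/
lemma small_false (hμ : ∀ v ∈ A, 0 < μ v) (hν : ∀ w ∈ B, 0 < ν w)
    (he : 0 < eW E μ ν A B) (hnA : ∀ v ∈ A, v.factorization p < n)
    (hnB : ∀ w ∈ B, w.factorization p < n) (hp : 2 ≤ p)
    (H1 : ∀ i j, eW E μ ν (res p A i) (res p B j) ^ 4 * (65536 * (p : ℝ) ^ (ndist i j)) *
      ((∑ v ∈ A, μ v) * (∑ w ∈ B, ν w)) ^ 3 ≤
      eW E μ ν A B ^ 4 * ((∑ v ∈ res p A i, μ v) * (∑ w ∈ res p B j, ν w)) ^ 3) :
    False := by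
  have hle := eW_le E μ ν A B (fun v hv => (hμ v hv).le) (fun w hw => (hν w hw).le)
  have hXY : 0 < (∑ v ∈ A, μ v) * (∑ w ∈ B, ν w) := he.trans_le hle
  have hX0 : 0 ≤ ∑ v ∈ A, μ v := Finset.sum_nonneg fun v hv => (hμ v hv).le
  have hY0 : 0 ≤ ∑ w ∈ B, ν w := Finset.sum_nonneg fun w hw => (hν w hw).le
  have hX : 0 < ∑ v ∈ A, μ v := by
    rcases eq_or_lt_of_le hX0 with h | h
    · rw [← h] at hXY; simp at hXY
    · exact h
  have hY : 0 < ∑ w ∈ B, ν w := by
    rcases eq_or_lt_of_le hY0 with h | h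
    · rw [← h] at hXY; simp at hXY
    · exact h
  set X := ∑ v ∈ A, μ v with hXd
  set Y := ∑ w ∈ B, ν w with hYd
  set e := eW E μ ν A B with hed
  set x : ℕ → ℝ := fun i => (∑ v ∈ res p A i, μ v) / X with hx
  set y : ℕ → ℝ := fun j => (∑ w ∈ res p B j, ν w) / Y with hy
  have hresA : ∀ i, ∀ v ∈ res p A i, 0 < μ v := fun i v hv => hμ v (Finset.mem_filter.mp hv).1
  have hresB : ∀ i, ∀ v ∈ res p B i, 0 < ν v := fun i v hv => hν v (Finset.mem_filter.mp hv).1
  have hx0 : ∀ i, 0 ≤ x i := fun i =>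
    div_nonneg (Finset.sum_nonneg fun v hv => (hresA i v hv).le) hX.le
  have hy0 : ∀ i, 0 ≤ y i := fun i =>
    div_nonneg (Finset.sum_nonneg fun v hv => (hresB i v hv).le) hY.le
  have heW0 : ∀ i j, 0 ≤ eW E μ ν (res p A i) (res p B j) := fun i j =>
    eW_nonneg E μ ν _ _ (fun v hv => (hresA i v hv).le) (fun w hw => (hresB j w hw).le)
  have hrle := rp_le_prime hp
  have hr1 : rp p < 1 := by linarith
  have hrp0 := rp_nonneg p
  have hp0 : (0 : ℝ) < p := by
    have : 0 < p := by omega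
    exact_mod_cast this
  have hsumx : ∑ i ∈ range n, x i = 1 := by
    rw [hx, ← Finset.sum_div, sum_res p A μ n hnA]
    exact div_self hX.ne'
  have hsumy : ∑ i ∈ range n, y i = 1 := by
    rw [hy, ← Finset.sum_div, sum_res p B ν n hnB]
    exact div_self hY.ne'
  have hEA : ∀ z ∈ E.filter (fun x => x.1 ∈ A ∧ x.2 ∈ B), z.1.factorization p < n := fun z hz =>
    hnA _ (Finset.mem_filter.mp hz).2.1
  have hEB : ∀ z ∈ E.filter (fun x => x.1 ∈ A ∧ x.2 ∈ B), z.2.factorization p < n := fun z hz =>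
    hnB _ (Finset.mem_filter.mp hz).2.2
  have htot : ∑ i ∈ range n, ∑ j ∈ range n, eW E μ ν (res p A i) (res p B j) / e = 1 := by
    have h := fiber (E.filter (fun x => x.1 ∈ A ∧ x.2 ∈ B)) (fun z => μ z.1 * ν z.2)
      (fun z => z.1.factorization p) (fun z => z.2.factorization p) n hEA hEB (fun _ _ => True)
    simp only [Finset.filter_true] at h
    have h2 : ∑ i ∈ range n, ∑ j ∈ range n, eW E μ ν (res p A i) (res p B j) / e =
        (∑ i ∈ range n, ∑ j ∈ range n, ∑ z ∈ (E.filter (fun x => x.1 ∈ A ∧ x.2 ∈ B)).filter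
        (fun x => x.1.factorization p = i ∧ x.2.factorization p = j), μ z.1 * ν z.2) / e := by
      rw [Finset.sum_div]
      refine Finset.sum_congr rfl fun i _ => ?_
      rw [Finset.sum_div]
      refine Finset.sum_congr rfl fun j _ => ?_
      rw [eW_res]
    rw [h2, h]
    exact div_self he.ne'
  have hbd : ∀ i j, eW E μ ν (res p A i) (res p B j) / e ≤
      1 / 16 * rp p ^ (ndist i j) * (q4 (x i) ^ 3 * q4 (y j) ^ 3) := by
    intro i j
    refine root_bound (div_nonneg (heW0 i j) he.le) hrp0 (by norm_num) (q4_nonneg _) (q4_nonneg _)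
      (q4_pow (hx0 i)) (q4_pow (hy0 j)) hp0 (rp_pow_four (by omega))
      (by norm_num : (0:ℝ) < 1 / 65536) (by norm_num) ?_
    have h := H1 i j
    rw [hx, hy]
    simp only
    rw [div_mul_div_comm, div_pow, div_pow, div_mul_eq_mul_div, div_le_div_iff₀ (by positivity) (by positivity)]
    have h5 : (p : ℝ) ^ ndist i j / (1 / 65536) = 65536 * (p : ℝ) ^ ndist i j := by
      rw [one_div, div_inv_eq_mul, mul_comm]
    rw [h5]
    linarith
  have hq4x : ∀ i ∈ range n, q4 (x i) ≤ 1 := by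
    intro i hi
    have h1 : x i ≤ 1 := by
      rw [← hsumx]
      exact Finset.single_le_sum (f := x) (fun j _ => hx0 j) hi
    have h2 : q4 (x i) ^ 4 ≤ 1 ^ 4 := by rw [q4_pow (hx0 i)]; simpa using h1
    exact le_of_pow_le_pow_left₀ (by norm_num) (by norm_num) h2
  have hq4y : ∀ i ∈ range n, q4 (y i) ≤ 1 := by
    intro i hi
    have h1 : y i ≤ 1 := by
      rw [← hsumy]
      exact Finset.single_le_sum (f := y) (fun j _ => hy0 j) hi
    have h2 : q4 (y i) ^ 4 ≤ 1 ^ 4 := by rw [q4_pow (hy0 i)]; simpa using h1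
    exact le_of_pow_le_pow_left₀ (by norm_num) (by norm_num) h2
  have hX6 : ∑ i ∈ range n, q4 (x i) ^ 6 ≤ 1 := by
    rw [← hsumx]
    refine Finset.sum_le_sum fun i hi => ?_
    calc q4 (x i) ^ 6 ≤ q4 (x i) ^ 4 := pow_le_pow_of_le_one (q4_nonneg _) (hq4x i hi) (by norm_num)
      _ = x i := q4_pow (hx0 i)
  have hY6 : ∑ i ∈ range n, q4 (y i) ^ 6 ≤ 1 := by
    rw [← hsumy]
    refine Finset.sum_le_sum fun i hi => ?_
    calc q4 (y i) ^ 6 ≤ q4 (y i) ^ 4 := pow_le_pow_of_le_one (q4_nonneg _) (hq4y i hi) (by norm_num)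
      _ = y i := q4_pow (hy0 i)
  have hs := schur (rp p) hrp0 hr1 n (fun _ => True) (fun i => q4 (x i)) (fun i => q4 (y i))
  simp only [Finset.filter_true] at hs
  have hratio : 2 * rp p / (1 - rp p) ≤ 12 := by
    rw [div_le_iff₀ (by linarith)]
    linarith
  have hoff : ∑ i ∈ range n, ∑ j ∈ (range n).filter (fun j => i ≠ j),
      rp p ^ (ndist i j) * (q4 (x i) ^ 3 * q4 (y j) ^ 3) ≤ 12 := by
    refine hs.trans ?_
    have h1 : (∑ i ∈ range n, q4 (x i) ^ 6 + ∑ j ∈ range n, q4 (y j) ^ 6) / 2 ≤ 1 := by linarith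
    have h2 : 0 ≤ 2 * rp p / (1 - rp p) := div_nonneg (by linarith) (by linarith)
    nlinarith
  have hdiag : ∑ i ∈ range n, q4 (x i) ^ 3 * q4 (y i) ^ 3 ≤ 1 := by
    calc ∑ i ∈ range n, q4 (x i) ^ 3 * q4 (y i) ^ 3 ≤
        ∑ i ∈ range n, (q4 (x i) ^ 6 + q4 (y i) ^ 6) / 2 :=
          Finset.sum_le_sum fun i _ => cube_mul_le _ _
      _ = (∑ i ∈ range n, q4 (x i) ^ 6 + ∑ i ∈ range n, q4 (y i) ^ 6) / 2 := by
          rw [← Finset.sum_div, Finset.sum_add_distrib]
      _ ≤ 1 := by linarith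
  have hall : ∑ i ∈ range n, ∑ j ∈ range n,
      rp p ^ (ndist i j) * (q4 (x i) ^ 3 * q4 (y j) ^ 3) ≤ 13 := by
    have hsplit : ∀ i ∈ range n, ∑ j ∈ range n, rp p ^ (ndist i j) * (q4 (x i) ^ 3 * q4 (y j) ^ 3) =
        q4 (x i) ^ 3 * q4 (y i) ^ 3 + ∑ j ∈ (range n).filter (fun j => i ≠ j),
          rp p ^ (ndist i j) * (q4 (x i) ^ 3 * q4 (y j) ^ 3) := by
      intro i hi
      have h := Finset.sum_filter_add_sum_filter_not (range n) (fun j => i = j)
        (fun j => rp p ^ (ndist i j) * (q4 (x i) ^ 3 * q4 (y j) ^ 3))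
      rw [← h]
      congr 1
      have : (range n).filter (fun j => i = j) = {i} := by
        ext j
        simp only [mem_filter, mem_singleton, mem_range] at hi ⊢
        constructor
        · rintro ⟨_, h⟩; exact h.symm
        · rintro rfl; exact ⟨hi, rfl⟩
      rw [this, Finset.sum_singleton, ndist_self, pow_zero, one_mul]
    rw [Finset.sum_congr rfl hsplit, Finset.sum_add_distrib]
    linarith
  have hfin : (1 : ℝ) ≤ 13 / 16 := by
    calc (1 : ℝ) = ∑ i ∈ range n, ∑ j ∈ range n, eW E μ ν (res p A i) (res p B j) / e := htot.symm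
      _ ≤ ∑ i ∈ range n, ∑ j ∈ range n,
          1 / 16 * rp p ^ (ndist i j) * (q4 (x i) ^ 3 * q4 (y j) ^ 3) :=
          Finset.sum_le_sum fun i _ => Finset.sum_le_sum fun j _ => hbd i j
      _ = 1 / 16 * ∑ i ∈ range n, ∑ j ∈ range n,
          rp p ^ (ndist i j) * (q4 (x i) ^ 3 * q4 (y j) ^ 3) := by
          rw [Finset.mul_sum]
          refine Finset.sum_congr rfl fun i _ => ?_
          rw [Finset.mul_sum]
          refine Finset.sum_congr rfl fun j _ => ?_
          ring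
      _ ≤ 1 / 16 * 13 := mul_le_mul_of_nonneg_left hall (by norm_num)
      _ = 13 / 16 := by norm_num
  norm_num at hfin

end

end Pool.Agent.Helper69.DS
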