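import Mathlib
import Pool.Agent.Helper69.DS.KMStep

set_option autoImplicit false

open Finset

namespace Pool.Agent.Helper69.DS

/-- maximal valuation -/
def fv (A : Finset ℕ) (p : ℕ) : ℕ := A.sup (fun v => v.factorization p)

lemma fv_eq_of_const {A : Finset ℕ} {p i : ℕ} (hA : A.Nonempty)
    (h : ∀ v ∈ A, v.factorization p = i) : fv A p = i := by
  obtain ⟨a, ha⟩ := hA
  unfold fv
  apply le_antisymm
  · exact Finset.sup_le fun v hv => (h v hv).le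
  · rw [← h a ha]
    exact Finset.le_sup (f := fun v => v.factorization p) ha

/-- local weights -/
noncomputable def cc (R : ℝ) (p0 p i j : ℕ) : ℝ :=
  if p ≤ p0 then 65536 * (p : ℝ) ^ (ndist i j) else if i = j then 1 else (p : ℝ) ^ (ndist i j) / R

lemma cc_pos {R : ℝ} (hR : 0 < R) (p0 : ℕ) {p : ℕ} (hp : 0 < p) (i j : ℕ) : 0 < cc R p0 p i j := by
  have : (0 : ℝ) < p := by exact_mod_cast hp
  unfold cc
  split_ifs <;> positivity

/-- quality -/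
noncomputable def qual (R : ℝ) (p0 : ℕ) (E : Finset (ℕ × ℕ)) (μ ν : ℕ → ℝ) (A B P : Finset ℕ) : ℝ :=
  eW E μ ν A B ^ 4 / ((∑ v ∈ A, μ v) * (∑ w ∈ B, ν w)) ^ 3 * ∏ p ∈ P, cc R p0 p (fv A p) (fv B p)

/-- validity -/
def Valid (E : Finset (ℕ × ℕ)) (μ ν : ℕ → ℝ) (A B P : Finset ℕ) : Prop :=
  (∀ p ∈ P, ∀ v ∈ A, v.factorization p = fv A p) ∧
      (∀ p ∈ P, ∀ w ∈ B, w.factorization p = fv B p) ∧
      0 < eW E μ ν A B

lemma exists_max_config (R : ℝ) (p0 : ℕ) (E : Finset (ℕ × ℕ)) (μ ν : ℕ → ℝ)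
    (V W PP : Finset ℕ) (he : 0 < eW E μ ν V W) :
    ∃ A B P : Finset ℕ, A ⊆ V ∧ B ⊆ W ∧ P ⊆ PP ∧ Valid E μ ν A B P ∧
      ∀ A2 B2 P2 : Finset ℕ, A2 ⊆ V → B2 ⊆ W → P2 ⊆ PP → Valid E μ ν A2 B2 P2 →
        qual R p0 E μ ν A2 B2 P2 ≤ qual R p0 E μ ν A B P := by
  classical
  set S : Finset (Finset ℕ × Finset ℕ × Finset ℕ) :=
    (V.powerset ×ˢ (W.powerset ×ˢ PP.powerset)).filter (fun x =>
      Valid E μ ν x.1 x.2.1 x.2.2) with hS
  have hmem : ∀ A B P : Finset ℕ, (A, B, P) ∈ S ↔ (A ⊆ V ∧ B ⊆ W ∧ P ⊆ PP) ∧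
      Valid E μ ν A B P := by
    intro A B P
    rw [hS, Finset.mem_filter, Finset.mem_product, Finset.mem_product, Finset.mem_powerset,
      Finset.mem_powerset, Finset.mem_powerset]
  have hS0 : (V, W, ∅) ∈ S := by
    rw [hmem]
    refine ⟨⟨subset_rfl, subset_rfl, Finset.empty_subset _⟩, ?_, ?_, he⟩ <;>
    · intro p hp
      simp at hp
  obtain ⟨⟨A, B, P⟩, hABP, hmax⟩ := Finset.exists_max_image S
    (fun x => qual R p0 E μ ν x.1 x.2.1 x.2.2) ⟨_, hS0⟩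
  rw [hmem] at hABP
  refine ⟨A, B, P, hABP.1.1, hABP.1.2.1, hABP.1.2.2, hABP.2, ?_⟩
  intro A2 B2 P2 h1 h2 h3 h4
  exact hmax (A2, B2, P2) ((hmem A2 B2 P2).mpr ⟨⟨h1, h2, h3⟩, h4⟩)


lemma nonempty_of_eW_pos {E : Finset (ℕ × ℕ)} {μ ν : ℕ → ℝ} {A B : Finset ℕ}
    (h : 0 < eW E μ ν A B) : A.Nonempty ∧ B.Nonempty := by
  constructor
  · rw [Finset.nonempty_iff_ne_empty]
    intro h0
    rw [h0] at h
    unfold eW at h
    simp at h
  · rw [Finset.nonempty_iff_ne_empty]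
    intro h0
    rw [h0] at h
    unfold eW at h
    simp at h

section

variable (R : ℝ) (hR : 1 ≤ R) (p0 : ℕ) (E : Finset (ℕ × ℕ)) (μ ν : ℕ → ℝ)
    (V W PP : Finset ℕ) (hPP : ∀ p ∈ PP, Nat.Prime p)
    (hμ : ∀ v ∈ V, 0 < μ v) (hν : ∀ w ∈ W, 0 < ν w)
    (A B P : Finset ℕ) (hAV : A ⊆ V) (hBW : B ⊆ W) (hPP' : P ⊆ PP)
    (hval : Valid E μ ν A B P)
    (hmax : ∀ A2 B2 P2 : Finset ℕ, A2 ⊆ V → B2 ⊆ W → P2 ⊆ PP → Valid E μ ν A2 B2 P2 →
        qual R p0 E μ ν A2 B2 P2 ≤ qual R p0 E μ ν A B P)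

include hval in
lemma prod_cc_eq (A2 B2 : Finset ℕ) (hA2 : A2 ⊆ A) (hB2 : B2 ⊆ B) (hA2n : A2.Nonempty)
    (hB2n : B2.Nonempty) :
    ∏ p ∈ P, cc R p0 p (fv A2 p) (fv B2 p) = ∏ p ∈ P, cc R p0 p (fv A p) (fv B p) := by
  obtain ⟨hcA, hcB, hpos⟩ := hval
  refine Finset.prod_congr rfl fun p hp => ?_
  rw [fv_eq_of_const hA2n (fun v hv => hcA p hp v (hA2 hv)),
    fv_eq_of_const hB2n (fun v hv => hcB p hp v (hB2 hv))]

include hR hPP hμ hν hAV hBW hPP' hval hmax in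
lemma max_sub_ineq (A2 B2 : Finset ℕ) (hA2 : A2 ⊆ A) (hB2 : B2 ⊆ B) :
    eW E μ ν A2 B2 ^ 4 * ((∑ v ∈ A, μ v) * (∑ w ∈ B, ν w)) ^ 3 ≤
      eW E μ ν A B ^ 4 * ((∑ v ∈ A2, μ v) * (∑ w ∈ B2, ν w)) ^ 3 := by
  have hR0 : 0 < R := by linarith
  have hpos := hval.2.2
  have hμA : ∀ v ∈ A, 0 < μ v := fun v hv => hμ v (hAV hv)
  have hνB : ∀ w ∈ B, 0 < ν w := fun w hw => hν w (hBW hw)
  have hXY : 0 < (∑ v ∈ A, μ v) * (∑ w ∈ B, ν w) :=
    hpos.trans_le (eW_le E μ ν A B (fun v hv => (hμA v hv).le) (fun w hw => (hνB w hw).le))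
  have hprodpos : 0 < ∏ p ∈ P, cc R p0 p (fv A p) (fv B p) :=
    Finset.prod_pos fun p hp => cc_pos hR0 p0 (hPP p (hPP' hp)).pos _ _
  have h0 : 0 ≤ eW E μ ν A2 B2 := eW_nonneg E μ ν A2 B2 (fun v hv => (hμA v (hA2 hv)).le)
    (fun w hw => (hνB w (hB2 hw)).le)
  have hle := eW_le E μ ν A2 B2 (fun v hv => (hμA v (hA2 hv)).le)
    (fun w hw => (hνB w (hB2 hw)).le)
  rcases eq_or_lt_of_le h0 with h | h
  · have h4 : eW E μ ν A2 B2 ^ 4 = 0 := by rw [← h]; norm_num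
    rw [h4, zero_mul]
    have : 0 ≤ (∑ v ∈ A2, μ v) * (∑ w ∈ B2, ν w) := h0.trans hle
    positivity
  · obtain ⟨hA2n, hB2n⟩ := nonempty_of_eW_pos h
    have hspos : 0 < (∑ v ∈ A2, μ v) * (∑ w ∈ B2, ν w) := h.trans_le hle
    have hv2 : Valid E μ ν A2 B2 P := by
      refine ⟨?_, ?_, h⟩
      · intro p hp v hv
        rw [fv_eq_of_const hA2n (fun v hv => hval.1 p hp v (hA2 hv))]
        exact hval.1 p hp v (hA2 hv)
      · intro p hp v hv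
        rw [fv_eq_of_const hB2n (fun v hv => hval.2.1 p hp v (hB2 hv))]
        exact hval.2.1 p hp v (hB2 hv)
    have hm := hmax A2 B2 P (hA2.trans hAV) (hB2.trans hBW) hPP' hv2
    unfold qual at hm
    rw [prod_cc_eq R p0 E μ ν A B P hval A2 B2 hA2 hB2 hA2n hB2n] at hm
    have hm2 := le_of_mul_le_mul_right hm hprodpos
    rw [div_le_div_iff₀ (by positivity) (by positivity)] at hm2
    exact hm2

include hR hPP hμ hν hAV hBW hPP' hval hmax in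
lemma max_res_ineq (p : ℕ) (hp : p ∈ PP) (hpP : p ∉ P) (i j : ℕ) :
    eW E μ ν (res p A i) (res p B j) ^ 4 * cc R p0 p i j *
          ((∑ v ∈ A, μ v) * (∑ w ∈ B, ν w)) ^ 3 ≤
        eW E μ ν A B ^ 4 * ((∑ v ∈ res p A i, μ v) * (∑ w ∈ res p B j, ν w)) ^ 3 := by
  classical
  have hR0 : 0 < R := by linarith
  have hpos := hval.2.2
  have hμA : ∀ v ∈ A, 0 < μ v := fun v hv => hμ v (hAV hv)
  have hνB : ∀ w ∈ B, 0 < ν w := fun w hw => hν w (hBW hw)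
  have hXY : 0 < (∑ v ∈ A, μ v) * (∑ w ∈ B, ν w) :=
    hpos.trans_le (eW_le E μ ν A B (fun v hv => (hμA v hv).le) (fun w hw => (hνB w hw).le))
  have hprodpos : 0 < ∏ p ∈ P, cc R p0 p (fv A p) (fv B p) :=
    Finset.prod_pos fun p hp => cc_pos hR0 p0 (hPP p (hPP' hp)).pos _ _
  have hA2 : res p A i ⊆ A := Finset.filter_subset _ _
  have hB2 : res p B j ⊆ B := Finset.filter_subset _ _
  have hccpos := cc_pos hR0 p0 (hPP p hp).pos i j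
  have h0 : 0 ≤ eW E μ ν (res p A i) (res p B j) :=
    eW_nonneg E μ ν _ _ (fun v hv => (hμA v (hA2 hv)).le) (fun w hw => (hνB w (hB2 hw)).le)
  have hle := eW_le E μ ν (res p A i) (res p B j) (fun v hv => (hμA v (hA2 hv)).le)
    (fun w hw => (hνB w (hB2 hw)).le)
  rcases eq_or_lt_of_le h0 with h | h
  · have h4 : eW E μ ν (res p A i) (res p B j) ^ 4 = 0 := by rw [← h]; norm_num
    rw [h4, zero_mul, zero_mul]
    have : 0 ≤ (∑ v ∈ res p A i, μ v) * (∑ w ∈ res p B j, ν w) := h0.trans hle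
    positivity
  · obtain ⟨hA2n, hB2n⟩ := nonempty_of_eW_pos h
    have hspos : 0 < (∑ v ∈ res p A i, μ v) * (∑ w ∈ res p B j, ν w) := h.trans_le hle
    have hfA : fv (res p A i) p = i :=
      fv_eq_of_const hA2n (fun v hv => (Finset.mem_filter.mp hv).2)
    have hfB : fv (res p B j) p = j :=
      fv_eq_of_const hB2n (fun v hv => (Finset.mem_filter.mp hv).2)
    have hv2 : Valid E μ ν (res p A i) (res p B j) (insert p P) := by
      refine ⟨?_, ?_, h⟩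
      · intro q hq v hv
        rcases Finset.mem_insert.mp hq with h1 | h1
        · rw [h1, hfA]
          exact (Finset.mem_filter.mp hv).2
        · rw [fv_eq_of_const hA2n (fun v hv => hval.1 q h1 v (hA2 hv))]
          exact hval.1 q h1 v (hA2 hv)
      · intro q hq v hv
        rcases Finset.mem_insert.mp hq with h1 | h1
        · rw [h1, hfB]
          exact (Finset.mem_filter.mp hv).2
        · rw [fv_eq_of_const hB2n (fun v hv => hval.2.1 q h1 v (hB2 hv))]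
          exact hval.2.1 q h1 v (hB2 hv)
    have hm := hmax (res p A i) (res p B j) (insert p P) (hA2.trans hAV) (hB2.trans hBW)
      (Finset.insert_subset hp hPP') hv2
    unfold qual at hm
    rw [Finset.prod_insert hpP, prod_cc_eq R p0 E μ ν A B P hval _ _ hA2 hB2 hA2n hB2n, hfA, hfB,
      ← mul_assoc] at hm
    have hm2 := le_of_mul_le_mul_right hm hprodpos
    rw [div_mul_eq_mul_div, div_le_div_iff₀ (by positivity) (by positivity)] at hm2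
    exact hm2

end

/-- Bound for structured graphs. -/
lemma struct_bound (P Q : Finset ℕ) (hP : ∀ p ∈ P, Nat.Prime p) (hQ : ∀ p ∈ Q, Nat.Prime p)
    (hPQ : Disjoint P Q) (f g k : ℕ → ℕ) (A B : Finset ℕ) (E : Finset (ℕ × ℕ)) (μ ν ψ θ : ℕ → ℝ)
    (hA : ∀ v ∈ A, v ≠ 0) (hB : ∀ w ∈ B, w ≠ 0)
    (hApf : ∀ v ∈ A, v.primeFactors ⊆ P ∪ Q) (hBpf : ∀ w ∈ B, w.primeFactors ⊆ P ∪ Q)
    (hAf : ∀ v ∈ A, ∀ p ∈ P, v.factorization p = f p)
    (hBg : ∀ w ∈ B, ∀ p ∈ P, w.factorization p = g p)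
    (hμ : ∀ v ∈ A, 0 < μ v) (hν : ∀ w ∈ B, 0 < ν w)
    (hμψ : ∀ v ∈ A, μ v ≤ ψ v * phr v) (hνθ : ∀ w ∈ B, ν w ≤ θ w * phr w)
    (hk : ∀ x ∈ E, ∀ p ∈ Q, x.1.factorization p = k p ∨ x.2.factorization p = k p)
    (hD1 : ∀ x ∈ E, (x.2 : ℝ) * ψ x.1 ≤ Nat.gcd x.1 x.2)
    (hD2 : ∀ x ∈ E, (x.1 : ℝ) * θ x.2 ≤ Nat.gcd x.1 x.2) :
    eW E μ ν A B ^ 4 * ((∏ p ∈ P, p ^ (ndist (f p) (g p)) : ℕ) : ℝ) ≤
      16 / 9 * ((∑ v ∈ A, μ v) * (∑ w ∈ B, ν w)) ^ 3 := by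
  have h0 : 0 ≤ eW E μ ν A B := eW_nonneg E μ ν A B (fun v hv => (hμ v hv).le)
    (fun w hw => (hν w hw).le)
  have hle := eW_le E μ ν A B (fun v hv => (hμ v hv).le) (fun w hw => (hν w hw).le)
  rcases eq_or_lt_of_le h0 with h | h
  · rw [← h] at hle ⊢
    have : (0 : ℝ) ^ 4 = 0 := by norm_num
    rw [this, zero_mul]
    positivity
  · obtain ⟨A2, B2, hA2, hB2, hpos, hA2n, hB2n, hq, hdA, hdB⟩ := max_sub A B E μ ν hμ hν h
    have hμ2 : ∀ v ∈ A2, 0 < μ v := fun v hv => hμ v (hA2 hv)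
    have hν2 : ∀ w ∈ B2, 0 < ν w := fun w hw => hν w (hB2 hw)
    have hle2 := eW_le E μ ν A2 B2 (fun v hv => (hμ2 v hv).le) (fun w hw => (hν2 w hw).le)
    have hXY2 : 0 < (∑ v ∈ A2, μ v) * (∑ w ∈ B2, ν w) := hpos.trans_le hle2
    have hXY : 0 < (∑ v ∈ A, μ v) * (∑ w ∈ B, ν w) := h.trans_le hle
    have hfin := final_bound P Q hP hQ hPQ f g k A2 B2 E μ ν ψ θ (fun v hv => hA v (hA2 hv))
      (fun w hw => hB w (hB2 hw)) (fun v hv => hApf v (hA2 hv)) (fun w hw => hBpf w (hB2 hw))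
      (fun v hv => hAf v (hA2 hv)) (fun w hw => hBg w (hB2 hw)) hμ2 hν2
      (fun v hv => hμψ v (hA2 hv)) (fun w hw => hνθ w (hB2 hw)) hk hD1 hD2
      (3 / 4 * eW E μ ν A2 B2 / ((∑ v ∈ A2, μ v) * (∑ w ∈ B2, ν w))) (by positivity) hdA hdB hA2n hB2n
    set Z := (∑ v ∈ A2, μ v) * (∑ w ∈ B2, ν w) with hZ
    set Pi := ((∏ p ∈ P, p ^ (ndist (f p) (g p)) : ℕ) : ℝ) with hPi
    set e2 := eW E μ ν A2 B2 with he2
    have hPi0 : 0 < Pi := by rw [hPi]; exact_mod_cast prod_pow_pos hP _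
    have h1 : e2 ^ 2 / Z * Pi ≤ 16 / 9 := by
      have h2 : (3 / 4 * e2 / Z) ^ 2 * Z * Pi = 9 / 16 * (e2 ^ 2 / Z * Pi) := by
        field_simp
        ring
      rw [h2] at hfin
      linarith
    have h3 : e2 ^ 4 / Z ^ 3 * Pi ≤ 16 / 9 := by
      have h4 : e2 ^ 4 / Z ^ 3 * Pi = (e2 ^ 2 / Z * Pi) * (e2 / Z) ^ 2 := by
        field_simp
      have h5 : (e2 / Z) ^ 2 ≤ 1 := by
        apply pow_le_one₀ (by positivity)
        rw [div_le_one hXY2]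
        exact hle2
      rw [h4]
      have h6 : 0 ≤ e2 ^ 2 / Z * Pi := by positivity
      nlinarith
    have h7 : eW E μ ν A B ^ 4 / ((∑ v ∈ A, μ v) * (∑ w ∈ B, ν w)) ^ 3 * Pi ≤ 16 / 9 :=
      (mul_le_mul_of_nonneg_right hq hPi0.le).trans h3
    rw [div_mul_eq_mul_div, div_le_iff₀ (by positivity)] at h7
    exact h7

end Pool.Agent.Helper69.DS
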