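import Mathlib
import Pool.Agent.Helper69.DS.KMMax

set_option autoImplicit false

open Finset

namespace Pool.Agent.Helper69.DS

lemma km_core (R : ℝ) (hR : 1 ≤ R) (p0 : ℕ) (hp0 : 16 ≤ p0)
    (heta : ∀ p : ℕ, p0 < p → eta R p ≤ 1 / 256)
    (hsix : ∀ S : Finset ℕ, (∀ p ∈ S, p0 < p) → ∑ p ∈ S, 128 * eta R p ^ 6 ≤ 1 / 4)
    (E : Finset (ℕ × ℕ)) (μ ν ψ θ : ℕ → ℝ)
    (V W PP : Finset ℕ) (hPP : ∀ p ∈ PP, Nat.Prime p)
    (hμ : ∀ v ∈ V, 0 < μ v) (hν : ∀ w ∈ W, 0 < ν w)
    (A B P : Finset ℕ) (hAV : A ⊆ V) (hBW : B ⊆ W) (hPP' : P ⊆ PP)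
    (hval : Valid E μ ν A B P)
    (hmax : ∀ A2 B2 P2 : Finset ℕ, A2 ⊆ V → B2 ⊆ W → P2 ⊆ PP → Valid E μ ν A2 B2 P2 →
        qual R p0 E μ ν A2 B2 P2 ≤ qual R p0 E μ ν A B P)
    (n : ℕ) (hnV : ∀ v ∈ V, ∀ p, v.factorization p < n) (hnW : ∀ v ∈ W, ∀ p, v.factorization p < n)
    (hV0 : ∀ v ∈ V, v ≠ 0) (hW0 : ∀ w ∈ W, w ≠ 0)
    (hVpf : ∀ v ∈ V, v.primeFactors ⊆ PP) (hWpf : ∀ v ∈ W, v.primeFactors ⊆ PP)
    (hμψ : ∀ v ∈ V, μ v ≤ ψ v * phr v) (hνθ : ∀ w ∈ W, ν w ≤ θ w * phr w)
    (hD1 : ∀ x ∈ E, (x.2 : ℝ) * ψ x.1 ≤ Nat.gcd x.1 x.2)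
    (hD2 : ∀ x ∈ E, (x.1 : ℝ) * θ x.2 ≤ Nat.gcd x.1 x.2) :
    (∀ p ∈ PP \ P, p0 < p) ∧
    (eW E μ ν A B ^ 4 * ((∏ p ∈ P, p ^ (ndist (fv A p) (fv B p)) : ℕ) : ℝ) ≤
      6 * ((∑ v ∈ A, μ v) * (∑ w ∈ B, ν w)) ^ 3) ∧
    (∀ p ∈ PP \ P, ∑ x ∈ (E.filter (fun x => x.1 ∈ A ∧ x.2 ∈ B)).filter
        (fun x => x.1.factorization p ≠ x.2.factorization p), μ x.1 * ν x.2
        ≤ 17 * eta R p ^ 4 * eW E μ ν A B) := by
  classical
  have hpos := hval.2.2
  have hμA : ∀ v ∈ A, 0 < μ v := fun v hv => hμ v (hAV hv)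
  have hνB : ∀ w ∈ B, 0 < ν w := fun w hw => hν w (hBW hw)
  have hlarge : ∀ p ∈ PP \ P, p0 < p := by
    intro p hp
    rw [Finset.mem_sdiff] at hp
    by_contra hcon
    push Not at hcon
    refine small_false E μ ν A B p n hμA hνB hpos (fun v hv => hnV v (hAV hv) p)
      (fun v hv => hnW v (hBW hv) p) (hPP p hp.1).two_le ?_
    intro i j
    have h := max_res_ineq R hR p0 E μ ν V W PP hPP hμ hν A B P hAV hBW hPP' hval hmax p hp.1 hp.2 i j
    unfold cc at h
    rw [if_pos hcon] at h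
    exact h
  have hconc : ∀ p ∈ PP \ P, ∃ k : ℕ,
      (∑ x ∈ (E.filter (fun x => x.1 ∈ A ∧ x.2 ∈ B)).filter
        (fun x => x.1.factorization p ≠ k ∧ x.2.factorization p ≠ k), μ x.1 * ν x.2
        ≤ 128 * eta R p ^ 6 * eW E μ ν A B) ∧
      (∑ x ∈ (E.filter (fun x => x.1 ∈ A ∧ x.2 ∈ B)).filter
        (fun x => x.1.factorization p ≠ x.2.factorization p), μ x.1 * ν x.2
        ≤ 17 * eta R p ^ 4 * eW E μ ν A B) := by
    intro p hp
    have hpl := hlarge p hp
    rw [Finset.mem_sdiff] at hp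
    have hmr := max_res_ineq R hR p0 E μ ν V W PP hPP hμ hν A B P hAV hBW hPP' hval hmax p hp.1 hp.2
    have hms := max_sub_ineq R hR p0 E μ ν V W PP hPP hμ hν A B P hAV hBW hPP' hval hmax
    refine conc_edges E μ ν A B p n hμA hνB hpos (fun v hv => hnV v (hAV hv) p)
      (fun v hv => hnW v (hBW hv) p) R hR (by omega) (heta p hpl) ?_ ?_ ?_ ?_
    · intro i j hij
      have h := hmr i j
      unfold cc at h
      rw [if_neg (by omega), if_neg hij] at h
      exact h
    · intro i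
      have h := hmr i i
      unfold cc at h
      rw [if_neg (by omega), if_pos rfl, mul_one] at h
      exact h
    · intro i
      exact hms _ _ (Finset.filter_subset _ _) subset_rfl
    · intro j
      exact hms _ _ subset_rfl (Finset.filter_subset _ _)
  refine ⟨hlarge, ?_, fun p hp => (hconc p hp).choose_spec.2⟩
  choose! k hk using hconc
  set Q := PP \ P with hQ
  set E' := E.filter (fun x => x.1 ∈ A ∧ x.2 ∈ B) with hE'
  set E1 := E'.filter (fun x => ∀ p ∈ Q, x.1.factorization p = k p ∨ x.2.factorization p = k p) with hE1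
  set e := eW E μ ν A B with he
  have hw0 : ∀ x ∈ E', 0 ≤ μ x.1 * ν x.2 := fun x hx =>
    mul_nonneg (hμA _ (Finset.mem_filter.mp hx).2.1).le (hνB _ (Finset.mem_filter.mp hx).2.2).le
  have hbad : ∑ x ∈ E'.filter (fun x => ¬ ∀ p ∈ Q, x.1.factorization p = k p ∨ x.2.factorization p = k p),
      μ x.1 * ν x.2 ≤ 1 / 4 * e := by
    calc ∑ x ∈ E'.filter (fun x => ¬ ∀ p ∈ Q, x.1.factorization p = k p ∨ x.2.factorization p = k p),
        μ x.1 * ν x.2
        ≤ ∑ x ∈ E', ∑ p ∈ Q, (if x.1.factorization p ≠ k p ∧ x.2.factorization p ≠ k p then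
            μ x.1 * ν x.2 else 0) := by
          rw [Finset.sum_filter]
          refine Finset.sum_le_sum fun x hx => ?_
          have hnn : ∀ p ∈ Q, 0 ≤ (if x.1.factorization p ≠ k p ∧ x.2.factorization p ≠ k p then
            μ x.1 * ν x.2 else 0) := by
            intro p _
            split_ifs
            · exact hw0 x hx
            · exact le_rfl
          split_ifs with h
          · exact Finset.sum_nonneg hnn
          · push Not at h
            obtain ⟨p, hp, h1, h2⟩ := h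
            have h3 := Finset.single_le_sum hnn hp
            rw [if_pos ⟨h1, h2⟩] at h3
            exact h3
      _ = ∑ p ∈ Q, ∑ x ∈ E'.filter (fun x => x.1.factorization p ≠ k p ∧ x.2.factorization p ≠ k p),
            μ x.1 * ν x.2 := by
          rw [Finset.sum_comm]
          refine Finset.sum_congr rfl fun p _ => ?_
          exact (Finset.sum_filter _ _).symm
      _ ≤ ∑ p ∈ Q, 128 * eta R p ^ 6 * e := Finset.sum_le_sum fun p hp => (hk p hp).1
      _ = (∑ p ∈ Q, 128 * eta R p ^ 6) * e := by rw [Finset.sum_mul]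
      _ ≤ 1 / 4 * e := mul_le_mul_of_nonneg_right (hsix Q hlarge) hpos.le
  have hE1sum : 3 / 4 * e ≤ eW E1 μ ν A B := by
    have h1 := Finset.sum_filter_add_sum_filter_not E'
      (fun x => ∀ p ∈ Q, x.1.factorization p = k p ∨ x.2.factorization p = k p)
      (fun x => μ x.1 * ν x.2)
    have h2 : eW E1 μ ν A B = ∑ x ∈ E1, μ x.1 * ν x.2 := by
      unfold eW
      congr 1
      rw [Finset.filter_eq_self]
      intro x hx
      have := (Finset.mem_filter.mp hx).1
      exact (Finset.mem_filter.mp this).2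
    have h3 : e = ∑ x ∈ E', μ x.1 * ν x.2 := rfl
    rw [h2, hE1]
    linarith
  have hstruct := struct_bound P Q (fun p hp => hPP p (hPP' hp))
    (fun p hp => hPP p (Finset.mem_sdiff.mp hp).1) (Finset.disjoint_sdiff) (fv A) (fv B) k A B E1
    μ ν ψ θ (fun v hv => hV0 v (hAV hv)) (fun w hw => hW0 w (hBW hw))
    (fun v hv => by
      rw [hQ, Finset.union_sdiff_of_subset hPP']
      exact hVpf v (hAV hv))
    (fun v hv => by
      rw [hQ, Finset.union_sdiff_of_subset hPP']
      exact hWpf v (hBW hv))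
    (fun v hv p hp => hval.1 p hp v hv) (fun w hw p hp => hval.2.1 p hp w hw) hμA hνB
    (fun v hv => hμψ v (hAV hv)) (fun w hw => hνθ w (hBW hw))
    (fun x hx p hp => (Finset.mem_filter.mp hx).2 p hp)
    (fun x hx => hD1 x (Finset.mem_filter.mp (Finset.mem_filter.mp hx).1).1)
    (fun x hx => hD2 x (Finset.mem_filter.mp (Finset.mem_filter.mp hx).1).1)
  have h4 : (3 / 4 * e) ^ 4 ≤ eW E1 μ ν A B ^ 4 := pow_le_pow_left₀ (by positivity) hE1sum 4
  have hXY0 : 0 ≤ ((∑ v ∈ A, μ v) * (∑ w ∈ B, ν w)) ^ 3 := by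
    have h1 : 0 ≤ ∑ v ∈ A, μ v := Finset.sum_nonneg fun v hv => (hμA v hv).le
    have h2 : 0 ≤ ∑ w ∈ B, ν w := Finset.sum_nonneg fun v hv => (hνB v hv).le
    positivity
  set Pi := ((∏ p ∈ P, p ^ (ndist (fv A p) (fv B p)) : ℕ) : ℝ) with hPi
  have hPi0 : 0 ≤ Pi := by positivity
  have h5 : (3 / 4 * e) ^ 4 * Pi ≤ 16 / 9 * ((∑ v ∈ A, μ v) * (∑ w ∈ B, ν w)) ^ 3 :=
    (mul_le_mul_of_nonneg_right h4 hPi0).trans hstruct
  have h6 : (3 / 4 * e) ^ 4 * Pi = 81 / 256 * (e ^ 4 * Pi) := by ring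
  rw [h6] at h5
  linarith

/-- The quantitative bilinear Koukoulopoulos–Maynard bound. -/
theorem km (R : ℝ) (hR : 1 ≤ R) : ∃ C : ℝ, 0 < C ∧
    ∀ (V W : Finset ℕ) (E : Finset (ℕ × ℕ)) (μ ν ψ θ : ℕ → ℝ) (t : ℕ) (σ : ℝ),
      (∀ v ∈ V, v ≠ 0) → (∀ w ∈ W, w ≠ 0) → (∀ x ∈ E, x.1 ∈ V ∧ x.2 ∈ W) →
      (∀ v ∈ V, 0 ≤ μ v) → (∀ w ∈ W, 0 ≤ ν w) →
      (∀ v ∈ V, μ v ≤ ψ v * phr v) → (∀ w ∈ W, ν w ≤ θ w * phr w) →
      (∀ x ∈ E, (x.2 : ℝ) * ψ x.1 ≤ Nat.gcd x.1 x.2) →
      (∀ x ∈ E, (x.1 : ℝ) * θ x.2 ≤ Nat.gcd x.1 x.2) →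
      0 ≤ σ → σ ≤ 1 →
      (∀ x ∈ E, σ ≤ ∑ p ∈ (x.1 * x.2).primeFactors.filter
        (fun p => t < p ∧ x.1.factorization p ≠ x.2.factorization p), (1 : ℝ) / p) →
      (∑ x ∈ E, μ x.1 * ν x.2) ^ 4 ≤
        C * R ^ (-(σ * t / 2)) * ((∑ v ∈ V, μ v) * (∑ w ∈ W, ν w)) ^ 3 := by
  classical
  obtain ⟨p0, hp0, heta, hsix⟩ := exists_p0 R hR
  have hR0 : 0 < R := by linarith
  refine ⟨6 * 65536 ^ (p0 + 1) * R ^ ((p0 : ℝ) + 4352 * R), by positivity, ?_⟩
  intro V W E μ ν ψ θ t σ hV hW hE hμ hν hμψ hνθ hD1 hD2 hσ0 hσ1 hanat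
  set V0 := V.filter (fun v => 0 < μ v) with hV0
  set W0 := W.filter (fun w => 0 < ν w) with hW0
  have hsumE : ∑ x ∈ E, μ x.1 * ν x.2 = eW E μ ν V0 W0 := by
    unfold eW
    rw [Finset.sum_filter]
    refine Finset.sum_congr rfl fun x hx => ?_
    split_ifs with h
    · rfl
    · by_cases h1 : 0 < μ x.1
      · by_cases h2 : 0 < ν x.2
        · exfalso
          apply h
          exact ⟨Finset.mem_filter.mpr ⟨(hE x hx).1, h1⟩, Finset.mem_filter.mpr ⟨(hE x hx).2, h2⟩⟩
        · have : ν x.2 = 0 := le_antisymm (not_lt.mp h2) (hν _ (hE x hx).2)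
          rw [this, mul_zero]
      · have : μ x.1 = 0 := le_antisymm (not_lt.mp h1) (hμ _ (hE x hx).1)
        rw [this, zero_mul]
  have hμV0 : ∀ v ∈ V0, 0 < μ v := fun v hv => (Finset.mem_filter.mp hv).2
  have hνW0 : ∀ v ∈ W0, 0 < ν v := fun v hv => (Finset.mem_filter.mp hv).2
  have hsV : ∑ v ∈ V0, μ v ≤ ∑ v ∈ V, μ v :=
    Finset.sum_le_sum_of_subset_of_nonneg (Finset.filter_subset _ _) (fun v hv _ => hμ v hv)
  have hsW : ∑ v ∈ W0, ν v ≤ ∑ v ∈ W, ν v :=
    Finset.sum_le_sum_of_subset_of_nonneg (Finset.filter_subset _ _) (fun v hv _ => hν v hv)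
  have hsV0 : 0 ≤ ∑ v ∈ V0, μ v := Finset.sum_nonneg fun v hv => (hμV0 v hv).le
  have hsW0 : 0 ≤ ∑ v ∈ W0, ν v := Finset.sum_nonneg fun v hv => (hνW0 v hv).le
  have hprodle : ((∑ v ∈ V0, μ v) * (∑ w ∈ W0, ν w)) ^ 3 ≤ ((∑ v ∈ V, μ v) * (∑ w ∈ W, ν w)) ^ 3 := by
    apply pow_le_pow_left₀ (mul_nonneg hsV0 hsW0)
    exact mul_le_mul hsV hsW hsW0 (hsV0.trans hsV)
  have heW0 := eW_nonneg E μ ν V0 W0 (fun v hv => (hμV0 v hv).le) (fun w hw => (hνW0 w hw).le)
  rw [hsumE]
  rcases eq_or_lt_of_le heW0 with h | hpos0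
  · rw [← h]
    have h1 : 0 ≤ (∑ v ∈ V, μ v) * (∑ w ∈ W, ν w) :=
      mul_nonneg (hsV0.trans hsV) (hsW0.trans hsW)
    have : (0 : ℝ) ^ 4 = 0 := by norm_num
    rw [this]
    positivity
  -- set-up
  set M := max ((V0 ∪ W0).sup id) p0 with hM
  set PP := (range (M + 1)).filter Nat.Prime with hPPdef
  have hPP : ∀ p ∈ PP, Nat.Prime p := fun p hp => (Finset.mem_filter.mp hp).2
  have hleM : ∀ v ∈ V0 ∪ W0, v ≤ M := fun v hv =>
    (Finset.le_sup (f := id) hv).trans (le_max_left _ _)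
  have hVne : ∀ v ∈ V0, v ≠ 0 := fun v hv => hV v (Finset.mem_filter.mp hv).1
  have hWne : ∀ v ∈ W0, v ≠ 0 := fun v hv => hW v (Finset.mem_filter.mp hv).1
  have hVM : ∀ v ∈ V0, v ≤ M := fun v hv => hleM v (Finset.mem_union_left _ hv)
  have hWM : ∀ v ∈ W0, v ≤ M := fun v hv => hleM v (Finset.mem_union_right _ hv)
  have hpf : ∀ v : ℕ, v ≠ 0 → v ≤ M → v.primeFactors ⊆ PP := by
    intro v hv hvM p hp
    rw [hPPdef, Finset.mem_filter, Finset.mem_range]
    exact ⟨by have := Nat.le_of_mem_primeFactors hp; omega, Nat.prime_of_mem_primeFactors hp⟩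
  have hfac : ∀ v : ℕ, v ≠ 0 → v ≤ M → ∀ p, v.factorization p < M + 1 := by
    intro v hv hvM p
    have := Nat.factorization_lt (p := p) hv
    omega
  obtain ⟨A, B, P, hAV, hBW, hPP', hval, hmax⟩ := exists_max_config R p0 E μ ν V0 W0 PP hpos0
  have hcore := km_core R hR p0 hp0 heta hsix E μ ν ψ θ V0 W0 PP hPP hμV0 hνW0 A B P hAV hBW hPP'
    hval hmax (M + 1) (fun v hv => hfac v (hVne v hv) (hVM v hv))
    (fun v hv => hfac v (hWne v hv) (hWM v hv)) hVne hWne
    (fun v hv => hpf v (hVne v hv) (hVM v hv)) (fun v hv => hpf v (hWne v hv) (hWM v hv))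
    (fun v hv => hμψ v (Finset.mem_filter.mp hv).1) (fun v hv => hνθ v (Finset.mem_filter.mp hv).1)
    hD1 hD2
  obtain ⟨hlarge, hstr, hoff⟩ := hcore
  have hpos := hval.2.2
  have hμA : ∀ v ∈ A, 0 < μ v := fun v hv => hμV0 v (hAV hv)
  have hνB : ∀ w ∈ B, 0 < ν w := fun w hw => hνW0 w (hBW hw)
  have hXY : 0 < (∑ v ∈ A, μ v) * (∑ w ∈ B, ν w) :=
    hpos.trans_le (eW_le E μ ν A B (fun v hv => (hμA v hv).le) (fun w hw => (hνB w hw).le))
  have hXY0 : 0 < (∑ v ∈ V0, μ v) * (∑ w ∈ W0, ν w) :=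
    hpos0.trans_le (eW_le E μ ν V0 W0 (fun v hv => (hμV0 v hv).le) (fun w hw => (hνW0 w hw).le))
  set N := (P.filter (fun p => p0 < p ∧ fv A p ≠ fv B p)).card with hN
  -- product bound
  have hprod : ∏ p ∈ P, cc R p0 p (fv A p) (fv B p) ≤
      ((∏ p ∈ P, p ^ (ndist (fv A p) (fv B p)) : ℕ) : ℝ) * (65536 ^ (p0 + 1) * (1 / R) ^ N) := by
    have h1 : ∏ p ∈ P, cc R p0 p (fv A p) (fv B p) =
        ∏ p ∈ P, ((p : ℝ) ^ (ndist (fv A p) (fv B p)) *
          ((if p ≤ p0 then 65536 else 1) * (if p0 < p ∧ fv A p ≠ fv B p then 1 / R else 1))) := by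
      refine Finset.prod_congr rfl fun p _ => ?_
      unfold cc
      by_cases h1 : p ≤ p0
      · rw [if_pos h1, if_pos h1, if_neg (by omega)]
        ring
      · rw [if_neg h1, if_neg h1]
        by_cases h2 : fv A p = fv B p
        · rw [if_pos h2, if_neg (by tauto), h2, ndist_self]
          ring
        · rw [if_neg h2, if_pos ⟨by omega, h2⟩]
          ring
    rw [h1, Finset.prod_mul_distrib, Finset.prod_mul_distrib]
    push_cast
    refine mul_le_mul_of_nonneg_left ?_ (by positivity)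
    have h2 : ∏ p ∈ P, (if p0 < p ∧ fv A p ≠ fv B p then 1 / R else 1) = (1 / R) ^ N := by
      rw [Finset.prod_ite, Finset.prod_const, Finset.prod_const_one, mul_one]
    have h3 : ∏ p ∈ P, (if p ≤ p0 then (65536 : ℝ) else 1) ≤ 65536 ^ (p0 + 1) := by
      rw [Finset.prod_ite, Finset.prod_const, Finset.prod_const_one, mul_one]
      apply pow_le_pow_right₀ (by norm_num)
      calc (P.filter (fun p => p ≤ p0)).card ≤ (range (p0 + 1)).card := by
            apply Finset.card_le_card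
            intro p hp
            rw [Finset.mem_range]
            have := (Finset.mem_filter.mp hp).2
            omega
        _ = p0 + 1 := Finset.card_range _
    rw [h2]
    exact mul_le_mul_of_nonneg_right h3 (by positivity)
  -- the anatomical gain
  have hgain : (1 / R) ^ N ≤ R ^ ((p0 : ℝ) + 4352 * R) * R ^ (-(σ * t / 2)) := by
    rw [← Real.rpow_add hR0]
    by_cases hcase : p0 ≤ t ∧ 2 * (4352 * R) ≤ σ * t
    · obtain ⟨ht, hσt⟩ := hcase
      have ht0 : 0 < t := by omega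
      have htR : (0 : ℝ) < t := by exact_mod_cast ht0
      set Q := PP \ P with hQ
      set E' := E.filter (fun x => x.1 ∈ A ∧ x.2 ∈ B) with hE'
      set e := eW E μ ν A B with he
      set a := ∑ p ∈ P.filter (fun p => t < p ∧ fv A p ≠ fv B p), (1 : ℝ) / p with ha
      have hw0 : ∀ x ∈ E', 0 ≤ μ x.1 * ν x.2 := fun x hx =>
        mul_nonneg (hμA _ (Finset.mem_filter.mp hx).2.1).le (hνB _ (Finset.mem_filter.mp hx).2.2).le
      have hQsum : ∑ x ∈ E', (μ x.1 * ν x.2) *
          ∑ p ∈ Q.filter (fun p => t < p ∧ x.1.factorization p ≠ x.2.factorization p), (1 : ℝ) / p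
          ≤ (σ / 2) * e := by
        calc ∑ x ∈ E', (μ x.1 * ν x.2) *
            ∑ p ∈ Q.filter (fun p => t < p ∧ x.1.factorization p ≠ x.2.factorization p), (1 : ℝ) / p
            = ∑ p ∈ Q.filter (fun p => t < p), (1 : ℝ) / p *
              ∑ x ∈ E'.filter (fun x => x.1.factorization p ≠ x.2.factorization p), μ x.1 * ν x.2 := by
              have h1 : ∀ x ∈ E', (μ x.1 * ν x.2) *
                  ∑ p ∈ Q.filter (fun p => t < p ∧ x.1.factorization p ≠ x.2.factorization p), (1 : ℝ) / p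
                  = ∑ p ∈ Q.filter (fun p => t < p), (if x.1.factorization p ≠ x.2.factorization p then
                    (1 : ℝ) / p * (μ x.1 * ν x.2) else 0) := by
                intro x _
                rw [← Finset.filter_filter, Finset.sum_filter (s := Q.filter (fun p => t < p)),
                  Finset.mul_sum]
                refine Finset.sum_congr rfl fun p _ => ?_
                split_ifs <;> ring
              rw [Finset.sum_congr rfl h1, Finset.sum_comm]
              refine Finset.sum_congr rfl fun p _ => ?_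
              rw [← Finset.sum_filter, Finset.mul_sum]
          _ ≤ ∑ p ∈ Q.filter (fun p => t < p), (4352 * R * e) * (1 / (p : ℝ) ^ 2) := by
              refine Finset.sum_le_sum fun p hp => ?_
              have hpQ := (Finset.mem_filter.mp hp).1
              have hpl := hlarge p hpQ
              have h1 := hoff p hpQ
              have h2 := eta_four hR (p := p) (by omega)
              have hp0R : (0 : ℝ) < p := by
                have : 0 < p := by omega
                exact_mod_cast this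
              calc (1 : ℝ) / p * ∑ x ∈ E'.filter (fun x => x.1.factorization p ≠ x.2.factorization p),
                  μ x.1 * ν x.2 ≤ (1 : ℝ) / p * (17 * eta R p ^ 4 * e) :=
                    mul_le_mul_of_nonneg_left h1 (by positivity)
                _ ≤ (1 : ℝ) / p * (17 * (256 * R / p) * e) := by
                    refine mul_le_mul_of_nonneg_left ?_ (by positivity)
                    refine mul_le_mul_of_nonneg_right ?_ hpos.le
                    linarith
                _ = (4352 * R * e) * (1 / (p : ℝ) ^ 2) := by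
                    field_simp
                    ring
          _ = (4352 * R * e) * ∑ p ∈ Q.filter (fun p => t < p), (1 / (p : ℝ) ^ 2) := by
              rw [Finset.mul_sum]
          _ ≤ (4352 * R * e) * (1 / t) := by
              refine mul_le_mul_of_nonneg_left ?_ (by positivity)
              exact sum_inv_sq_le t ht0 _ (fun p hp => (Finset.mem_filter.mp hp).2)
          _ ≤ (σ / 2) * e := by
              have h1 : 4352 * R * (1 / t) ≤ σ / 2 := by
                rw [mul_one_div, div_le_iff₀ htR]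
                linarith
              calc (4352 * R * e) * (1 / t) = (4352 * R * (1 / t)) * e := by ring
                _ ≤ (σ / 2) * e := mul_le_mul_of_nonneg_right h1 hpos.le
      have hsplit : ∀ x ∈ E', σ ≤ a +
          ∑ p ∈ Q.filter (fun p => t < p ∧ x.1.factorization p ≠ x.2.factorization p), (1 : ℝ) / p := by
        intro x hx
        rw [hE', Finset.mem_filter] at hx
        refine (hanat x hx.1).trans ?_
        have hsub : (x.1 * x.2).primeFactors.filter
            (fun p => t < p ∧ x.1.factorization p ≠ x.2.factorization p) ⊆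
            P.filter (fun p => t < p ∧ fv A p ≠ fv B p) ∪
            Q.filter (fun p => t < p ∧ x.1.factorization p ≠ x.2.factorization p) := by
          intro p hp
          rw [Finset.mem_filter] at hp
          have hpPP : p ∈ PP := by
            have h1 := hp.1
            rw [Nat.primeFactors_mul (hVne _ (hAV hx.2.1)) (hWne _ (hBW hx.2.2)),
              Finset.mem_union] at h1
            rcases h1 with h1 | h1
            · exact hpf _ (hVne _ (hAV hx.2.1)) (hVM _ (hAV hx.2.1)) h1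
            · exact hpf _ (hWne _ (hBW hx.2.2)) (hWM _ (hBW hx.2.2)) h1
          rw [Finset.mem_union, Finset.mem_filter, Finset.mem_filter]
          by_cases hpP : p ∈ P
          · left
            refine ⟨hpP, hp.2.1, ?_⟩
            rw [← hval.1 p hpP x.1 hx.2.1, ← hval.2.1 p hpP x.2 hx.2.2]
            exact hp.2.2
          · right
            exact ⟨Finset.mem_sdiff.mpr ⟨hpPP, hpP⟩, hp.2⟩
        refine (Finset.sum_le_sum_of_subset_of_nonneg hsub (fun p _ _ => by positivity)).trans ?_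
        rw [Finset.sum_union]
        rw [Finset.disjoint_left]
        intro p h1 h2
        have h3 := (Finset.mem_filter.mp h1).1
        have h4 := (Finset.mem_filter.mp h2).1
        exact (Finset.mem_sdiff.mp h4).2 h3
      have hesum : e = ∑ x ∈ E', μ x.1 * ν x.2 := rfl
      have hσe : σ * e ≤ a * e + (σ / 2) * e := by
        calc σ * e = ∑ x ∈ E', (μ x.1 * ν x.2) * σ := by
              rw [hesum, Finset.mul_sum]
              refine Finset.sum_congr rfl fun x _ => ?_
              ring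
          _ ≤ ∑ x ∈ E', (μ x.1 * ν x.2) * (a +
              ∑ p ∈ Q.filter (fun p => t < p ∧ x.1.factorization p ≠ x.2.factorization p),
                (1 : ℝ) / p) :=
              Finset.sum_le_sum fun x hx => mul_le_mul_of_nonneg_left (hsplit x hx) (hw0 x hx)
          _ = a * e + ∑ x ∈ E', (μ x.1 * ν x.2) *
              ∑ p ∈ Q.filter (fun p => t < p ∧ x.1.factorization p ≠ x.2.factorization p),
                (1 : ℝ) / p := by
              rw [hesum, Finset.mul_sum, ← Finset.sum_add_distrib]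
              refine Finset.sum_congr rfl fun x _ => ?_
              ring
          _ ≤ a * e + (σ / 2) * e := by linarith
      have haσ : σ / 2 ≤ a := by
        have h1 : (σ / 2) * e ≤ a * e := by linarith
        exact le_of_mul_le_mul_right h1 hpos
      have haN : a ≤ N * (1 / t) := by
        calc a ≤ ∑ p ∈ P.filter (fun p => t < p ∧ fv A p ≠ fv B p), (1 : ℝ) / t := by
              refine Finset.sum_le_sum fun p hp => ?_
              have h1 := (Finset.mem_filter.mp hp).2.1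
              have h2 : (t : ℝ) ≤ p := by exact_mod_cast h1.le
              exact one_div_le_one_div_of_le htR h2
          _ = ((P.filter (fun p => t < p ∧ fv A p ≠ fv B p)).card : ℝ) * (1 / t) := by
              rw [Finset.sum_const, nsmul_eq_mul]
          _ ≤ N * (1 / t) := by
              refine mul_le_mul_of_nonneg_right ?_ (by positivity)
              have : (P.filter (fun p => t < p ∧ fv A p ≠ fv B p)).card ≤ N := by
                apply Finset.card_le_card
                intro p hp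
                rw [Finset.mem_filter] at hp ⊢
                exact ⟨hp.1, by omega, hp.2.2⟩
              exact_mod_cast this
      have hNσ : σ * t / 2 ≤ N := by
        have h1 := haσ.trans haN
        rw [mul_one_div, le_div_iff₀ htR] at h1
        linarith
      calc (1 / R) ^ N = R ^ (-(N : ℝ)) := by
            rw [Real.rpow_neg hR0.le, Real.rpow_natCast, one_div, inv_pow]
        _ ≤ R ^ ((p0 : ℝ) + 4352 * R + -(σ * t / 2)) := by
            apply Real.rpow_le_rpow_of_exponent_le hR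
            have : (0 : ℝ) ≤ p0 := by positivity
            linarith
    · have h1 : (1 / R) ^ N ≤ 1 := by
        apply pow_le_one₀ (by positivity)
        rw [div_le_one hR0]
        exact hR
      refine h1.trans ?_
      apply Real.one_le_rpow hR
      rw [not_and_or] at hcase
      have hp00 : (0 : ℝ) ≤ p0 := by positivity
      rcases hcase with h | h
      · push Not at h
        have h2 : (t : ℝ) ≤ p0 := by exact_mod_cast h.le
        have ht0 : (0 : ℝ) ≤ t := by positivity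
        have h3 : σ * t ≤ 1 * p0 := mul_le_mul hσ1 h2 ht0 (by norm_num)
        linarith
      · push Not at h
        linarith
  -- conclusion
  have hq := hmax V0 W0 ∅ subset_rfl subset_rfl (Finset.empty_subset _)
    ⟨fun p hp => absurd hp (Finset.notMem_empty p), fun p hp => absurd hp (Finset.notMem_empty p),
      hpos0⟩
  unfold qual at hq
  rw [Finset.prod_empty, mul_one] at hq
  set Pi := ((∏ p ∈ P, p ^ (ndist (fv A p) (fv B p)) : ℕ) : ℝ) with hPi
  have h8 : eW E μ ν A B ^ 4 / ((∑ v ∈ A, μ v) * (∑ w ∈ B, ν w)) ^ 3 *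
      ∏ p ∈ P, cc R p0 p (fv A p) (fv B p) ≤ 6 * (65536 ^ (p0 + 1) * (1 / R) ^ N) := by
    calc _ ≤ eW E μ ν A B ^ 4 / ((∑ v ∈ A, μ v) * (∑ w ∈ B, ν w)) ^ 3 *
        (Pi * (65536 ^ (p0 + 1) * (1 / R) ^ N)) :=
          mul_le_mul_of_nonneg_left hprod (by positivity)
      _ = (eW E μ ν A B ^ 4 * Pi) / ((∑ v ∈ A, μ v) * (∑ w ∈ B, ν w)) ^ 3 *
        (65536 ^ (p0 + 1) * (1 / R) ^ N) := by ring
      _ ≤ 6 * (65536 ^ (p0 + 1) * (1 / R) ^ N) := by
          refine mul_le_mul_of_nonneg_right ?_ (by positivity)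
          rw [div_le_iff₀ (by positivity)]
          exact hstr
  have h9 := hq.trans h8
  rw [div_le_iff₀ (by positivity)] at h9
  calc eW E μ ν V0 W0 ^ 4 ≤ 6 * (65536 ^ (p0 + 1) * (1 / R) ^ N) *
      ((∑ v ∈ V0, μ v) * (∑ w ∈ W0, ν w)) ^ 3 := h9
    _ ≤ 6 * (65536 ^ (p0 + 1) * (R ^ ((p0 : ℝ) + 4352 * R) * R ^ (-(σ * t / 2)))) *
      ((∑ v ∈ V, μ v) * (∑ w ∈ W, ν w)) ^ 3 := by
        refine mul_le_mul ?_ hprodle (by positivity) (by positivity)
        refine mul_le_mul_of_nonneg_left ?_ (by norm_num)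
        exact mul_le_mul_of_nonneg_left hgain (by positivity)
    _ = 6 * 65536 ^ (p0 + 1) * R ^ ((p0 : ℝ) + 4352 * R) * R ^ (-(σ * t / 2)) *
      ((∑ v ∈ V, μ v) * (∑ w ∈ W, ν w)) ^ 3 := by ring

end Pool.Agent.Helper69.DS
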