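import Mathlib

set_option autoImplicit false

open Finset

namespace Pool.Agent.Helper69.DS

lemma per_add_mul (f : ℤ → ℝ) (N : ℕ) (hf : ∀ h, f (h + N) = f h) (h : ℤ) (k : ℕ) :
    f (h + k * N) = f h := by
  induction k with
  | zero => simp
  | succ k ih =>
    have : h + ((k + 1 : ℕ) : ℤ) * N = (h + k * N) + N := by push_cast; ring
    rw [this, hf, ih]

lemma per_mod (f : ℤ → ℝ) (N : ℕ) (hf : ∀ h, f (h + N) = f h) (i : ℕ) :
    f (i : ℤ) = f ((i % N : ℕ) : ℤ) := by
  have h1 := per_add_mul f N hf ((i % N : ℕ) : ℤ) (i / N)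
  rw [← h1]
  congr 1
  have := Nat.mod_add_div i N
  have h2 : ((i % N + N * (i / N) : ℕ) : ℤ) = (i : ℤ) := by rw [this]
  push_cast at h2 ⊢
  linarith

lemma periodic_shift_one (f : ℤ → ℝ) (N : ℕ) (hf : ∀ h, f (h + N) = f h) (c : ℤ) :
    ∑ i ∈ range N, f (c + 1 + i) = ∑ i ∈ range N, f (c + i) := by
  have h1 : ∑ i ∈ range N, f (c + 1 + i) = ∑ i ∈ range N, f (c + ((i + 1 : ℕ) : ℤ)) := by
    refine Finset.sum_congr rfl fun i _ => ?_
    congr 1
    push_cast
    ring
  rw [h1]
  have h2 := Finset.sum_range_succ' (fun i : ℕ => f (c + i)) N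
  have h3 := Finset.sum_range_succ (fun i : ℕ => f (c + i)) N
  have h4 : f (c + (N : ℤ)) = f c := hf c
  simp only [Nat.cast_zero, add_zero] at h2
  rw [h3, h4] at h2
  linarith

lemma periodic_shift (f : ℤ → ℝ) (N : ℕ) (hf : ∀ h, f (h + N) = f h) (c : ℤ) :
    ∑ i ∈ range N, f (c + i) = ∑ i ∈ range N, f i := by
  induction c using Int.induction_on with
  | zero => simp
  | succ i ih => rw [periodic_shift_one f N hf]; exact ih
  | pred i ih =>
    have := periodic_shift_one f N hf (-(i : ℤ) - 1)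
    rw [← ih, ← this]
    refine Finset.sum_congr rfl fun j _ => ?_
    congr 1
    ring

lemma periodic_multiple (f : ℤ → ℝ) (N : ℕ) (hf : ∀ h, f (h + N) = f h) (k : ℕ) :
    ∑ i ∈ range (k * N), f i = k * ∑ i ∈ range N, f i := by
  induction k with
  | zero => simp
  | succ k ih =>
    have h1 : (k + 1) * N = k * N + N := by ring
    rw [h1, Finset.sum_range_add, ih]
    have h2 : ∑ x ∈ range N, f ((k * N + x : ℕ) : ℤ) = ∑ i ∈ range N, f i := by
      rw [← periodic_shift f N hf ((k * N : ℕ) : ℤ)]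
      refine Finset.sum_congr rfl fun j _ => ?_
      rw [Nat.cast_add]
    rw [h2]
    push_cast
    ring

lemma two_factor (a b : ℕ) (hab : Nat.Coprime a b) (ha : 0 < a) (hb : 0 < b) (F G : ℤ → ℝ)
    (hF : ∀ h, F (h + a) = F h) (hG : ∀ h, G (h + b) = G h) :
    ∑ i ∈ range (a * b), F i * G i = (∑ i ∈ range a, F i) * (∑ i ∈ range b, G i) := by
  rw [Finset.sum_mul_sum, ← Finset.sum_product']
  have hmaps : ∀ i ∈ range (a * b), (i % a, i % b) ∈ range a ×ˢ range b := by
    intro i _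
    rw [Finset.mem_product, Finset.mem_range, Finset.mem_range]
    exact ⟨Nat.mod_lt _ ha, Nat.mod_lt _ hb⟩
  have hinj : ∀ i ∈ range (a * b), ∀ j ∈ range (a * b), (i % a, i % b) = (j % a, j % b) → i = j := by
    intro i hi j hj hij
    simp only [Prod.mk.injEq] at hij
    rw [Finset.mem_range] at hi hj
    have h1 : i ≡ j [MOD a] := hij.1
    have h2 : i ≡ j [MOD b] := hij.2
    have h3 : i ≡ j [MOD a * b] := (Nat.modEq_and_modEq_iff_modEq_mul hab).mp ⟨h1, h2⟩
    exact Nat.ModEq.eq_of_lt_of_lt h3 hi hj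
  have hcard : (range a ×ˢ range b).card ≤ (range (a * b)).card := by
    rw [Finset.card_product, Finset.card_range, Finset.card_range, Finset.card_range]
  have hsurj := Finset.surj_on_of_inj_on_of_card_le (fun i (_ : i ∈ range (a * b)) => (i % a, i % b))
    hmaps (fun i j hi hj h => hinj i hi j hj h) hcard
  refine Finset.sum_bij (fun i _ => (i % a, i % b)) hmaps (fun i hi j hj h => hinj i hi j hj h) ?_ ?_
  · intro y hy
    obtain ⟨i, hi, h⟩ := hsurj y hy
    exact ⟨i, hi, h.symm⟩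
  · intro i _
    simp only
    rw [per_mod F a hF i, per_mod G b hG i]

lemma prod_periodic_aux (S : Finset ℕ) (F : ℕ → ℤ → ℝ) (hF : ∀ p ∈ S, ∀ h, F p (h + p) = F p h)
    (N : ℕ) (hN : ∀ p ∈ S, p ∣ N) (h : ℤ) :
    ∏ p ∈ S, F p (h + N) = ∏ p ∈ S, F p h := by
  refine Finset.prod_congr rfl fun p hp => ?_
  obtain ⟨k, hk⟩ := hN p hp
  have := per_add_mul (F p) p (hF p hp) h k
  rw [← this]
  congr 1
  rw [hk]
  push_cast
  ring

/-- Sums of products of periodic functions over a full period. -/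
lemma prod_periodic (S : Finset ℕ) (hS : ∀ p ∈ S, Nat.Prime p) (F : ℕ → ℤ → ℝ)
    (hF : ∀ p ∈ S, ∀ h, F p (h + p) = F p h) :
    ∑ i ∈ range (∏ p ∈ S, p), ∏ p ∈ S, F p i = ∏ p ∈ S, ∑ i ∈ range p, F p i := by
  classical
  induction S using Finset.induction_on with
  | empty => simp
  | insert q S hq ih =>
    have hS' : ∀ p ∈ S, Nat.Prime p := fun p hp => hS p (Finset.mem_insert_of_mem hp)
    have hqp : Nat.Prime q := hS q (Finset.mem_insert_self _ _)
    have hF' : ∀ p ∈ S, ∀ h, F p (h + p) = F p h := fun p hp => hF p (Finset.mem_insert_of_mem hp)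
    have ih' := ih hS' hF'
    rw [Finset.prod_insert hq, Finset.prod_insert hq, ← ih']
    have hcop : Nat.Coprime q (∏ p ∈ S, p) := by
      rw [Nat.coprime_prod_right_iff]
      intro p hp
      rw [Nat.coprime_primes hqp (hS' p hp)]
      rintro rfl
      exact hq hp
    have hpos : 0 < ∏ p ∈ S, p := Finset.prod_pos fun p hp => (hS' p hp).pos
    have h := two_factor q (∏ p ∈ S, p) hcop hqp.pos hpos (F q) (fun h => ∏ p ∈ S, F p h)
      (hF q (Finset.mem_insert_self _ _))
      (fun h => prod_periodic_aux S F hF' _ (fun p hp => Finset.dvd_prod_of_mem _ hp) h)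
    rw [← h]
    refine Finset.sum_congr rfl fun i _ => ?_
    rw [Finset.prod_insert hq]

/-- Upper bound for the sum of a nonnegative periodic function over an interval. -/
lemma periodic_interval_le (f : ℤ → ℝ) (N : ℕ) (hN : 0 < N) (hf : ∀ h, f (h + N) = f h)
    (hf0 : ∀ h, 0 ≤ f h) (hmean : ∑ i ∈ range N, f i = N) (c : ℤ) (K : ℕ) :
    ∑ i ∈ range K, f (c + i) ≤ K + N := by
  have h1 : K ≤ (K / N + 1) * N := by
    have := Nat.div_add_mod K N
    have h2 := Nat.mod_lt K hN
    nlinarith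
  have hshift : ∀ h, f (c + (h + N)) = f (c + h) := by
    intro h
    rw [← add_assoc, hf]
  calc ∑ i ∈ range K, f (c + i) ≤ ∑ i ∈ range ((K / N + 1) * N), f (c + i) :=
        Finset.sum_le_sum_of_subset_of_nonneg (Finset.range_mono h1) (fun i _ _ => hf0 _)
    _ = ((K / N + 1 : ℕ) : ℝ) * ∑ i ∈ range N, f (c + i) :=
        periodic_multiple (fun h => f (c + h)) N hshift (K / N + 1)
    _ = ((K / N + 1 : ℕ) : ℝ) * N := by rw [periodic_shift f N hf c, hmean]
    _ = ((K / N : ℕ) : ℝ) * N + N := by push_cast; ring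
    _ ≤ K + N := by
        have : ((K / N : ℕ) : ℝ) * N ≤ K := by exact_mod_cast Nat.div_mul_le_self K N
        linarith

end Pool.Agent.Helper69.DS
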