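import Mathlib
import Pool.Agent.Helper69.DS.Per
import Pool.Agent.Helper69.DS.Count

set_option autoImplicit false

open Finset

namespace Pool.Agent.Helper69.DS

/-- local factor -/
noncomputable def Floc (H p : ℕ) (h : ℤ) : ℝ :=
  if p ∣ H then (if (p : ℤ) ∣ h then 0 else (1 - (p : ℝ)⁻¹)⁻¹)
  else (if (p : ℤ) ∣ h then (1 - (p : ℝ)⁻¹)⁻¹ else (1 - 2 * (p : ℝ)⁻¹) / (1 - (p : ℝ)⁻¹) ^ 2)

lemma Floc_periodic (H p : ℕ) (h : ℤ) : Floc H p (h + p) = Floc H p h := by
  unfold Floc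
  have : ((p : ℤ) ∣ h + p) ↔ ((p : ℤ) ∣ h) := by
    constructor
    · intro h1
      have := dvd_sub h1 (dvd_refl (p : ℤ))
      simpa using this
    · intro h1
      exact dvd_add h1 (dvd_refl _)
  simp only [this]

lemma two_inv_le {p : ℕ} (hp : p.Prime) : 0 ≤ 1 - 2 * (p : ℝ)⁻¹ := by
  have h2 : (2 : ℝ) ≤ p := by exact_mod_cast hp.two_le
  have : (p : ℝ)⁻¹ ≤ 2⁻¹ := inv_anti₀ (by norm_num) h2
  linarith

lemma Floc_nonneg (H : ℕ) {p : ℕ} (hp : p.Prime) (h : ℤ) : 0 ≤ Floc H p h := by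
  unfold Floc
  have h1 := one_sub_inv_nonneg hp
  have h2 := two_inv_le hp
  split_ifs <;> positivity

lemma dvd_range_filter (p : ℕ) (hp : 0 < p) :
    (range p).filter (fun i : ℕ => (p : ℤ) ∣ (i : ℤ)) = {0} := by
  ext i
  rw [Finset.mem_filter, Finset.mem_range, Finset.mem_singleton]
  constructor
  · rintro ⟨h1, h2⟩
    have h3 : p ∣ i := by exact_mod_cast h2
    exact Nat.eq_zero_of_dvd_of_lt h3 h1
  · rintro rfl
    exact ⟨hp, by simp⟩

lemma Floc_sum (H : ℕ) {p : ℕ} (hp : p.Prime) : ∑ i ∈ range p, Floc H p i = p := by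
  have hp0 : (0 : ℝ) < p := by exact_mod_cast hp.pos
  have h1 := one_sub_inv_nonneg hp
  have hne : (p : ℝ) - 1 ≠ 0 := by
    have : (2 : ℝ) ≤ p := by exact_mod_cast hp.two_le
    linarith
  have hcard : (((range p).filter (fun i : ℕ => ¬ (p : ℤ) ∣ (i : ℤ))).card : ℝ) = p - 1 := by
    have h2 := Finset.card_filter_add_card_filter_not (s := range p) (fun i : ℕ => (p : ℤ) ∣ (i : ℤ))
    rw [dvd_range_filter p hp.pos, Finset.card_singleton, Finset.card_range] at h2
    have h3 : ((1 + ((range p).filter (fun i : ℕ => ¬ (p : ℤ) ∣ (i : ℤ))).card : ℕ) : ℝ) = p := by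
      exact_mod_cast h2
    push_cast at h3
    linarith
  unfold Floc
  by_cases hH : p ∣ H
  · simp only [hH, if_true]
    rw [Finset.sum_ite, Finset.sum_const_zero, zero_add, Finset.sum_const, nsmul_eq_mul, hcard]
    field_simp
  · simp only [hH, if_false]
    rw [Finset.sum_ite, Finset.sum_const, Finset.sum_const, nsmul_eq_mul, nsmul_eq_mul, hcard,
      dvd_range_filter p hp.pos, Finset.card_singleton]
    have h4 : (1 - (p : ℝ)⁻¹) = (p - 1) / p := by field_simp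
    have h5 : (1 - 2 * (p : ℝ)⁻¹) = (p - 2) / p := by field_simp
    rw [h4, h5]
    field_simp
    push_cast
    ring

/-- number of excluded classes -/
noncomputable def om (H p : ℕ) (h : ℤ) : ℝ := if p ∣ H ∨ (p : ℤ) ∣ h then 1 else 2

lemma exists_root {p : ℕ} (hp : p.Prime) (a c : ℤ) (hc : ¬ (p : ℤ) ∣ c) :
    ∃ r ∈ range p, (p : ℤ) ∣ a + c * (r : ℕ) := by
  have := Fact.mk hp
  refine ⟨(-(a : ZMod p) / (c : ZMod p)).val, Finset.mem_range.mpr (ZMod.val_lt _), ?_⟩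
  have hc' : (c : ZMod p) ≠ 0 := by
    rw [Ne, ZMod.intCast_zmod_eq_zero_iff_dvd]
    exact hc
  rw [← ZMod.intCast_zmod_eq_zero_iff_dvd]
  push_cast
  rw [ZMod.natCast_val, ZMod.cast_id]
  field_simp
  ring

lemma excluded_count {p : ℕ} (hp : p.Prime) (m' n' : ℕ) (a0 b0 h : ℤ)
    (hcop : Nat.Coprime m' n') (hh : b0 * m' - a0 * n' = h) :
    ∑ r ∈ range p, (if (p : ℤ) ∣ a0 + m' * (r : ℕ) ∨ (p : ℤ) ∣ b0 + n' * (r : ℕ) then (0 : ℝ) else 1)
      ≤ p - om (m' * n') p h := by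
  classical
  set Z := (range p).filter (fun r : ℕ => (p : ℤ) ∣ a0 + m' * (r : ℕ) ∨ (p : ℤ) ∣ b0 + n' * (r : ℕ)) with hZ
  have hsum : ∑ r ∈ range p, (if (p : ℤ) ∣ a0 + m' * (r : ℕ) ∨ (p : ℤ) ∣ b0 + n' * (r : ℕ) then (0 : ℝ) else 1)
      = p - (Z.card : ℝ) := by
    rw [Finset.sum_ite, Finset.sum_const_zero, zero_add, Finset.sum_const, nsmul_eq_mul, mul_one]
    have h2 := Finset.card_filter_add_card_filter_not (s := range p)
      (fun r : ℕ => (p : ℤ) ∣ a0 + m' * (r : ℕ) ∨ (p : ℤ) ∣ b0 + n' * (r : ℕ))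
    rw [← hZ, Finset.card_range] at h2
    have h3 : ((Z.card + ((range p).filter (fun r : ℕ => ¬ ((p : ℤ) ∣ a0 + m' * (r : ℕ) ∨
        (p : ℤ) ∣ b0 + n' * (r : ℕ)))).card : ℕ) : ℝ) = p := by exact_mod_cast h2
    push_cast at h3
    linarith
  rw [hsum]
  have hnot : ¬ (p ∣ m' ∧ p ∣ n') := by
    rintro ⟨h1, h2⟩
    have := Nat.dvd_gcd h1 h2
    rw [hcop] at this
    exact hp.one_lt.ne' (Nat.dvd_one.mp this)
  have h1 : (1 : ℝ) ≤ Z.card := by
    have hne : Z.Nonempty := by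
      by_cases hm : p ∣ m'
      · have hn : ¬ (p : ℤ) ∣ (n' : ℤ) := by
          intro h
          exact hnot ⟨hm, by exact_mod_cast h⟩
        obtain ⟨r, hr, hr2⟩ := exists_root hp b0 n' hn
        exact ⟨r, Finset.mem_filter.mpr ⟨hr, Or.inr hr2⟩⟩
      · have hm' : ¬ (p : ℤ) ∣ (m' : ℤ) := by
          intro h
          exact hm (by exact_mod_cast h)
        obtain ⟨r, hr, hr2⟩ := exists_root hp a0 m' hm'
        exact ⟨r, Finset.mem_filter.mpr ⟨hr, Or.inl hr2⟩⟩
    exact_mod_cast hne.card_pos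
  unfold om
  split_ifs with hcase
  · linarith
  · push Not at hcase
    obtain ⟨hH, hph⟩ := hcase
    have hm' : ¬ (p : ℤ) ∣ (m' : ℤ) := by
      intro h
      exact hH (Dvd.dvd.mul_right (by exact_mod_cast h) n')
    have hn' : ¬ (p : ℤ) ∣ (n' : ℤ) := by
      intro h
      exact hH (Dvd.dvd.mul_left (by exact_mod_cast h) m')
    obtain ⟨r1, hr1, hr1'⟩ := exists_root hp a0 m' hm'
    obtain ⟨r2, hr2, hr2'⟩ := exists_root hp b0 n' hn'
    have hne : r1 ≠ r2 := by
      rintro rfl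
      apply hph
      have h3 := dvd_sub (Dvd.dvd.mul_right hr2' (m' : ℤ)) (Dvd.dvd.mul_right hr1' (n' : ℤ))
      have h4 : (b0 + n' * (r1 : ℕ)) * (m' : ℤ) - (a0 + m' * (r1 : ℕ)) * (n' : ℤ) = h := by
        rw [← hh]; ring
      rwa [h4] at h3
    have h2 : (2 : ℝ) ≤ Z.card := by
      have hsub : ({r1, r2} : Finset ℕ) ⊆ Z := by
        intro r hr
        rw [Finset.mem_insert, Finset.mem_singleton] at hr
        rcases hr with rfl | rfl
        · exact Finset.mem_filter.mpr ⟨hr1, Or.inl hr1'⟩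
        · exact Finset.mem_filter.mpr ⟨hr2, Or.inr hr2'⟩
      have h5 := Finset.card_le_card hsub
      rw [Finset.card_pair hne] at h5
      exact_mod_cast h5
    linarith

section

open Classical in
/-- first coordinates of the coprime pairs with given difference -/
noncomputable def Aset (m n : ℕ) (h : ℤ) : Finset ℕ :=
  (range m).filter (fun a => Nat.Coprime a m ∧
    ∃ b : ℤ, Int.gcd b n = 1 ∧ b * ((m / Nat.gcd m n : ℕ) : ℤ) - (a : ℤ) * ((n / Nat.gcd m n : ℕ) : ℤ) = h)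

lemma not_dvd_of_gcd_one {p : ℕ} (hp : p.Prime) {b : ℤ} {n : ℕ} (hb : Int.gcd b n = 1) (hpn : p ∣ n) :
    ¬ (p : ℤ) ∣ b := by
  intro h
  have h1 : (p : ℤ) ∣ (n : ℤ) := by exact_mod_cast hpn
  have h2 := Int.dvd_coe_gcd h h1
  rw [hb] at h2
  have h3 : p ∣ 1 := by exact_mod_cast h2
  exact hp.one_lt.ne' (Nat.dvd_one.mp h3)

lemma Tcount (g m' n' : ℕ) (hcop : Nat.Coprime m' n') (a0 b0 h : ℤ)
    (hh : b0 * m' - a0 * n' = h) :
    (((range g).filter (fun t : ℕ => ∀ p ∈ g.primeFactors,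
      ¬ ((p : ℤ) ∣ a0 + m' * (t : ℕ) ∨ (p : ℤ) ∣ b0 + n' * (t : ℕ)))).card : ℝ) ≤
    g * ∏ p ∈ g.primeFactors, (1 - om (m' * n') p h * (p : ℝ)⁻¹) := by
  classical
  have hprime : ∀ p ∈ g.primeFactors, Nat.Prime p := fun p hp => Nat.prime_of_mem_primeFactors hp
  set F : ℕ → ℤ → ℝ := fun p t => if (p : ℤ) ∣ a0 + m' * t ∨ (p : ℤ) ∣ b0 + n' * t then 0 else 1 with hF
  have hFper : ∀ p ∈ g.primeFactors, ∀ t, F p (t + p) = F p t := by
    intro p _ t
    have h1 : (p : ℤ) ∣ a0 + m' * (t + p) ↔ (p : ℤ) ∣ a0 + m' * t := by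
      have : a0 + m' * (t + p) = (a0 + m' * t) + p * m' := by ring
      rw [this]
      exact (Int.dvd_add_left (Dvd.intro _ rfl))
    have h2 : (p : ℤ) ∣ b0 + n' * (t + p) ↔ (p : ℤ) ∣ b0 + n' * t := by
      have : b0 + n' * (t + p) = (b0 + n' * t) + p * n' := by ring
      rw [this]
      exact (Int.dvd_add_left (Dvd.intro _ rfl))
    rw [hF]
    simp only [h1, h2]
  have hF01 : ∀ p t, 0 ≤ F p t := by
    intro p t
    rw [hF]
    simp only
    split_ifs <;> norm_num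
  have hcard : (((range g).filter (fun t : ℕ => ∀ p ∈ g.primeFactors,
      ¬ ((p : ℤ) ∣ a0 + m' * (t : ℕ) ∨ (p : ℤ) ∣ b0 + n' * (t : ℕ)))).card : ℝ) =
      ∑ t ∈ range g, ∏ p ∈ g.primeFactors, F p (t : ℕ) := by
    rw [Finset.card_filter]
    push_cast
    refine Finset.sum_congr rfl fun t _ => ?_
    split_ifs with hc
    · symm
      apply Finset.prod_eq_one
      intro p hp
      rw [hF]
      simp only
      rw [if_neg (hc p hp)]
    · push Not at hc
      obtain ⟨p, hp, hc⟩ := hc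
      symm
      apply Finset.prod_eq_zero hp
      rw [hF]
      simp only
      rw [if_pos hc]
  obtain ⟨k, hk⟩ := Nat.prod_primeFactors_dvd g
  have hradper : ∀ t : ℤ, ∏ p ∈ g.primeFactors, F p (t + (∏ p ∈ g.primeFactors, p : ℕ)) =
      ∏ p ∈ g.primeFactors, F p t :=
    fun t => prod_periodic_aux g.primeFactors F hFper _ (fun p hp => Finset.dvd_prod_of_mem _ hp) t
  have hsum : ∑ t ∈ range g, ∏ p ∈ g.primeFactors, F p (t : ℕ) =
      k * ∏ p ∈ g.primeFactors, ∑ r ∈ range p, F p r := by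
    rw [← prod_periodic g.primeFactors hprime F hFper,
      ← periodic_multiple (fun t => ∏ p ∈ g.primeFactors, F p t) _ hradper k]
    rw [mul_comm k, ← hk]
  rw [hcard, hsum]
  have hle : ∏ p ∈ g.primeFactors, ∑ r ∈ range p, F p r ≤
      ∏ p ∈ g.primeFactors, ((p : ℝ) * (1 - om (m' * n') p h * (p : ℝ)⁻¹)) := by
    refine Finset.prod_le_prod (fun p _ => Finset.sum_nonneg fun r _ => hF01 p r) fun p hp => ?_
    have h1 := excluded_count (hprime p hp) m' n' a0 b0 h hcop hh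
    have hp0 : (p : ℝ) ≠ 0 := by
      have := (hprime p hp).pos
      positivity
    have h2 : (p : ℝ) * (1 - om (m' * n') p h * (p : ℝ)⁻¹) = p - om (m' * n') p h := by
      field_simp
    rw [h2]
    exact h1
  calc (k : ℝ) * ∏ p ∈ g.primeFactors, ∑ r ∈ range p, F p r ≤
      k * ∏ p ∈ g.primeFactors, ((p : ℝ) * (1 - om (m' * n') p h * (p : ℝ)⁻¹)) :=
        mul_le_mul_of_nonneg_left hle (by positivity)
    _ = ((∏ p ∈ g.primeFactors, p : ℕ) * k : ℕ) *
        ∏ p ∈ g.primeFactors, (1 - om (m' * n') p h * (p : ℝ)⁻¹) := by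
        rw [Finset.prod_mul_distrib]
        push_cast
        ring
    _ = g * ∏ p ∈ g.primeFactors, (1 - om (m' * n') p h * (p : ℝ)⁻¹) := by rw [← hk]

lemma Aset_card_le_T (m n : ℕ) (hm : 0 < m) (hn : 0 < n) (h : ℤ) (a0 : ℕ) (b0 : ℤ)
    (hb0 : b0 * ((m / Nat.gcd m n : ℕ) : ℤ) - (a0 : ℤ) * ((n / Nat.gcd m n : ℕ) : ℤ) = h) :
    (Aset m n h).card ≤ ((range (Nat.gcd m n)).filter (fun t : ℕ => ∀ p ∈ (Nat.gcd m n).primeFactors,
      ¬ ((p : ℤ) ∣ (a0 : ℤ) + ((m / Nat.gcd m n : ℕ) : ℤ) * (t : ℕ) ∨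
        (p : ℤ) ∣ b0 + ((n / Nat.gcd m n : ℕ) : ℤ) * (t : ℕ)))).card := by
  classical
  set g := Nat.gcd m n with hg
  set m' := m / g with hm'
  set n' := n / g with hn'
  have hgpos : 0 < g := Nat.gcd_pos_of_pos_left _ hm
  have hmg : m' * g = m := Nat.div_mul_cancel (Nat.gcd_dvd_left m n)
  have hng : n' * g = n := Nat.div_mul_cancel (Nat.gcd_dvd_right m n)
  have hcop : Nat.Coprime m' n' := Nat.coprime_div_gcd_div_gcd hgpos
  have hm'pos : 0 < m' := Nat.pos_of_ne_zero (by rintro h0; rw [h0] at hmg; omega)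
  have hn'pos : 0 < n' := Nat.pos_of_ne_zero (by rintro h0; rw [h0] at hng; omega)
  have key : ∀ a ∈ Aset m n h, ∃ t ∈ (range g).filter (fun t : ℕ => ∀ p ∈ g.primeFactors,
      ¬ ((p : ℤ) ∣ (a0 : ℤ) + (m' : ℤ) * (t : ℕ) ∨ (p : ℤ) ∣ b0 + (n' : ℤ) * (t : ℕ))),
      ∃ s : ℤ, (a : ℤ) = a0 + m' * t + m * s := by
    intro a ha
    rw [Aset, Finset.mem_filter] at ha
    obtain ⟨_, hac, b, hb1, hb2⟩ := ha
    have h1 : (b - b0) * (m' : ℤ) = ((a : ℤ) - a0) * (n' : ℤ) := by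
      have : b * (m' : ℤ) - (a : ℤ) * (n' : ℤ) = b0 * (m' : ℤ) - (a0 : ℤ) * (n' : ℤ) := by
        rw [hb0]; exact hb2
      linarith
    have hcopZ : IsCoprime (m' : ℤ) (n' : ℤ) := Nat.isCoprime_iff_coprime.mpr hcop
    have h2 : (m' : ℤ) ∣ ((a : ℤ) - a0) := by
      have : (m' : ℤ) ∣ ((a : ℤ) - a0) * (n' : ℤ) := by
        rw [← h1]; exact Dvd.intro_left _ rfl
      exact hcopZ.dvd_of_dvd_mul_right this
    obtain ⟨t', ht'⟩ := h2
    have hm'Z : (m' : ℤ) ≠ 0 := by exact_mod_cast hm'pos.ne'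
    have h3 : b = b0 + n' * t' := by
      rw [ht'] at h1
      have h4 : (m' : ℤ) * (b - b0) = (m' : ℤ) * (n' * t') := by linarith
      have h5 := mul_left_cancel₀ hm'Z h4
      linarith
    have h6 : (a : ℤ) = a0 + m' * t' := by linarith
    have hgZ : (0 : ℤ) < g := by exact_mod_cast hgpos
    set t := (t' % (g : ℤ)).toNat with ht
    have htnn : 0 ≤ t' % (g : ℤ) := Int.emod_nonneg _ hgZ.ne'
    have htlt : t' % (g : ℤ) < g := Int.emod_lt_of_pos _ hgZ
    have htc : (t : ℤ) = t' % (g : ℤ) := Int.toNat_of_nonneg htnn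
    have htt : t' = t + g * (t' / (g : ℤ)) := by
      rw [htc]
      have := Int.emod_add_mul_ediv t' (g : ℤ)
      linarith
    refine ⟨t, ?_, t' / (g : ℤ), ?_⟩
    · rw [Finset.mem_filter, Finset.mem_range]
      refine ⟨?_, ?_⟩
      · have : (t : ℤ) < g := by rw [htc]; exact htlt
        exact_mod_cast this
      · intro p hp hcon
        have hpp := Nat.prime_of_mem_primeFactors hp
        have hpg : p ∣ g := Nat.dvd_of_mem_primeFactors hp
        have hpgZ : (p : ℤ) ∣ (g : ℤ) := by exact_mod_cast hpg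
        rcases hcon with hcon | hcon
        · have h7 : (p : ℤ) ∣ (a : ℤ) := by
            rw [h6, htt]
            have : (a0 : ℤ) + m' * (t + g * (t' / (g : ℤ))) =
                (a0 + m' * t) + g * (m' * (t' / (g : ℤ))) := by ring
            rw [this]
            exact dvd_add hcon (Dvd.dvd.mul_right hpgZ _)
          have h8 : p ∣ a := by exact_mod_cast h7
          have h9 : p ∣ m := hpg.trans (Nat.gcd_dvd_left m n)
          have := Nat.dvd_gcd h8 h9
          rw [hac] at this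
          exact hpp.one_lt.ne' (Nat.dvd_one.mp this)
        · have h7 : (p : ℤ) ∣ b := by
            rw [h3, htt]
            have : b0 + n' * (t + g * (t' / (g : ℤ))) =
                (b0 + n' * t) + g * (n' * (t' / (g : ℤ))) := by ring
            rw [this]
            exact dvd_add hcon (Dvd.dvd.mul_right hpgZ _)
          exact not_dvd_of_gcd_one hpp hb1 (hpg.trans (Nat.gcd_dvd_right m n)) h7
    · rw [h6, htt]
      have : (m : ℤ) = m' * g := by exact_mod_cast hmg.symm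
      rw [this]
      have h10 : (t + (g : ℤ) * (t' / g)) / g = t' / g := by rw [← htt]
      rw [h10]
      ring
  choose! f hf hfs using key
  refine Finset.card_le_card_of_injOn f hf ?_
  intro a ha a' ha' haa
  obtain ⟨s, hs⟩ := hfs a ha
  obtain ⟨s', hs'⟩ := hfs a' ha'
  have haa' : f a = f a' := haa
  rw [haa'] at hs
  have hsub : (a : ℤ) - a' = m * (s - s') := by rw [hs, hs']; ring
  have h1 := Finset.mem_range.mp (Finset.mem_filter.mp ha).1
  have h2 := Finset.mem_range.mp (Finset.mem_filter.mp ha').1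
  have h3 : (a : ℤ) ≡ a' [ZMOD m] := by
    apply Int.ModEq.symm
    rw [Int.modEq_iff_dvd, hsub]
    exact Dvd.intro _ rfl
  have h4 : a ≡ a' [MOD m] := (Int.natCast_modEq_iff).mp h3
  exact Nat.ModEq.eq_of_lt_of_lt h4 h1 h2

/-- Upper bound for the number of pairs with given difference. -/
lemma Aset_card_le (m n : ℕ) (hm : 0 < m) (hn : 0 < n) (h : ℤ) :
    ((Aset m n h).card : ℝ) ≤ (Nat.gcd m n : ℝ) * (phr m * phr n) *
      ∏ p ∈ (m * n).primeFactors, Floc ((m / Nat.gcd m n) * (n / Nat.gcd m n)) p h := by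
  classical
  have hm0 : m ≠ 0 := hm.ne'
  have hn0 : n ≠ 0 := hn.ne'
  have hprime : ∀ p ∈ (m * n).primeFactors, Nat.Prime p := fun p hp => Nat.prime_of_mem_primeFactors hp
  have hRHS : 0 ≤ (Nat.gcd m n : ℝ) * (phr m * phr n) *
      ∏ p ∈ (m * n).primeFactors, Floc ((m / Nat.gcd m n) * (n / Nat.gcd m n)) p h := by
    have h1 := phr_nonneg m
    have h2 := phr_nonneg n
    have h3 : 0 ≤ ∏ p ∈ (m * n).primeFactors, Floc ((m / Nat.gcd m n) * (n / Nat.gcd m n)) p h :=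
      Finset.prod_nonneg fun p hp => Floc_nonneg _ (hprime p hp) h
    positivity
  rcases Finset.eq_empty_or_nonempty (Aset m n h) with hemp | hne
  · rw [hemp]
    simpa using hRHS
  obtain ⟨a0, ha0⟩ := hne
  have ha0' := ha0
  rw [Aset, Finset.mem_filter] at ha0'
  obtain ⟨_, ha0c, b0, hb01, hb02⟩ := ha0'
  have hT := Aset_card_le_T m n hm hn h a0 b0 hb02
  set g := Nat.gcd m n with hg
  set m' := m / g with hm'
  set n' := n / g with hn'
  have hgpos : 0 < g := Nat.gcd_pos_of_pos_left _ hm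
  have hmg : m' * g = m := Nat.div_mul_cancel (Nat.gcd_dvd_left m n)
  have hng : n' * g = n := Nat.div_mul_cancel (Nat.gcd_dvd_right m n)
  have hcop : Nat.Coprime m' n' := Nat.coprime_div_gcd_div_gcd hgpos
  -- primes dividing m' n' do not divide h
  have hph : ∀ p, Nat.Prime p → p ∣ m' * n' → ¬ (p : ℤ) ∣ h := by
    intro p hp hpd hdh
    rcases (Nat.Prime.dvd_mul hp).mp hpd with h1 | h1
    · -- p ∣ m'
      have h2 : (p : ℤ) ∣ (a0 : ℤ) * (n' : ℤ) := by
        have h3 : (a0 : ℤ) * (n' : ℤ) = b0 * m' - h := by linarith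
        rw [h3]
        exact dvd_sub (Dvd.dvd.mul_left (by exact_mod_cast h1) _) hdh
      have h4 : p ∣ a0 * n' := by exact_mod_cast h2
      rcases (Nat.Prime.dvd_mul hp).mp h4 with h5 | h5
      · have h6 : p ∣ m := by rw [← hmg]; exact Dvd.dvd.mul_right h1 g
        have := Nat.dvd_gcd h5 h6
        rw [ha0c] at this
        exact hp.one_lt.ne' (Nat.dvd_one.mp this)
      · have := Nat.dvd_gcd h1 h5
        rw [hcop] at this
        exact hp.one_lt.ne' (Nat.dvd_one.mp this)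
    · have h2 : (p : ℤ) ∣ b0 * (m' : ℤ) := by
        have h3 : b0 * (m' : ℤ) = h + a0 * n' := by linarith
        rw [h3]
        exact dvd_add hdh (Dvd.dvd.mul_left (by exact_mod_cast h1) _)
      have hpZ : Prime (p : ℤ) := Nat.prime_iff_prime_int.mp hp
      rcases hpZ.dvd_or_dvd h2 with h5 | h5
      · have h6 : p ∣ n := by rw [← hng]; exact Dvd.dvd.mul_right h1 g
        exact not_dvd_of_gcd_one hp hb01 h6 h5
      · have h7 : p ∣ m' := by exact_mod_cast h5
        have := Nat.dvd_gcd h7 h1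
        rw [hcop] at this
        exact hp.one_lt.ne' (Nat.dvd_one.mp this)
  have h1 := Tcount g m' n' hcop (a0 : ℤ) b0 h hb02
  have h2 : ((Aset m n h).card : ℝ) ≤ g * ∏ p ∈ g.primeFactors, (1 - om (m' * n') p h * (p : ℝ)⁻¹) := by
    refine le_trans ?_ h1
    exact_mod_cast hT
  refine h2.trans (le_of_eq ?_)
  -- product identity
  have hphr : phr m * phr n = (∏ p ∈ (m * n).primeFactors, (1 - (p : ℝ)⁻¹)) *
      ∏ p ∈ g.primeFactors, (1 - (p : ℝ)⁻¹) := by
    rw [phr_eq_prod hm0, phr_eq_prod hn0, ← Finset.prod_union_inter,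
      ← Nat.primeFactors_mul hm0 hn0, ← Nat.primeFactors_gcd hm0 hn0]
  have hgsub : g.primeFactors ⊆ (m * n).primeFactors := by
    apply Nat.primeFactors_mono _ (by positivity)
    exact (Nat.gcd_dvd_left m n).trans (Dvd.intro _ rfl)
  have hext : ∀ f : ℕ → ℝ, ∏ p ∈ g.primeFactors, f p =
      ∏ p ∈ (m * n).primeFactors, (if p ∈ g.primeFactors then f p else 1) := by
    intro f
    rw [Finset.prod_ite_mem, Finset.inter_eq_right.mpr hgsub]
  rw [hphr, hext (fun p => 1 - om (m' * n') p h * (p : ℝ)⁻¹), hext (fun p => 1 - (p : ℝ)⁻¹),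
    mul_assoc, ← Finset.prod_mul_distrib, ← Finset.prod_mul_distrib]
  congr 1
  refine Finset.prod_congr rfl fun p hp => ?_
  have hpp := hprime p hp
  have hf0 : (1 - (p : ℝ)⁻¹) ≠ 0 := (one_sub_inv_nonneg hpp).ne'
  by_cases hpg : p ∈ g.primeFactors
  · rw [if_pos hpg, if_pos hpg]
    unfold om Floc
    by_cases hH : p ∣ m' * n'
    · have hnd := hph p hpp hH
      rw [if_pos (Or.inl hH), if_pos hH, if_neg hnd, one_mul]
      generalize (1 - (p : ℝ)⁻¹) = u at hf0 ⊢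
      field_simp
    · by_cases hd : (p : ℤ) ∣ h
      · rw [if_pos (Or.inr hd), if_neg hH, if_pos hd, one_mul]
        generalize (1 - (p : ℝ)⁻¹) = u at hf0 ⊢
        field_simp
      · rw [if_neg (by tauto), if_neg hH, if_neg hd]
        generalize (1 - 2 * (p : ℝ)⁻¹) = v
        generalize (1 - (p : ℝ)⁻¹) = u at hf0 ⊢
        field_simp
  · rw [if_neg hpg, if_neg hpg]
    have hH : p ∣ m' * n' := by
      have h3 : p ∣ m * n := Nat.dvd_of_mem_primeFactors hp
      have hpg' : ¬ p ∣ g := fun h4 => hpg (Nat.mem_primeFactors.mpr ⟨hpp, h4, hgpos.ne'⟩)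
      rcases (Nat.Prime.dvd_mul hpp).mp h3 with h4 | h4
      · rw [← hmg] at h4
        rcases (Nat.Prime.dvd_mul hpp).mp h4 with h5 | h5
        · exact Dvd.dvd.mul_right h5 _
        · exact absurd h5 hpg'
      · rw [← hng] at h4
        rcases (Nat.Prime.dvd_mul hpp).mp h4 with h5 | h5
        · exact Dvd.dvd.mul_left h5 _
        · exact absurd h5 hpg'
    unfold Floc
    rw [if_pos hH, if_neg (hph p hpp hH)]
    generalize (1 - (p : ℝ)⁻¹) = u at hf0 ⊢
    field_simp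

end

end Pool.Agent.Helper69.DS
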