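import Mathlib
import Pool.Agent.Helper69.DS.Pairs

set_option autoImplicit false

open Finset

namespace Pool.Agent.Helper69.DS

/-- `∏_{p ∣ n, p > y} (1 - 1/p)⁻¹` -/
noncomputable def kapgt (y n : ℕ) : ℝ := ∏ p ∈ n.primeFactors.filter (fun p => y < p), (1 - (p : ℝ)⁻¹)⁻¹

lemma one_le_inv_fac {p : ℕ} (hp : p.Prime) : 1 ≤ (1 - (p : ℝ)⁻¹)⁻¹ :=
  (one_le_inv₀ (one_sub_inv_nonneg hp)).mpr (one_sub_inv_le_one p)

lemma one_le_kapgt (y n : ℕ) : 1 ≤ kapgt y n := by
  unfold kapgt
  apply Finset.one_le_prod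
  intro p hp
  exact one_le_inv_fac (Nat.prime_of_mem_primeFactors (Finset.mem_filter.mp hp).1)

lemma inv_fac_le_exp {p : ℕ} (hp : p.Prime) : (1 - (p : ℝ)⁻¹)⁻¹ ≤ Real.exp (2 * (1 / p)) := by
  have h1 := one_sub_inv_nonneg hp
  have h2 : (2 : ℝ) ≤ p := by exact_mod_cast hp.two_le
  have h3 : (p : ℝ)⁻¹ ≤ 1 / 2 := by
    rw [one_div]; exact inv_anti₀ (by norm_num) h2
  have h0 : 0 ≤ (p : ℝ)⁻¹ := by positivity
  rw [inv_le_comm₀ h1 (Real.exp_pos _), ← Real.exp_neg, one_div]
  set x := (p : ℝ)⁻¹ with hx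
  rw [Real.exp_neg, inv_le_comm₀ (Real.exp_pos _) h1]
  have h4 := Real.quadratic_le_exp_of_nonneg (x := 2 * x) (by positivity)
  refine le_trans ?_ h4
  rw [inv_le_iff_one_le_mul₀ h1]
  nlinarith [mul_nonneg h0 (sub_nonneg.mpr h3)]

lemma kapgt_le_exp (y n : ℕ) :
    kapgt y n ≤ Real.exp (2 * ∑ p ∈ n.primeFactors.filter (fun p => y < p), (1 : ℝ) / p) := by
  unfold kapgt
  rw [Finset.mul_sum, Real.exp_sum]
  refine Finset.prod_le_prod (fun p hp => ?_) (fun p hp => ?_)
  · exact zero_le_one.trans (one_le_inv_fac (Nat.prime_of_mem_primeFactors (Finset.mem_filter.mp hp).1))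
  · exact inv_fac_le_exp (Nat.prime_of_mem_primeFactors (Finset.mem_filter.mp hp).1)

lemma prod_Icc_inv (t : ℕ) (ht : 1 ≤ t) : ∏ k ∈ Finset.Icc 2 t, (1 - (k : ℝ)⁻¹)⁻¹ = t := by
  induction t, ht using Nat.le_induction with
  | base => simp
  | succ t ht ih =>
    rw [Finset.prod_Icc_succ_top (by omega), ih]
    have h0 : (0 : ℝ) < t := by exact_mod_cast ht
    push_cast
    have h1 : 1 - ((t : ℝ) + 1)⁻¹ = t / (t + 1) := by field_simp; ring
    rw [h1]
    field_simp

lemma kapgt_zero_le (t n : ℕ) (ht : 1 ≤ t) : kapgt 0 n ≤ t * kapgt t n := by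
  have h1 : kapgt 0 n = (∏ p ∈ n.primeFactors.filter (fun p => p ≤ t), (1 - (p : ℝ)⁻¹)⁻¹) * kapgt t n := by
    unfold kapgt
    have h := Finset.prod_filter_mul_prod_filter_not n.primeFactors (fun p => p ≤ t)
      (fun p => (1 - (p : ℝ)⁻¹)⁻¹)
    have h2 : n.primeFactors.filter (fun p => 0 < p) = n.primeFactors := by
      rw [Finset.filter_eq_self]
      intro p hp
      exact (Nat.prime_of_mem_primeFactors hp).pos
    have h3 : n.primeFactors.filter (fun p => ¬ p ≤ t) = n.primeFactors.filter (fun p => t < p) := by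
      apply Finset.filter_congr
      intro p _
      omega
    rw [h2, ← h, h3]
  rw [h1]
  refine mul_le_mul_of_nonneg_right ?_ (zero_le_one.trans (one_le_kapgt t n))
  rw [← prod_Icc_inv t ht]
  refine Finset.prod_le_prod_of_subset_of_one_le ?_ ?_ ?_
  · intro p hp
    rw [Finset.mem_filter] at hp
    rw [Finset.mem_Icc]
    exact ⟨(Nat.prime_of_mem_primeFactors hp.1).two_le, hp.2⟩
  · intro p hp
    exact zero_le_one.trans (one_le_inv_fac (Nat.prime_of_mem_primeFactors (Finset.mem_filter.mp hp).1))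
  · intro k hk _
    rw [Finset.mem_Icc] at hk
    have h2 : (2 : ℝ) ≤ k := by exact_mod_cast hk.1
    have h3 : (k : ℝ)⁻¹ ≤ 2⁻¹ := inv_anti₀ (by norm_num) h2
    have h4 : 0 ≤ (k : ℝ)⁻¹ := by positivity
    rw [one_le_inv₀ (by norm_num at h3 ⊢; linarith)]
    linarith

lemma pow_card_le (y h : ℕ) (hh : h ≠ 0) :
    (y + 1) ^ (h.primeFactors.filter (fun p => y < p)).card ≤ h := by
  calc (y + 1) ^ (h.primeFactors.filter (fun p => y < p)).card
      = ∏ _p ∈ h.primeFactors.filter (fun p => y < p), (y + 1) := by rw [Finset.prod_const]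
    _ ≤ ∏ p ∈ h.primeFactors.filter (fun p => y < p), p :=
        Finset.prod_le_prod' fun p hp => (Finset.mem_filter.mp hp).2
    _ ≤ ∏ p ∈ h.primeFactors, p := by
        refine Finset.prod_le_prod_of_subset_of_one_le' (Finset.filter_subset _ _) ?_
        intro p hp _
        exact (Nat.prime_of_mem_primeFactors hp).one_le
    _ ≤ h := Nat.le_of_dvd (Nat.pos_of_ne_zero hh) (Nat.prod_primeFactors_dvd h)

lemma kapgt_le_small (y h : ℕ) (hy : 1 ≤ y) (hh : h ≠ 0) :
    kapgt y h ≤ Real.exp (Real.log h / (y * Real.log (y + 1))) := by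
  have hyR : (1 : ℝ) ≤ y := by exact_mod_cast hy
  have hy0 : (0 : ℝ) < y := by linarith
  set c := (h.primeFactors.filter (fun p => y < p)).card with hc
  have h1 : kapgt y h ≤ Real.exp (c * (1 / y)) := by
    unfold kapgt
    have h2 : ∀ p ∈ h.primeFactors.filter (fun p => y < p), (1 - (p : ℝ)⁻¹)⁻¹ ≤ Real.exp (1 / y) := by
      intro p hp
      rw [Finset.mem_filter] at hp
      have hpp := Nat.prime_of_mem_primeFactors hp.1
      have h3 : ((y : ℝ) + 1) ≤ p := by exact_mod_cast hp.2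
      have h4 : (p : ℝ)⁻¹ ≤ ((y : ℝ) + 1)⁻¹ := inv_anti₀ (by linarith) h3
      have h5 : (1 - (p : ℝ)⁻¹)⁻¹ ≤ (1 - ((y : ℝ) + 1)⁻¹)⁻¹ := by
        apply inv_anti₀
        · have : ((y : ℝ) + 1)⁻¹ < 1 := inv_lt_one_of_one_lt₀ (by linarith)
          linarith
        · linarith
      have h6 : (1 - ((y : ℝ) + 1)⁻¹)⁻¹ = 1 / y + 1 := by
        have : 1 - ((y : ℝ) + 1)⁻¹ = y / (y + 1) := by field_simp; ring
        rw [this, inv_div]
        field_simp
        ring
      rw [h6] at h5
      exact h5.trans (Real.add_one_le_exp _)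
    calc ∏ p ∈ h.primeFactors.filter (fun p => y < p), (1 - (p : ℝ)⁻¹)⁻¹
        ≤ ∏ _p ∈ h.primeFactors.filter (fun p => y < p), Real.exp (1 / y) := by
          refine Finset.prod_le_prod (fun p hp => ?_) h2
          exact zero_le_one.trans (one_le_inv_fac
            (Nat.prime_of_mem_primeFactors (Finset.mem_filter.mp hp).1))
      _ = Real.exp (c * (1 / y)) := by
          rw [Finset.prod_const, ← Real.exp_nat_mul]
  refine h1.trans ?_
  apply Real.exp_le_exp.mpr
  have hlogy : 0 < Real.log ((y : ℝ) + 1) := Real.log_pos (by linarith)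
  have h7 : (c : ℝ) * Real.log (y + 1) ≤ Real.log h := by
    have h8 := pow_card_le y h hh
    have h9 : ((y : ℝ) + 1) ^ c ≤ h := by exact_mod_cast h8
    have h10 := Real.log_le_log (by positivity) h9
    rw [Real.log_pow] at h10
    exact h10
  rw [mul_one_div, div_le_div_iff₀ hy0 (by positivity)]
  nlinarith

/-- Mean value of `n/φ(n)`. -/
lemma sum_kap_le (X : ℕ) : ∑ h ∈ Finset.Ioc 0 X, kapgt 0 h ≤ 3 * X := by
  classical
  set PQ := (range (X + 1)).filter Nat.Prime with hPQ
  set a : ℕ → ℝ := fun p => ((p : ℝ) - 1)⁻¹ with ha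
  have hPQp : ∀ p ∈ PQ, Nat.Prime p := fun p hp => (Finset.mem_filter.mp hp).2
  have hfac : ∀ p, Nat.Prime p → (1 - (p : ℝ)⁻¹)⁻¹ = 1 + a p := by
    intro p hp
    have h2 : (2 : ℝ) ≤ p := by exact_mod_cast hp.two_le
    have h3 : (p : ℝ) - 1 ≠ 0 := by linarith
    have h4 : (p : ℝ) ≠ 0 := by linarith
    have h5 : 1 - (p : ℝ)⁻¹ = (p - 1) / p := by field_simp
    rw [h5, inv_div, ha]
    field_simp
    ring
  have ha0 : ∀ p, Nat.Prime p → 0 ≤ a p := by
    intro p hp
    have h2 : (2 : ℝ) ≤ p := by exact_mod_cast hp.two_le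
    have h3 : 0 < (p : ℝ) - 1 := by linarith
    rw [ha]; simp only; positivity
  have h1 : ∀ h ∈ Finset.Ioc 0 X, kapgt 0 h =
      ∑ s ∈ PQ.powerset, if (∏ p ∈ s, p) ∣ h then ∏ p ∈ s, a p else 0 := by
    intro h hh
    rw [Finset.mem_Ioc] at hh
    have h2 : h.primeFactors.filter (fun p => 0 < p) = h.primeFactors := by
      rw [Finset.filter_eq_self]
      intro p hp
      exact (Nat.prime_of_mem_primeFactors hp).pos
    unfold kapgt
    rw [h2, Finset.prod_congr rfl (fun p hp => hfac p (Nat.prime_of_mem_primeFactors hp)),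
      Finset.prod_one_add, ← Finset.sum_filter]
    refine Finset.sum_congr ?_ fun _ _ => rfl
    ext s
    rw [Finset.mem_powerset, Finset.mem_filter, Finset.mem_powerset]
    constructor
    · intro hs
      refine ⟨?_, ?_⟩
      · intro p hp
        have h3 := hs hp
        rw [hPQ, Finset.mem_filter, Finset.mem_range]
        exact ⟨by have := Nat.le_of_mem_primeFactors h3; omega, Nat.prime_of_mem_primeFactors h3⟩
      · exact Finset.prod_primes_dvd _ (fun p hp => (Nat.prime_of_mem_primeFactors (hs hp)).prime)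
          (fun p hp => Nat.dvd_of_mem_primeFactors (hs hp))
    · rintro ⟨hs, hd⟩ p hp
      rw [Nat.mem_primeFactors]
      exact ⟨hPQp p (hs hp), (Finset.dvd_prod_of_mem _ hp).trans hd, by omega⟩
  rw [Finset.sum_congr rfl h1, Finset.sum_comm]
  have h2 : ∀ s ∈ PQ.powerset, ∑ h ∈ Finset.Ioc 0 X, (if (∏ p ∈ s, p) ∣ h then ∏ p ∈ s, a p else 0) ≤
      X * ∏ p ∈ s, (a p / p) := by
    intro s hs
    rw [Finset.mem_powerset] at hs
    have hsp : ∀ p ∈ s, Nat.Prime p := fun p hp => hPQp p (hs hp)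
    have hpos : 0 < ∏ p ∈ s, p := Finset.prod_pos fun p hp => (hsp p hp).pos
    rw [← Finset.sum_filter, Finset.sum_const, nsmul_eq_mul, Nat.Ioc_filter_dvd_card_eq_div,
      Finset.prod_div_distrib]
    have h3 : ((X / ∏ p ∈ s, p : ℕ) : ℝ) ≤ X / (∏ p ∈ s, (p : ℝ)) := by
      refine (Nat.cast_div_le).trans (le_of_eq ?_)
      push_cast
      rfl
    have h4 : 0 ≤ ∏ p ∈ s, a p := Finset.prod_nonneg fun p hp => ha0 p (hsp p hp)
    calc ((X / ∏ p ∈ s, p : ℕ) : ℝ) * ∏ p ∈ s, a p ≤ X / (∏ p ∈ s, (p : ℝ)) * ∏ p ∈ s, a p :=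
          mul_le_mul_of_nonneg_right h3 h4
      _ = X * ((∏ p ∈ s, a p) / ∏ p ∈ s, (p : ℝ)) := by ring
  refine (Finset.sum_le_sum h2).trans ?_
  rw [← Finset.mul_sum, ← Finset.prod_one_add]
  have h5 : ∏ p ∈ PQ, (1 + a p / p) ≤ 3 := by
    calc ∏ p ∈ PQ, (1 + a p / p) ≤ ∏ p ∈ PQ, Real.exp (a p / p) := by
          refine Finset.prod_le_prod (fun p hp => ?_) (fun p hp => ?_)
          · have := ha0 p (hPQp p hp)
            positivity
          · have := Real.add_one_le_exp (a p / p)
            linarith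
      _ = Real.exp (∑ p ∈ PQ, a p / p) := by rw [Real.exp_sum]
      _ ≤ Real.exp 1 := by
          apply Real.exp_le_exp.mpr
          have h6 : PQ ⊆ Finset.Ico 2 (2 + X) := by
            intro p hp
            rw [Finset.mem_Ico]
            have h7 := (hPQp p hp).two_le
            have h8 := Finset.mem_range.mp (Finset.mem_filter.mp hp).1
            omega
          refine (Finset.sum_le_sum_of_subset_of_nonneg h6 ?_).trans ?_
          · intro k hk _
            rw [Finset.mem_Ico] at hk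
            have h2 : (2 : ℝ) ≤ k := by exact_mod_cast hk.1
            have h3 : 0 < (k : ℝ) - 1 := by linarith
            rw [ha]; simp only; positivity
          · have h9 : ∀ m : ℕ, ∑ k ∈ Finset.Ico 2 (2 + m), a k / k ≤ 1 - 1 / (1 + m) := by
              intro m
              induction m with
              | zero => simp
              | succ m ih =>
                rw [← Nat.add_assoc, Finset.sum_Ico_succ_top (by omega)]
                have h10 : a (2 + m) / ((2 + m : ℕ) : ℝ) = 1 / (1 + m) - 1 / (1 + (m + 1 : ℕ)) := by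
                  rw [ha]
                  push_cast
                  have hm : (0 : ℝ) ≤ m := by positivity
                  have h11 : (2 : ℝ) + m - 1 = 1 + m := by ring
                  rw [h11]
                  field_simp
                  ring
                rw [h10]
                linarith
            have h12 := h9 X
            have h13 : (0 : ℝ) ≤ 1 / (1 + (X : ℝ)) := by positivity
            linarith
      _ ≤ 3 := Real.exp_one_lt_three.le
  have hX : (0 : ℝ) ≤ X := by positivity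
  nlinarith

end Pool.Agent.Helper69.DS
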