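import Mathlib
import Pool.Agent.Helper69.DS.Kappa

set_option autoImplicit false

open Finset

namespace Pool.Agent.Helper69.DS

lemma Floc_prod_le (S : Finset ℕ) (hS : ∀ p ∈ S, Nat.Prime p) (H : ℕ) (hH : H ≠ 0) (y : ℕ) (h : ℤ)
    (hh : h ≠ 0) :
    ∏ p ∈ S, Floc H p h ≤ (∏ p ∈ S.filter (fun p => p ≤ y), Floc H p h) *
      (kapgt y H * kapgt y h.natAbs) := by
  have h0 : ∀ p ∈ S, 0 ≤ Floc H p h := fun p hp => Floc_nonneg H (hS p hp) h
  rw [← Finset.prod_filter_mul_prod_filter_not S (fun p => p ≤ y)]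
  refine mul_le_mul_of_nonneg_left ?_
    (Finset.prod_nonneg fun p hp => h0 p (Finset.mem_filter.mp hp).1)
  have hS2 : ∀ p ∈ S.filter (fun p => ¬ p ≤ y), Nat.Prime p ∧ y < p := fun p hp =>
    ⟨hS p (Finset.mem_filter.mp hp).1, not_le.mp (Finset.mem_filter.mp hp).2⟩
  calc ∏ p ∈ S.filter (fun p => ¬ p ≤ y), Floc H p h
      ≤ ∏ p ∈ S.filter (fun p => ¬ p ≤ y), ((if p ∣ H then (1 - (p : ℝ)⁻¹)⁻¹ else 1) *
          (if p ∣ h.natAbs then (1 - (p : ℝ)⁻¹)⁻¹ else 1)) := by
        refine Finset.prod_le_prod (fun p hp => h0 p (Finset.mem_filter.mp hp).1) fun p hp => ?_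
        have hpp := (hS2 p hp).1
        have h1 := one_le_inv_fac hpp
        have h2 := one_sub_inv_nonneg hpp
        have hiff : (p : ℤ) ∣ h ↔ p ∣ h.natAbs := Int.natCast_dvd
        unfold Floc
        by_cases hpH : p ∣ H
        · rw [if_pos hpH, if_pos hpH]
          by_cases hph : p ∣ h.natAbs
          · rw [if_pos (hiff.mpr hph), if_pos hph]
            positivity
          · rw [if_neg (fun h' => hph (hiff.mp h')), if_neg hph, mul_one]
        · rw [if_neg hpH, if_neg hpH]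
          by_cases hph : p ∣ h.natAbs
          · rw [if_pos (hiff.mpr hph), if_pos hph, one_mul]
          · rw [if_neg (fun h' => hph (hiff.mp h')), if_neg hph, mul_one, div_le_one (by positivity)]
            have h3 : 0 ≤ (p : ℝ)⁻¹ := by positivity
            nlinarith [sq_nonneg ((p : ℝ)⁻¹)]
    _ = (∏ p ∈ S.filter (fun p => ¬ p ≤ y), (if p ∣ H then (1 - (p : ℝ)⁻¹)⁻¹ else 1)) *
        ∏ p ∈ S.filter (fun p => ¬ p ≤ y), (if p ∣ h.natAbs then (1 - (p : ℝ)⁻¹)⁻¹ else 1) :=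
        Finset.prod_mul_distrib
    _ ≤ kapgt y H * kapgt y h.natAbs := by
        have key : ∀ k : ℕ, k ≠ 0 →
            ∏ p ∈ S.filter (fun p => ¬ p ≤ y), (if p ∣ k then (1 - (p : ℝ)⁻¹)⁻¹ else 1) ≤ kapgt y k := by
          intro k hk
          rw [← Finset.prod_filter]
          unfold kapgt
          refine Finset.prod_le_prod_of_subset_of_one_le ?_ ?_ ?_
          · intro p hp
            rw [Finset.mem_filter] at hp ⊢
            obtain ⟨hp1, hp2⟩ := hp
            exact ⟨Nat.mem_primeFactors.mpr ⟨(hS2 p hp1).1, hp2, hk⟩, (hS2 p hp1).2⟩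
          · intro p hp
            exact zero_le_one.trans (one_le_inv_fac (hS2 p (Finset.mem_filter.mp hp).1).1)
          · intro p hp _
            exact one_le_inv_fac (Nat.prime_of_mem_primeFactors (Finset.mem_filter.mp hp).1)
        have h1 := key H hH
        have h2 := key h.natAbs (Int.natAbs_ne_zero.mpr hh)
        refine mul_le_mul h1 h2 ?_ (zero_le_one.trans (one_le_kapgt y H))
        refine Finset.prod_nonneg fun p hp => ?_
        split_ifs
        · exact zero_le_one.trans (one_le_inv_fac (hS2 p hp).1)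
        · norm_num

/-- integers `b` coprime to `n` with `|y - b/n| < δ` -/
noncomputable def Bset (n : ℕ) (δ y : ℝ) : Finset ℤ :=
  (Finset.Icc ⌊(n : ℝ) * (y - δ)⌋ ⌈(n : ℝ) * (y + δ)⌉).filter
    (fun b => Int.gcd b n = 1 ∧ |y - b / n| < δ)

lemma mem_Bset (n : ℕ) (hn : 0 < n) (δ y : ℝ) (b : ℤ) :
    b ∈ Bset n δ y ↔ Int.gcd b n = 1 ∧ |y - b / n| < δ := by
  unfold Bset
  rw [Finset.mem_filter, Finset.mem_Icc]
  constructor
  · exact fun h => h.2
  · intro h
    refine ⟨?_, h⟩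
    have hnR : (0 : ℝ) < n := by exact_mod_cast hn
    have h1 := abs_lt.mp h.2
    have h2 : (b : ℝ) / n < y + δ := by linarith
    have h3 : y - δ < (b : ℝ) / n := by linarith
    rw [div_lt_iff₀ hnR] at h2
    rw [lt_div_iff₀ hnR] at h3
    constructor
    · have h4 : (⌊(n : ℝ) * (y - δ)⌋ : ℝ) ≤ b := (Int.floor_le _).trans (by linarith)
      exact_mod_cast h4
    · have h4 : (b : ℝ) ≤ ⌈(n : ℝ) * (y + δ)⌉ := le_trans (by linarith) (Int.le_ceil _)
      exact_mod_cast h4

/-- the counting function at a point -/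
noncomputable def Ncount (m n : ℕ) (δ x : ℝ) : ℕ :=
  ∑ a ∈ (range m).filter (fun a => Nat.Coprime a m), (Bset n δ ((a : ℝ) / m + x)).card

/-- lcm as a real -/
noncomputable def Lr (m n : ℕ) : ℝ := (m : ℝ) * n / (Nat.gcd m n)

/-- left end of the interval of differences -/
noncomputable def cend (m n : ℕ) (δ x : ℝ) : ℤ := ⌊Lr m n * (x - δ)⌋ + 1

/-- length of the interval of differences -/
noncomputable def Kend (m n : ℕ) (δ x : ℝ) : ℕ := (⌈Lr m n * (x + δ)⌉ - cend m n δ x).toNat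

lemma Lr_pos (m n : ℕ) (hm : 0 < m) (hn : 0 < n) : 0 < Lr m n := by
  unfold Lr
  have h1 : (0 : ℝ) < m := by exact_mod_cast hm
  have h2 : (0 : ℝ) < n := by exact_mod_cast hn
  have h3 : (0 : ℝ) < Nat.gcd m n := by exact_mod_cast Nat.gcd_pos_of_pos_left _ hm
  positivity

lemma N_le (m n : ℕ) (hm : 0 < m) (hn : 0 < n) (δ x : ℝ) :
    Ncount m n δ x ≤ ∑ i ∈ range (Kend m n δ x), (Aset m n (cend m n δ x + i)).card := by
  classical
  unfold Ncount
  rw [← Finset.card_sigma, ← Finset.card_sigma]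
  have hL := Lr_pos m n hm hn
  have hmR : (0 : ℝ) < m := by exact_mod_cast hm
  have hnR : (0 : ℝ) < n := by exact_mod_cast hn
  have hgR : (0 : ℝ) < Nat.gcd m n := by exact_mod_cast Nat.gcd_pos_of_pos_left _ hm
  set g := Nat.gcd m n with hg
  have hm'R : ((m / g : ℕ) : ℝ) = (m : ℝ) / g := Nat.cast_div (Nat.gcd_dvd_left m n) hgR.ne'
  have hn'R : ((n / g : ℕ) : ℝ) = (n : ℝ) / g := Nat.cast_div (Nat.gcd_dvd_right m n) hgR.ne'
  have hm'pos : 0 < m / g := Nat.div_pos (Nat.le_of_dvd hm (Nat.gcd_dvd_left m n))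
    (Nat.gcd_pos_of_pos_left _ hm)
  set c := cend m n δ x with hc
  set D : ℕ → ℤ → ℤ := fun a b => b * ((m / g : ℕ) : ℤ) - (a : ℤ) * ((n / g : ℕ) : ℤ) with hD
  have hrange : ∀ (a : ℕ) (b : ℤ), |(a : ℝ) / m + x - b / n| < δ →
      c ≤ D a b ∧ D a b < ⌈Lr m n * (x + δ)⌉ := by
    intro a b hab
    have h1 : Lr m n * ((a : ℝ) / m + x - b / n) = Lr m n * x - (D a b : ℝ) := by
      simp only [hD]
      rw [Int.cast_sub, Int.cast_mul, Int.cast_mul, Int.cast_natCast, Int.cast_natCast,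
        Int.cast_natCast, hm'R, hn'R]
      unfold Lr
      rw [← hg]
      field_simp
      ring
    have h2 := abs_lt.mp hab
    have h3 : Lr m n * ((a : ℝ) / m + x - b / n) < Lr m n * δ := mul_lt_mul_of_pos_left h2.2 hL
    have h4 : Lr m n * (-δ) < Lr m n * ((a : ℝ) / m + x - b / n) := mul_lt_mul_of_pos_left h2.1 hL
    rw [h1] at h3 h4
    constructor
    · rw [hc]
      unfold cend
      rw [Int.add_one_le_iff, Int.floor_lt]
      linarith
    · rw [Int.lt_ceil]
      linarith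
  refine Finset.card_le_card_of_injOn
    (fun y => (⟨(D y.1 y.2 - c).toNat, y.1⟩ : (_ : ℕ) × ℕ)) ?_ ?_
  · rintro ⟨a, b⟩ hab
    simp only [Finset.coe_sigma, Set.mem_sigma_iff, Finset.mem_coe] at hab ⊢
    obtain ⟨ha, hb⟩ := hab
    rw [mem_Bset n hn] at hb
    obtain ⟨h1, h2⟩ := hrange a b hb.2
    have h3 : ((D a b - c).toNat : ℤ) = D a b - c := Int.toNat_of_nonneg (by linarith)
    refine ⟨?_, ?_⟩
    · rw [Finset.mem_range]
      unfold Kend
      rw [← hc]
      apply (Int.toNat_lt_toNat (by linarith)).mpr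
      linarith
    · rw [h3, Aset, Finset.mem_filter]
      rw [Finset.mem_filter] at ha
      refine ⟨ha.1, ha.2, b, hb.1, ?_⟩
      rw [hD]
      simp only
      rw [← hg]
      ring
  · rintro ⟨a, b⟩ hab ⟨a', b'⟩ hab' heq
    simp only [Finset.coe_sigma, Set.mem_sigma_iff, Finset.mem_coe] at hab hab'
    simp only [Sigma.mk.injEq, heq_eq_eq] at heq
    obtain ⟨he1, he2⟩ := heq
    subst he2
    rw [mem_Bset n hn] at hab hab'
    have h1 := (hrange a b hab.2.2).1
    have h2 := (hrange a b' hab'.2.2).1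
    have h3 : D a b = D a b' := by omega
    have h4 : b = b' := by
      rw [hD] at h3
      simp only at h3
      have h5 : b * ((m / g : ℕ) : ℤ) = b' * ((m / g : ℕ) : ℤ) := by linarith
      exact mul_right_cancel₀ (by exact_mod_cast hm'pos.ne') h5
    rw [h4]

lemma h_range (m n : ℕ) (δ x : ℝ) (i : ℕ) (hi : i < Kend m n δ x) :
    Lr m n * (x - δ) < ((cend m n δ x + i : ℤ) : ℝ) ∧
      ((cend m n δ x + i : ℤ) : ℝ) < Lr m n * (x + δ) := by
  constructor
  · have h1 : Lr m n * (x - δ) < (cend m n δ x : ℝ) := by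
      unfold cend
      push_cast
      exact Int.lt_floor_add_one _
    push_cast
    have : (0 : ℝ) ≤ i := by positivity
    linarith
  · unfold Kend at hi
    have h1 : (cend m n δ x + i : ℤ) < ⌈Lr m n * (x + δ)⌉ := by omega
    exact Int.lt_ceil.mp h1

lemma h_abs (m n : ℕ) (hm : 0 < m) (hn : 0 < n) (δ x : ℝ) (hx : |x| ≤ δ) (i : ℕ)
    (hi : i < Kend m n δ x) :
    (((cend m n δ x + i : ℤ).natAbs : ℕ) : ℝ) < 2 * (Lr m n * δ) := by
  obtain ⟨h1, h2⟩ := h_range m n δ x i hi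
  have hL := Lr_pos m n hm hn
  rw [Nat.cast_natAbs, Int.cast_abs, abs_lt]
  have h3 := abs_le.mp hx
  constructor
  · nlinarith
  · nlinarith

lemma Kend_le (m n : ℕ) (hm : 0 < m) (hn : 0 < n) (δ x : ℝ) (hδ : 0 ≤ δ) :
    (Kend m n δ x : ℝ) ≤ 2 * (Lr m n * δ) + 1 := by
  have hL := Lr_pos m n hm hn
  unfold Kend
  rcases le_or_gt 0 (⌈Lr m n * (x + δ)⌉ - cend m n δ x) with h | h
  · have h1 : (((⌈Lr m n * (x + δ)⌉ - cend m n δ x).toNat : ℕ) : ℝ) =
        ((⌈Lr m n * (x + δ)⌉ - cend m n δ x : ℤ) : ℝ) := by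
      have := Int.toNat_of_nonneg h
      exact_mod_cast this
    rw [h1]
    unfold cend
    push_cast
    have h2 := Int.ceil_lt_add_one (Lr m n * (x + δ))
    have h3 := Int.lt_floor_add_one (Lr m n * (x - δ))
    nlinarith
  · have : (⌈Lr m n * (x + δ)⌉ - cend m n δ x).toNat = 0 := Int.toNat_of_nonpos h.le
    rw [this]
    push_cast
    positivity

lemma Aset_zero (m n : ℕ) (hm : 0 < m) (hmn : m ≠ n) : Aset m n 0 = ∅ := by
  classical
  rw [Finset.eq_empty_iff_forall_notMem]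
  intro a ha
  rw [Aset, Finset.mem_filter] at ha
  obtain ⟨_, hac, b, hb1, hb2⟩ := ha
  set g := Nat.gcd m n with hg
  have hgpos : 0 < g := Nat.gcd_pos_of_pos_left _ hm
  have hmg : m / g * g = m := Nat.div_mul_cancel (Nat.gcd_dvd_left m n)
  have hng : n / g * g = n := Nat.div_mul_cancel (Nat.gcd_dvd_right m n)
  have hcop : Nat.Coprime (m / g) (n / g) := Nat.coprime_div_gcd_div_gcd hgpos
  have hcopZ : IsCoprime ((m / g : ℕ) : ℤ) ((n / g : ℕ) : ℤ) := Nat.isCoprime_iff_coprime.mpr hcop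
  have h1 : b * ((m / g : ℕ) : ℤ) = (a : ℤ) * ((n / g : ℕ) : ℤ) := by linarith
  have h2 : m / g = 1 := by
    have h3 : ((m / g : ℕ) : ℤ) ∣ (a : ℤ) := by
      have : ((m / g : ℕ) : ℤ) ∣ (a : ℤ) * ((n / g : ℕ) : ℤ) := by
        rw [← h1]; exact Dvd.intro_left _ rfl
      exact hcopZ.dvd_of_dvd_mul_right this
    have h4 : m / g ∣ a := by exact_mod_cast h3
    have h5 : m / g ∣ m := by
      nth_rewrite 2 [← hmg]
      exact Dvd.intro _ rfl
    have := Nat.dvd_gcd h4 h5
    rw [hac] at this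
    exact Nat.dvd_one.mp this
  have h3 : n / g = 1 := by
    have h3 : ((n / g : ℕ) : ℤ) ∣ b := by
      have : ((n / g : ℕ) : ℤ) ∣ b * ((m / g : ℕ) : ℤ) := by
        rw [h1]; exact Dvd.intro_left _ rfl
      exact hcopZ.symm.dvd_of_dvd_mul_right this
    have h5 : ((n / g : ℕ) : ℤ) ∣ (n : ℤ) := by
      have : n / g ∣ n := by
        nth_rewrite 2 [← hng]
        exact Dvd.intro _ rfl
      exact_mod_cast this
    have h6 := Int.dvd_coe_gcd h3 h5
    rw [hb1] at h6
    have h7 : n / g ∣ 1 := by exact_mod_cast h6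
    exact Nat.dvd_one.mp h7
  apply hmn
  rw [← hmg, ← hng, h2, h3]

/-- the constant `G = gcd · φ(m)/m · φ(n)/n` -/
noncomputable def Gc (m n : ℕ) : ℝ := (Nat.gcd m n : ℝ) * (phr m * phr n)

/-- `m' n'` -/
def Hc (m n : ℕ) : ℕ := (m / Nat.gcd m n) * (n / Nat.gcd m n)

lemma Gc_nonneg (m n : ℕ) : 0 ≤ Gc m n := by
  unfold Gc
  have h1 := phr_nonneg m
  have h2 := phr_nonneg n
  positivity

lemma Hc_pos (m n : ℕ) (hm : 0 < m) (hn : 0 < n) : Hc m n ≠ 0 := by
  unfold Hc
  have h1 := Nat.gcd_pos_of_pos_left n hm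
  have h2 := Nat.div_pos (Nat.le_of_dvd hm (Nat.gcd_dvd_left m n)) h1
  have h3 := Nat.div_pos (Nat.le_of_dvd hn (Nat.gcd_dvd_right m n)) h1
  positivity

lemma sum_kap_abs (c : ℤ) (K : ℕ) (Z : ℝ) (hZ : 0 ≤ Z)
    (hb : ∀ i < K, (((c + i : ℤ).natAbs : ℕ) : ℝ) < Z) :
    ∑ i ∈ (range K).filter (fun i : ℕ => (c + i : ℤ) ≠ 0), kapgt 0 (c + i : ℤ).natAbs ≤ 6 * Z := by
  classical
  have h0 : ∀ k : ℕ, 0 ≤ kapgt 0 k := fun k => zero_le_one.trans (one_le_kapgt 0 k)
  have hsplit : (range K).filter (fun i : ℕ => (c + i : ℤ) ≠ 0) =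
      (range K).filter (fun i : ℕ => 0 < (c + i : ℤ)) ∪
      (range K).filter (fun i : ℕ => (c + i : ℤ) < 0) := by
    ext i
    simp only [mem_filter, mem_union, mem_range]
    constructor
    · rintro ⟨h1, h2⟩
      rcases lt_or_gt_of_ne h2 with h3 | h3
      · right; exact ⟨h1, h3⟩
      · left; exact ⟨h1, h3⟩
    · rintro (⟨h1, h2⟩ | ⟨h1, h2⟩)
      · exact ⟨h1, by omega⟩
      · exact ⟨h1, by omega⟩
  have hdisj : Disjoint ((range K).filter (fun i : ℕ => 0 < (c + i : ℤ)))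
      ((range K).filter (fun i : ℕ => (c + i : ℤ) < 0)) := by
    rw [Finset.disjoint_left]
    intro i h1 h2
    simp only [mem_filter] at h1 h2
    omega
  have key : ∀ S : Finset ℕ, (∀ i ∈ S, i < K ∧ (c + i : ℤ) ≠ 0) →
      (∀ i ∈ S, ∀ j ∈ S, (c + i : ℤ).natAbs = (c + j : ℤ).natAbs → i = j) →
      ∑ i ∈ S, kapgt 0 (c + i : ℤ).natAbs ≤ 3 * Z := by
    intro S hS hinj
    have himg : S.image (fun i : ℕ => (c + i : ℤ).natAbs) ⊆ Finset.Ioc 0 ⌊Z⌋₊ := by
      intro k hk
      rw [Finset.mem_image] at hk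
      obtain ⟨i, hi, rfl⟩ := hk
      rw [Finset.mem_Ioc]
      refine ⟨Int.natAbs_pos.mpr (hS i hi).2, ?_⟩
      exact Nat.le_floor (hb i (hS i hi).1).le
    calc ∑ i ∈ S, kapgt 0 (c + i : ℤ).natAbs
        = ∑ k ∈ S.image (fun i : ℕ => (c + i : ℤ).natAbs), kapgt 0 k := by
          rw [Finset.sum_image]
          intro i hi j hj hij
          exact hinj i hi j hj hij
      _ ≤ ∑ k ∈ Finset.Ioc 0 ⌊Z⌋₊, kapgt 0 k :=
          Finset.sum_le_sum_of_subset_of_nonneg himg (fun k _ _ => h0 k)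
      _ ≤ 3 * ⌊Z⌋₊ := sum_kap_le _
      _ ≤ 3 * Z := by
          have := Nat.floor_le hZ
          linarith
  rw [hsplit, Finset.sum_union hdisj]
  have h1 := key ((range K).filter (fun i : ℕ => 0 < (c + i : ℤ))) (by
    intro i hi
    simp only [mem_filter, mem_range] at hi
    exact ⟨hi.1, by omega⟩) (by
    intro i hi j hj hij
    simp only [mem_filter, mem_range] at hi hj
    omega)
  have h2 := key ((range K).filter (fun i : ℕ => (c + i : ℤ) < 0)) (by
    intro i hi
    simp only [mem_filter, mem_range] at hi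
    exact ⟨hi.1, by omega⟩) (by
    intro i hi j hj hij
    simp only [mem_filter, mem_range] at hi hj
    omega)
  linarith

/-- crude bound for the nonzero differences -/
lemma crude_sum (m n : ℕ) (hm : 0 < m) (hn : 0 < n) (δ x : ℝ) (hδ : 0 ≤ δ) (hx : |x| ≤ δ) :
    ∑ i ∈ (range (Kend m n δ x)).filter (fun i : ℕ => (cend m n δ x + i : ℤ) ≠ 0),
      ((Aset m n (cend m n δ x + i)).card : ℝ) ≤
      Gc m n * kapgt 0 (Hc m n) * (12 * (Lr m n * δ)) := by
  have hL := Lr_pos m n hm hn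
  calc ∑ i ∈ (range (Kend m n δ x)).filter (fun i : ℕ => (cend m n δ x + i : ℤ) ≠ 0),
      ((Aset m n (cend m n δ x + i)).card : ℝ)
      ≤ ∑ i ∈ (range (Kend m n δ x)).filter (fun i : ℕ => (cend m n δ x + i : ℤ) ≠ 0),
        Gc m n * kapgt 0 (Hc m n) * kapgt 0 (cend m n δ x + i : ℤ).natAbs := by
        refine Finset.sum_le_sum fun i hi => ?_
        rw [Finset.mem_filter] at hi
        have h1 := Aset_card_le m n hm hn (cend m n δ x + i)
        have h2 := Floc_prod_le (m * n).primeFactors (fun p hp => Nat.prime_of_mem_primeFactors hp)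
          (Hc m n) (Hc_pos m n hm hn) 0 (cend m n δ x + i) hi.2
        have h3 : (m * n).primeFactors.filter (fun p => p ≤ 0) = ∅ := by
          rw [Finset.filter_eq_empty_iff]
          intro p hp
          have := (Nat.prime_of_mem_primeFactors hp).pos
          omega
        rw [h3, Finset.prod_empty, one_mul] at h2
        refine h1.trans ?_
        calc _ ≤ Gc m n * (kapgt 0 (Hc m n) * kapgt 0 (cend m n δ x + i : ℤ).natAbs) :=
              mul_le_mul_of_nonneg_left h2 (Gc_nonneg m n)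
          _ = _ := by ring
    _ = Gc m n * kapgt 0 (Hc m n) *
        ∑ i ∈ (range (Kend m n δ x)).filter (fun i : ℕ => (cend m n δ x + i : ℤ) ≠ 0),
          kapgt 0 (cend m n δ x + i : ℤ).natAbs := by rw [Finset.mul_sum]
    _ ≤ Gc m n * kapgt 0 (Hc m n) * (12 * (Lr m n * δ)) := by
        refine mul_le_mul_of_nonneg_left ?_
          (mul_nonneg (Gc_nonneg m n) (zero_le_one.trans (one_le_kapgt _ _)))
        have h4 := sum_kap_abs (cend m n δ x) (Kend m n δ x) (2 * (Lr m n * δ)) (by positivity)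
          (fun i hi => h_abs m n hm hn δ x hx i hi)
        linarith

/-- crude bound, distinct denominators -/
lemma N_crude (m n : ℕ) (hm : 0 < m) (hn : 0 < n) (hmn : m ≠ n) (δ x : ℝ) (hδ : 0 ≤ δ)
    (hx : |x| ≤ δ) :
    (Ncount m n δ x : ℝ) ≤ Gc m n * kapgt 0 (Hc m n) * (12 * (Lr m n * δ)) := by
  have h1 := N_le m n hm hn δ x
  have h2 : (Ncount m n δ x : ℝ) ≤ ∑ i ∈ range (Kend m n δ x),
      ((Aset m n (cend m n δ x + i)).card : ℝ) := by exact_mod_cast h1
  refine h2.trans ?_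
  have h3 : ∑ i ∈ range (Kend m n δ x), ((Aset m n (cend m n δ x + i)).card : ℝ) =
      ∑ i ∈ (range (Kend m n δ x)).filter (fun i : ℕ => (cend m n δ x + i : ℤ) ≠ 0),
        ((Aset m n (cend m n δ x + i)).card : ℝ) := by
    rw [Finset.sum_filter]
    refine Finset.sum_congr rfl fun i _ => ?_
    split_ifs with h
    · rfl
    · push Not at h
      rw [h, Aset_zero m n hm hmn]
      simp
  rw [h3]
  exact crude_sum m n hm hn δ x hδ hx

/-- no overlap when the scales are too small -/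
lemma N_zero (m n : ℕ) (hm : 0 < m) (hn : 0 < n) (hmn : m ≠ n) (δ x : ℝ)
    (hx : |x| ≤ δ) (hsmall : 2 * (Lr m n * δ) ≤ 1) : Ncount m n δ x = 0 := by
  have h1 := N_le m n hm hn δ x
  have h2 : ∑ i ∈ range (Kend m n δ x), (Aset m n (cend m n δ x + i)).card = 0 := by
    apply Finset.sum_eq_zero
    intro i hi
    rw [Finset.mem_range] at hi
    have h3 := h_abs m n hm hn δ x hx i hi
    have h4 : (((cend m n δ x + i : ℤ).natAbs : ℕ) : ℝ) < 1 := h3.trans_le hsmall
    have h5 : (cend m n δ x + i : ℤ).natAbs < 1 := by exact_mod_cast h4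
    have h6 : (cend m n δ x + i : ℤ) = 0 := by omega
    rw [h6, Aset_zero m n hm hmn]
    rfl
  omega

/-- diagonal bound -/
lemma N_diag (n : ℕ) (hn : 0 < n) (δ x : ℝ) (hδ : 0 ≤ δ) (hx : |x| ≤ δ) :
    (Ncount n n δ x : ℝ) ≤ Nat.totient n + n * phr n ^ 2 * (12 * (n * δ)) := by
  classical
  have h1 := N_le n n hn hn δ x
  have h2 : (Ncount n n δ x : ℝ) ≤ ∑ i ∈ range (Kend n n δ x),
      ((Aset n n (cend n n δ x + i)).card : ℝ) := by exact_mod_cast h1
  refine h2.trans ?_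
  have h3 := Finset.sum_filter_add_sum_filter_not (range (Kend n n δ x))
    (fun i : ℕ => (cend n n δ x + i : ℤ) = 0) (fun i => ((Aset n n (cend n n δ x + i)).card : ℝ))
  rw [← h3]
  have hG : Gc n n * kapgt 0 (Hc n n) * (12 * (Lr n n * δ)) = n * phr n ^ 2 * (12 * (n * δ)) := by
    have hn0 : (n : ℝ) ≠ 0 := by positivity
    have h4 : Hc n n = 1 := by
      unfold Hc
      rw [Nat.gcd_self, Nat.div_self hn]
    have h5 : kapgt 0 1 = 1 := by unfold kapgt; simp
    unfold Gc Lr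
    rw [h4, h5, Nat.gcd_self]
    field_simp
  have h6 := crude_sum n n hn hn δ x hδ hx
  rw [hG] at h6
  have h7 : ∑ i ∈ (range (Kend n n δ x)).filter (fun i : ℕ => (cend n n δ x + i : ℤ) = 0),
      ((Aset n n (cend n n δ x + i)).card : ℝ) ≤ Nat.totient n := by
    have hcard : ((range (Kend n n δ x)).filter (fun i : ℕ => (cend n n δ x + i : ℤ) = 0)).card ≤ 1 := by
      rw [Finset.card_le_one]
      intro i hi j hj
      simp only [mem_filter] at hi hj
      omega
    have hA : ∀ h : ℤ, (Aset n n h).card ≤ Nat.totient n := by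
      intro h
      rw [Nat.totient_eq_card_coprime]
      apply Finset.card_le_card
      intro a ha
      rw [Aset, Finset.mem_filter] at ha
      rw [Finset.mem_filter]
      exact ⟨ha.1, ha.2.1.symm⟩
    calc ∑ i ∈ (range (Kend n n δ x)).filter (fun i : ℕ => (cend n n δ x + i : ℤ) = 0),
        ((Aset n n (cend n n δ x + i)).card : ℝ)
        ≤ ∑ _i ∈ (range (Kend n n δ x)).filter (fun i : ℕ => (cend n n δ x + i : ℤ) = 0),
          (Nat.totient n : ℝ) := Finset.sum_le_sum fun i _ => by exact_mod_cast hA _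
      _ = (((range (Kend n n δ x)).filter (fun i : ℕ => (cend n n δ x + i : ℤ) = 0)).card : ℝ) *
          Nat.totient n := by rw [Finset.sum_const, nsmul_eq_mul]
      _ ≤ 1 * Nat.totient n := mul_le_mul_of_nonneg_right (by exact_mod_cast hcard) (by positivity)
      _ = Nat.totient n := one_mul _
  exact add_le_add h7 h6

/-- sharp bound -/
lemma N_sharp (m n : ℕ) (hm : 0 < m) (hn : 0 < n) (hmn : m ≠ n) (δ x : ℝ) (hδ : 0 ≤ δ)
    (hx : |x| ≤ δ) (y : ℕ) (Ey : ℝ) (hEy : 1 ≤ Ey)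
    (hE : ∀ h : ℕ, h ≠ 0 → (h : ℝ) < 2 * (Lr m n * δ) → kapgt y h ≤ Ey) :
    (Ncount m n δ x : ℝ) ≤ Gc m n * kapgt y (Hc m n) * Ey * (2 * (Lr m n * δ) + 1 + 4 ^ y) := by
  classical
  have h1 := N_le m n hm hn δ x
  have h2 : (Ncount m n δ x : ℝ) ≤ ∑ i ∈ range (Kend m n δ x),
      ((Aset m n (cend m n δ x + i)).card : ℝ) := by exact_mod_cast h1
  refine h2.trans ?_
  have hG := Gc_nonneg m n
  have hkH : 0 ≤ kapgt y (Hc m n) := zero_le_one.trans (one_le_kapgt _ _)
  set S := (m * n).primeFactors.filter (fun p => p ≤ y) with hS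
  have hSp : ∀ p ∈ S, Nat.Prime p := fun p hp =>
    Nat.prime_of_mem_primeFactors (Finset.mem_filter.mp hp).1
  have hFn : ∀ h : ℤ, 0 ≤ ∏ p ∈ S, Floc (Hc m n) p h := fun h =>
    Finset.prod_nonneg fun p hp => Floc_nonneg _ (hSp p hp) h
  have hterm : ∀ i ∈ range (Kend m n δ x), ((Aset m n (cend m n δ x + i)).card : ℝ) ≤
      Gc m n * kapgt y (Hc m n) * Ey * ∏ p ∈ S, Floc (Hc m n) p (cend m n δ x + i) := by
    intro i hi
    rw [Finset.mem_range] at hi
    by_cases hz : (cend m n δ x + i : ℤ) = 0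
    · rw [hz, Aset_zero m n hm hmn]
      have h3 := hFn 0
      simp only [Finset.card_empty, Nat.cast_zero]
      positivity
    · have h3 := Aset_card_le m n hm hn (cend m n δ x + i)
      have h4 := Floc_prod_le (m * n).primeFactors (fun p hp => Nat.prime_of_mem_primeFactors hp)
        (Hc m n) (Hc_pos m n hm hn) y (cend m n δ x + i) hz
      have h5 := hE (cend m n δ x + i : ℤ).natAbs (Int.natAbs_ne_zero.mpr hz)
        (h_abs m n hm hn δ x hx i hi)
      rw [← hS] at h4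
      have h6 := hFn (cend m n δ x + i)
      refine h3.trans ?_
      calc _ ≤ Gc m n * ((∏ p ∈ S, Floc (Hc m n) p (cend m n δ x + i)) *
            (kapgt y (Hc m n) * kapgt y (cend m n δ x + i : ℤ).natAbs)) :=
            mul_le_mul_of_nonneg_left h4 hG
        _ ≤ Gc m n * ((∏ p ∈ S, Floc (Hc m n) p (cend m n δ x + i)) *
            (kapgt y (Hc m n) * Ey)) := by
            refine mul_le_mul_of_nonneg_left ?_ hG
            refine mul_le_mul_of_nonneg_left ?_ h6
            exact mul_le_mul_of_nonneg_left h5 hkH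
        _ = _ := by ring
  refine (Finset.sum_le_sum hterm).trans ?_
  rw [← Finset.mul_sum]
  refine mul_le_mul_of_nonneg_left ?_ (by positivity)
  have hqpos : 0 < ∏ p ∈ S, p := Finset.prod_pos fun p hp => (hSp p hp).pos
  have hper := periodic_interval_le (fun h => ∏ p ∈ S, Floc (Hc m n) p h) (∏ p ∈ S, p) hqpos
    (fun h => prod_periodic_aux S (Floc (Hc m n)) (fun p _ h => Floc_periodic (Hc m n) p h) _
      (fun p hp => Finset.dvd_prod_of_mem _ hp) h)
    hFn
    (by
      rw [prod_periodic S hSp (Floc (Hc m n)) (fun p _ h => Floc_periodic (Hc m n) p h),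
        Finset.prod_congr rfl (fun p hp => Floc_sum (Hc m n) (hSp p hp))]
      push_cast
      rfl)
    (cend m n δ x) (Kend m n δ x)
  refine hper.trans ?_
  have hK := Kend_le m n hm hn δ x hδ
  have hq : ((∏ p ∈ S, p : ℕ) : ℝ) ≤ 4 ^ y := by
    have h7 : ∏ p ∈ S, p ≤ primorial y := by
      unfold primorial
      apply Finset.prod_le_prod_of_subset_of_one_le'
      · intro p hp
        rw [Finset.mem_filter, Finset.mem_range]
        exact ⟨by have := (Finset.mem_filter.mp hp).2; omega, hSp p hp⟩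
      · intro p hp _
        exact (Finset.mem_filter.mp hp).2.one_le
    exact_mod_cast h7.trans (primorial_le_four_pow y)
  linarith

end Pool.Agent.Helper69.DS
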