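import Mathlib
import Pool.Agent.Helper69.DS.Sieve

set_option autoImplicit false

open Finset MeasureTheory
open scoped ENNReal

namespace Pool.Agent.Helper69.DS

/-- the counting function of the reduced fractions -/
noncomputable def ff (n : ℕ) (δ y : ℝ) : ℝ≥0∞ :=
  ∑' b : ℤ, if Int.gcd b n = 1 ∧ |y - (b : ℝ) / n| < δ then (1 : ℝ≥0∞) else 0

lemma ff_eq_card (n : ℕ) (hn : 0 < n) (δ y : ℝ) : ff n δ y = ((Bset n δ y).card : ℝ≥0∞) := by
  unfold ff
  rw [tsum_eq_sum (s := Bset n δ y)]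
  · rw [Finset.sum_congr rfl (fun b hb => if_pos ((mem_Bset n hn δ y b).mp hb))]
    simp
  · intro b hb
    rw [mem_Bset n hn δ y b] at hb
    rw [if_neg hb]

lemma measurableSet_aux (b : ℤ) (n : ℕ) (δ : ℝ) :
    MeasurableSet {y : ℝ | Int.gcd b n = 1 ∧ |y - (b : ℝ) / n| < δ} := by
  have h1 : Measurable (fun y : ℝ => |y - (b : ℝ) / n|) := by fun_prop
  exact (MeasurableSet.const (Int.gcd b n = 1)).inter (measurableSet_lt h1 measurable_const)

lemma measurable_ff (n : ℕ) (δ : ℝ) : Measurable (ff n δ) := by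
  unfold ff
  apply Measurable.tsum
  intro b
  exact Measurable.ite (measurableSet_aux b n δ) measurable_const measurable_const

lemma ff_add_one (n : ℕ) (hn : 0 < n) (δ y : ℝ) : ff n δ (y + 1) = ff n δ y := by
  unfold ff
  rw [← Equiv.tsum_eq (Equiv.addRight (n : ℤ))]
  refine tsum_congr fun b => ?_
  have h1 : Int.gcd (b + n) n = Int.gcd b n := by
    rw [Int.gcd_comm, Int.gcd_comm b]
    simp
  have hnR : (n : ℝ) ≠ 0 := by positivity
  have h2 : y + 1 - ((b + n : ℤ) : ℝ) / n = y - (b : ℝ) / n := by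
    push_cast
    field_simp
    ring
  simp only [Equiv.coe_addRight, h1, h2]

lemma ff_pos_iff (n : ℕ) (δ y : ℝ) :
    ff n δ y ≠ 0 ↔ ∃ b : ℤ, Int.gcd b n = 1 ∧ |y - (b : ℝ) / n| < δ := by
  unfold ff
  rw [Ne, ENNReal.tsum_eq_zero]
  push Not
  constructor
  · rintro ⟨b, hb⟩
    refine ⟨b, ?_⟩
    by_contra h
    rw [if_neg h] at hb
    exact hb rfl
  · rintro ⟨b, hb⟩
    refine ⟨b, ?_⟩
    rw [if_pos hb]
    norm_num

lemma per_int (G : ℝ → ℝ≥0∞) (hG : ∀ y, G (y + 1) = G y) (k : ℤ) (y : ℝ) : G (y + k) = G y := by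
  induction k using Int.induction_on with
  | zero => simp
  | succ i ih =>
    have : y + ((i + 1 : ℤ) : ℝ) = (y + (i : ℤ)) + 1 := by push_cast; ring
    rw [this, hG, ih]
  | pred i ih =>
    have : y + ((-i : ℤ) : ℝ) = (y + ((-i - 1 : ℤ) : ℝ)) + 1 := by push_cast; ring
    rw [this, hG] at ih
    exact ih

/-- unfolding a single residue class -/
lemma unfold_one (h : ℝ → ℝ≥0∞) :
    ∑' k : ℤ, ∫⁻ y in Set.Ioc (0 : ℝ) 1, h (y - k) = ∫⁻ y, h y := by
  have h1 : ∀ k : ℤ, ∫⁻ y in Set.Ioc (0 : ℝ) 1, h (y - k) =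
      ∫⁻ y in Set.Ioc ((-k : ℤ) : ℝ) ((-k : ℤ) + 1), h y := by
    intro k
    rw [← lintegral_indicator measurableSet_Ioc, ← lintegral_indicator measurableSet_Ioc]
    symm
    rw [← lintegral_sub_right_eq_self _ (k : ℝ)]
    refine lintegral_congr fun y => ?_
    unfold Set.indicator
    congr 1
    simp only [Set.mem_Ioc, eq_iff_iff]
    push_cast
    constructor
    · rintro ⟨h1, h2⟩; constructor <;> linarith
    · rintro ⟨h1, h2⟩; constructor <;> linarith
  rw [tsum_congr h1, ← Equiv.tsum_eq (Equiv.neg ℤ)]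
  simp only [Equiv.neg_apply, neg_neg]
  rw [← lintegral_iUnion (fun k => measurableSet_Ioc) (Set.pairwise_disjoint_Ioc_intCast ℝ),
    iUnion_Ioc_intCast, Measure.restrict_univ]

/-- unfolding -/
lemma unfold_ff (m : ℕ) (hm : 0 < m) (δ : ℝ) (G : ℝ → ℝ≥0∞) (hGm : Measurable G)
    (hG : ∀ y, G (y + 1) = G y) :
    ∫⁻ y in Set.Ioc (0 : ℝ) 1, ff m δ y * G y =
      ∑ a ∈ (range m).filter (fun a => Nat.Coprime a m),
        ∫⁻ y in Metric.ball ((a : ℝ) / m) δ, G y := by
  have hmR : (m : ℝ) ≠ 0 := by positivity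
  have : NeZero m := ⟨hm.ne'⟩
  have h1 : ∫⁻ y in Set.Ioc (0 : ℝ) 1, ff m δ y * G y =
      ∑' b : ℤ, ∫⁻ y in Set.Ioc (0 : ℝ) 1,
        (if Int.gcd b m = 1 ∧ |y - (b : ℝ) / m| < δ then G y else 0) := by
    rw [← lintegral_tsum]
    · refine lintegral_congr fun y => ?_
      unfold ff
      rw [← ENNReal.tsum_mul_right]
      refine tsum_congr fun b => ?_
      split_ifs <;> simp
    · intro b
      exact (Measurable.ite (measurableSet_aux b m δ) hGm measurable_const).aemeasurable
  rw [h1, ← Equiv.tsum_eq (Int.divModEquiv m).symm, ENNReal.tsum_prod', ENNReal.tsum_comm,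
    tsum_fintype, Finset.sum_filter, Finset.sum_range]
  refine Finset.sum_congr rfl fun a _ => ?_
  have h2 : ∀ k : ℤ, ((Int.divModEquiv m).symm (k, a) : ℤ) = k * m + (a : ℕ) := fun k => rfl
  have h3 : ∀ k : ℤ, Int.gcd (k * m + (a : ℕ)) m = Nat.gcd a m := by
    intro k
    rw [add_comm, Int.gcd_comm]
    simp [Nat.gcd_comm]
  split_ifs with hc
  · have h4 : ∀ k : ℤ, ∫⁻ y in Set.Ioc (0 : ℝ) 1,
        (if Int.gcd ((Int.divModEquiv m).symm (k, a)) m = 1 ∧
          |y - (((Int.divModEquiv m).symm (k, a) : ℤ) : ℝ) / m| < δ then G y else 0) =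
        ∫⁻ y in Set.Ioc (0 : ℝ) 1,
          (fun z => (Metric.ball ((a : ℝ) / m) δ).indicator G z) (y - k) := by
      intro k
      refine lintegral_congr fun y => ?_
      rw [h2, h3]
      have h5 : y - ((k * m + (a : ℕ) : ℤ) : ℝ) / m = (y - k) - (a : ℝ) / m := by
        push_cast
        field_simp
        ring
      rw [h5]
      unfold Set.indicator
      simp only [Metric.mem_ball, Real.dist_eq]
      have h6 : G (y - k) = G y := by
        have := per_int G hG k (y - k)
        rw [← this]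
        congr 1
        ring
      rw [h6]
      have h7 : Nat.gcd (a : ℕ) m = 1 := hc
      simp only [h7, true_and]
    rw [tsum_congr h4, unfold_one, lintegral_indicator Metric.isOpen_ball.measurableSet]
  · have h4 : ∀ k : ℤ, ∫⁻ y in Set.Ioc (0 : ℝ) 1,
        (if Int.gcd ((Int.divModEquiv m).symm (k, a)) m = 1 ∧
          |y - (((Int.divModEquiv m).symm (k, a) : ℤ) : ℝ) / m| < δ then G y else 0) = 0 := by
      intro k
      rw [h2, h3]
      have h7 : ¬ Nat.gcd (a : ℕ) m = 1 := hc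
      simp [h7]
    rw [tsum_congr h4]
    simp

lemma integral_ff (m : ℕ) (hm : 0 < m) (δ : ℝ) :
    ∫⁻ y in Set.Ioc (0 : ℝ) 1, ff m δ y = ENNReal.ofReal (2 * δ) * (Nat.totient m : ℝ≥0∞) := by
  have h := unfold_ff m hm δ (fun _ => 1) measurable_const (fun _ => rfl)
  simp only [mul_one] at h
  rw [h]
  have h1 : ∀ a ∈ (range m).filter (fun a => Nat.Coprime a m),
      ∫⁻ _ in Metric.ball ((a : ℝ) / m) δ, (1 : ℝ≥0∞) = ENNReal.ofReal (2 * δ) := by
    intro a _
    rw [lintegral_one, Measure.restrict_apply_univ, Real.volume_ball]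
  rw [Finset.sum_congr rfl h1, Finset.sum_const, nsmul_eq_mul, mul_comm, Nat.totient_eq_card_coprime]
  congr 3
  apply Finset.filter_congr
  intro a _
  exact Nat.coprime_comm

lemma integral_ff_mul_le (m n : ℕ) (hm : 0 < m) (hn : 0 < n) (δ' δ : ℝ) (hδ' : 0 ≤ δ')
    (B : ℝ) (hB : ∀ x : ℝ, |x| < δ' → (Ncount m n δ x : ℝ) ≤ B) :
    ∫⁻ y in Set.Ioc (0 : ℝ) 1, ff m δ' y * ff n δ y ≤ ENNReal.ofReal (2 * δ' * B) := by
  rw [unfold_ff m hm δ' (ff n δ) (measurable_ff n δ) (ff_add_one n hn δ)]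
  have h1 : ∀ a ∈ (range m).filter (fun a => Nat.Coprime a m),
      ∫⁻ y in Metric.ball ((a : ℝ) / m) δ', ff n δ y =
      ∫⁻ x in Metric.ball (0 : ℝ) δ', ff n δ ((a : ℝ) / m + x) := by
    intro a _
    rw [← lintegral_indicator Metric.isOpen_ball.measurableSet,
      ← lintegral_indicator Metric.isOpen_ball.measurableSet,
      ← lintegral_add_left_eq_self _ ((a : ℝ) / m)]
    refine lintegral_congr fun x => ?_
    unfold Set.indicator
    congr 1
    simp only [Metric.mem_ball, Real.dist_eq, eq_iff_iff]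
    constructor <;> intro h <;> convert h using 2 <;> ring
  rw [Finset.sum_congr rfl h1, ← lintegral_finsetSum]
  · calc ∫⁻ x in Metric.ball (0 : ℝ) δ',
        ∑ a ∈ (range m).filter (fun a => Nat.Coprime a m), ff n δ ((a : ℝ) / m + x)
        ≤ ∫⁻ _ in Metric.ball (0 : ℝ) δ', ENNReal.ofReal B := by
          apply setLIntegral_mono measurable_const
          intro x hx
          rw [Metric.mem_ball, Real.dist_eq, sub_zero] at hx
          have h2 := hB x hx
          have h3 : ∑ a ∈ (range m).filter (fun a => Nat.Coprime a m), ff n δ ((a : ℝ) / m + x) =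
              ((Ncount m n δ x : ℕ) : ℝ≥0∞) := by
            unfold Ncount
            push_cast
            exact Finset.sum_congr rfl fun a _ => ff_eq_card n hn δ _
          rw [h3, ← ENNReal.ofReal_natCast]
          exact ENNReal.ofReal_le_ofReal h2
      _ = ENNReal.ofReal (2 * δ' * B) := by
          rw [lintegral_const, Measure.restrict_apply_univ, Real.volume_ball, mul_comm,
            ← ENNReal.ofReal_mul (by positivity)]
  · intro a _
    exact (measurable_ff n δ).comp (measurable_const.add measurable_id)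

/-- Tonelli in several variables. -/
theorem lintegral_fin_prod {n : ℕ} {μ : Fin n → Measure ℝ} [∀ i, SigmaFinite (μ i)]
    (f : Fin n → ℝ → ℝ≥0∞) (hf : ∀ i, Measurable (f i)) :
    ∫⁻ x : Fin n → ℝ, ∏ i, f i (x i) ∂(Measure.pi μ) = ∏ i, ∫⁻ x, f i x ∂(μ i) := by
  induction n with
  | zero => simp
  | succ n n_ih =>
      calc
        _ = ∫⁻ x : ℝ × (Fin n → ℝ),
            f 0 x.1 * ∏ i : Fin n, f (Fin.succ i) (x.2 i)
            ∂((μ 0).prod (Measure.pi (fun i ↦ μ i.succ))) := by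
          rw [← ((measurePreserving_piFinSuccAbove μ 0).symm).lintegral_comp_emb
            (MeasurableEquiv.measurableEmbedding _)]
          simp_rw [MeasurableEquiv.piFinSuccAbove_symm_apply, Fin.insertNthEquiv,
            Fin.prod_univ_succ, Fin.insertNth_zero, Equiv.coe_fn_mk, Fin.cons_succ,
            Fin.zero_succAbove, cast_eq, Fin.cons_zero]
        _ = (∫⁻ x, f 0 x ∂μ 0)
            * ∏ i : Fin n, ∫⁻ x, f (Fin.succ i) x ∂(μ i.succ) := by
          rw [← n_ih (fun i => f (Fin.succ i)) (fun i => hf _), ← lintegral_prod_mul]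
          · exact (hf 0).aemeasurable
          · refine Measurable.aemeasurable ?_
            exact Finset.measurable_prod _ (fun i _ => (hf _).comp (measurable_pi_apply i))
        _ = ∏ i, ∫⁻ x, f i x ∂(μ i) := by rw [Fin.prod_univ_succ]

end Pool.Agent.Helper69.DS
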