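import Mathlib
import Pool.Agent.Helper69.DS.Unfold

set_option autoImplicit false

open Finset MeasureTheory
open scoped ENNReal

namespace Pool.Agent.Helper69.DS

/-- mean of the counting function -/
noncomputable def wt (ψ : ℕ → ℝ) (n : ℕ) : ℝ := 2 * ψ n * phr n

/-- correlation integral -/
noncomputable def CC (ψ : ℕ → ℝ) (m n : ℕ) : ℝ≥0∞ :=
  ∫⁻ y in Set.Ioc (0 : ℝ) 1, ff m (ψ m / m) y * ff n (ψ n / n) y

/-- scale parameter -/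
noncomputable def DD (ψ : ℕ → ℝ) (m n : ℕ) : ℝ :=
  max (((m / Nat.gcd m n : ℕ) : ℝ) * ψ n) (((n / Nat.gcd m n : ℕ) : ℝ) * ψ m)

lemma CC_comm (ψ : ℕ → ℝ) (m n : ℕ) : CC ψ m n = CC ψ n m := by
  unfold CC
  simp only [mul_comm]

lemma DD_comm (ψ : ℕ → ℝ) (m n : ℕ) : DD ψ m n = DD ψ n m := by
  unfold DD
  rw [max_comm, Nat.gcd_comm]

lemma Hc_comm (m n : ℕ) : Hc m n = Hc n m := by
  unfold Hc
  rw [mul_comm, Nat.gcd_comm]

lemma Lr_mul (m n : ℕ) (hm : 0 < m) (hn : 0 < n) (a : ℝ) :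
    Lr m n * (a / n) = ((m / Nat.gcd m n : ℕ) : ℝ) * a := by
  have hgR : (0 : ℝ) < Nat.gcd m n := by exact_mod_cast Nat.gcd_pos_of_pos_left _ hm
  have hnR : (0 : ℝ) < n := by exact_mod_cast hn
  rw [Nat.cast_div (Nat.gcd_dvd_left m n) hgR.ne']
  unfold Lr
  field_simp

lemma Lr_mul' (m n : ℕ) (hm : 0 < m) (a : ℝ) :
    Lr m n * (a / m) = ((n / Nat.gcd m n : ℕ) : ℝ) * a := by
  have hgR : (0 : ℝ) < Nat.gcd m n := by exact_mod_cast Nat.gcd_pos_of_pos_left _ hm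
  have hmR : (0 : ℝ) < m := by exact_mod_cast hm
  rw [Nat.cast_div (Nat.gcd_dvd_right m n) hgR.ne']
  unfold Lr
  field_simp

lemma DD_eq (ψ : ℕ → ℝ) (m n : ℕ) (hm : 0 < m) (hn : 0 < n) (h : ψ m / m ≤ ψ n / n) :
    DD ψ m n = Lr m n * (ψ n / n) := by
  have hL := Lr_pos m n hm hn
  unfold DD
  rw [← Lr_mul m n hm hn, ← Lr_mul' m n hm]
  exact max_eq_left (mul_le_mul_of_nonneg_left h hL.le)

lemma wt_mul (ψ : ℕ → ℝ) (m n : ℕ) (hm : 0 < m) (hn : 0 < n) :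
    2 * (ψ m / m) * (Gc m n * (2 * (Lr m n * (ψ n / n)))) = wt ψ m * wt ψ n := by
  have hgR : (0 : ℝ) < Nat.gcd m n := by exact_mod_cast Nat.gcd_pos_of_pos_left _ hm
  have hmR : (0 : ℝ) < m := by exact_mod_cast hm
  have hnR : (0 : ℝ) < n := by exact_mod_cast hn
  unfold wt Gc Lr
  field_simp

lemma CC_crude_aux (ψ : ℕ → ℝ) (hψ : ∀ n, 0 ≤ ψ n) (m n : ℕ) (hm : 0 < m) (hn : 0 < n)
    (hmn : m ≠ n) (h : ψ m / m ≤ ψ n / n) :
    CC ψ m n ≤ ENNReal.ofReal (6 * (wt ψ m * wt ψ n) * kapgt 0 (Hc m n)) := by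
  have hδ' : 0 ≤ ψ m / m := div_nonneg (hψ m) (by positivity)
  have hδ : 0 ≤ ψ n / n := div_nonneg (hψ n) (by positivity)
  have h1 := integral_ff_mul_le m n hm hn (ψ m / m) (ψ n / n) hδ'
    (Gc m n * kapgt 0 (Hc m n) * (12 * (Lr m n * (ψ n / n))))
    (fun x hx => N_crude m n hm hn hmn (ψ n / n) x hδ (hx.le.trans h))
  refine h1.trans (ENNReal.ofReal_le_ofReal (le_of_eq ?_))
  rw [← wt_mul ψ m n hm hn]
  ring

lemma CC_crude (ψ : ℕ → ℝ) (hψ : ∀ n, 0 ≤ ψ n) (m n : ℕ) (hm : 0 < m) (hn : 0 < n)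
    (hmn : m ≠ n) :
    CC ψ m n ≤ ENNReal.ofReal (6 * (wt ψ m * wt ψ n) * kapgt 0 (Hc m n)) := by
  rcases le_total (ψ m / m) (ψ n / n) with h | h
  · exact CC_crude_aux ψ hψ m n hm hn hmn h
  · rw [CC_comm, Hc_comm, mul_comm (wt ψ m)]
    exact CC_crude_aux ψ hψ n m hn hm hmn.symm h

lemma CC_zero_aux (ψ : ℕ → ℝ) (hψ : ∀ n, 0 ≤ ψ n) (m n : ℕ) (hm : 0 < m) (hn : 0 < n)
    (hmn : m ≠ n) (h : ψ m / m ≤ ψ n / n) (hD : DD ψ m n ≤ 1 / 2) : CC ψ m n = 0 := by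
  have hδ' : 0 ≤ ψ m / m := div_nonneg (hψ m) (by positivity)
  have h1 := integral_ff_mul_le m n hm hn (ψ m / m) (ψ n / n) hδ' 0
    (fun x hx => by
      rw [N_zero m n hm hn hmn (ψ n / n) x (hx.le.trans h) (by
        rw [← DD_eq ψ m n hm hn h]; linarith)]
      simp)
  rw [mul_zero, ENNReal.ofReal_zero] at h1
  exact le_antisymm h1 bot_le

lemma CC_zero (ψ : ℕ → ℝ) (hψ : ∀ n, 0 ≤ ψ n) (m n : ℕ) (hm : 0 < m) (hn : 0 < n)
    (hmn : m ≠ n) (hD : DD ψ m n ≤ 1 / 2) : CC ψ m n = 0 := by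
  rcases le_total (ψ m / m) (ψ n / n) with h | h
  · exact CC_zero_aux ψ hψ m n hm hn hmn h hD
  · rw [CC_comm]
    exact CC_zero_aux ψ hψ n m hn hm hmn.symm h (by rw [DD_comm]; exact hD)

/-- the small loss from large primes dividing the difference -/
noncomputable def Ey (y : ℕ) : ℝ := Real.exp (Real.log (2 * 16 ^ (y + 1)) / (y * Real.log (y + 1)))

lemma one_le_Ey (y : ℕ) : 1 ≤ Ey y := by
  unfold Ey
  apply Real.one_le_exp
  have h1 : (1 : ℝ) ≤ 2 * 16 ^ (y + 1) := by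
    have : (1 : ℝ) ≤ 16 ^ (y + 1) := one_le_pow₀ (by norm_num)
    linarith
  have h2 := Real.log_nonneg h1
  have h3 : 0 ≤ Real.log ((y : ℝ) + 1) := Real.log_nonneg (by
    have : (0 : ℝ) ≤ y := by positivity
    linarith)
  positivity

lemma CC_sharp_aux (ψ : ℕ → ℝ) (hψ : ∀ n, 0 ≤ ψ n) (m n : ℕ) (hm : 0 < m) (hn : 0 < n)
    (hmn : m ≠ n) (h : ψ m / m ≤ ψ n / n) (y : ℕ) (hy : 1 ≤ y)
    (hD1 : (16 : ℝ) ^ y ≤ DD ψ m n) (hD2 : DD ψ m n < 16 ^ (y + 1)) :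
    CC ψ m n ≤ ENNReal.ofReal ((wt ψ m * wt ψ n) * kapgt y (Hc m n) *
      (Ey y * (1 + (1 / 4) ^ y))) := by
  have hδ' : 0 ≤ ψ m / m := div_nonneg (hψ m) (by positivity)
  have hδ : 0 ≤ ψ n / n := div_nonneg (hψ n) (by positivity)
  have hDe := DD_eq ψ m n hm hn h
  rw [hDe] at hD1 hD2
  have hD0 : 0 < Lr m n * (ψ n / n) := lt_of_lt_of_le (by positivity) hD1
  have hyR : (1 : ℝ) ≤ y := by exact_mod_cast hy
  have hlogy : 0 < Real.log ((y : ℝ) + 1) := Real.log_pos (by linarith)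
  have hE : ∀ k : ℕ, k ≠ 0 → (k : ℝ) < 2 * (Lr m n * (ψ n / n)) → kapgt y k ≤ Ey y := by
    intro k hk hkD
    refine (kapgt_le_small y k hy hk).trans ?_
    unfold Ey
    apply Real.exp_le_exp.mpr
    apply div_le_div_of_nonneg_right _ (by positivity)
    apply Real.log_le_log
    · exact_mod_cast Nat.pos_of_ne_zero hk
    · linarith
  have h1 := integral_ff_mul_le m n hm hn (ψ m / m) (ψ n / n) hδ'
    (Gc m n * kapgt y (Hc m n) * Ey y * (2 * (Lr m n * (ψ n / n)) + 1 + 4 ^ y))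
    (fun x hx => N_sharp m n hm hn hmn (ψ n / n) x hδ (hx.le.trans h) y (Ey y) (one_le_Ey y) hE)
  refine h1.trans (ENNReal.ofReal_le_ofReal ?_)
  have hG := Gc_nonneg m n
  have hk : 0 ≤ kapgt y (Hc m n) := zero_le_one.trans (one_le_kapgt _ _)
  have hEy : 0 ≤ Ey y := zero_le_one.trans (one_le_Ey y)
  have h2 : 2 * (Lr m n * (ψ n / n)) + 1 + 4 ^ y ≤
      (2 * (Lr m n * (ψ n / n))) * (1 + (1 / 4) ^ y) := by
    have h3 : (1 : ℝ) + 4 ^ y ≤ 2 * 4 ^ y := by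
      have : (1 : ℝ) ≤ 4 ^ y := one_le_pow₀ (by norm_num)
      linarith
    have h4 : (16 : ℝ) ^ y * (1 / 4) ^ y = 4 ^ y := by
      rw [← mul_pow]; norm_num
    have h5 : (2 : ℝ) * 4 ^ y ≤ 2 * (Lr m n * (ψ n / n)) * (1 / 4) ^ y := by
      rw [← h4]
      have : (16 : ℝ) ^ y * (1 / 4) ^ y ≤ Lr m n * (ψ n / n) * (1 / 4) ^ y :=
        mul_le_mul_of_nonneg_right hD1 (by positivity)
      linarith
    linarith
  calc 2 * (ψ m / m) * (Gc m n * kapgt y (Hc m n) * Ey y * (2 * (Lr m n * (ψ n / n)) + 1 + 4 ^ y))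
      ≤ 2 * (ψ m / m) * (Gc m n * kapgt y (Hc m n) * Ey y *
        ((2 * (Lr m n * (ψ n / n))) * (1 + (1 / 4) ^ y))) := by
        refine mul_le_mul_of_nonneg_left ?_ (by positivity)
        exact mul_le_mul_of_nonneg_left h2 (by positivity)
    _ = (2 * (ψ m / m) * (Gc m n * (2 * (Lr m n * (ψ n / n))))) * kapgt y (Hc m n) *
        (Ey y * (1 + (1 / 4) ^ y)) := by ring
    _ = _ := by rw [wt_mul ψ m n hm hn]

lemma CC_sharp (ψ : ℕ → ℝ) (hψ : ∀ n, 0 ≤ ψ n) (m n : ℕ) (hm : 0 < m) (hn : 0 < n)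
    (hmn : m ≠ n) (y : ℕ) (hy : 1 ≤ y)
    (hD1 : (16 : ℝ) ^ y ≤ DD ψ m n) (hD2 : DD ψ m n < 16 ^ (y + 1)) :
    CC ψ m n ≤ ENNReal.ofReal ((wt ψ m * wt ψ n) * kapgt y (Hc m n) *
      (Ey y * (1 + (1 / 4) ^ y))) := by
  rcases le_total (ψ m / m) (ψ n / n) with h | h
  · exact CC_sharp_aux ψ hψ m n hm hn hmn h y hy hD1 hD2
  · rw [CC_comm, Hc_comm, mul_comm (wt ψ m)]
    exact CC_sharp_aux ψ hψ n m hn hm hmn.symm h y hy (by rw [DD_comm]; exact hD1)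
      (by rw [DD_comm]; exact hD2)

lemma CC_diag (ψ : ℕ → ℝ) (hψ : ∀ n, 0 ≤ ψ n) (n : ℕ) (hn : 0 < n) :
    CC ψ n n ≤ ENNReal.ofReal (wt ψ n + 6 * wt ψ n ^ 2) := by
  have hδ : 0 ≤ ψ n / n := div_nonneg (hψ n) (by positivity)
  have hnR : (0 : ℝ) < n := by exact_mod_cast hn
  have h1 := integral_ff_mul_le n n hn hn (ψ n / n) (ψ n / n) hδ
    (Nat.totient n + n * phr n ^ 2 * (12 * (n * (ψ n / n))))
    (fun x hx => N_diag n hn (ψ n / n) x hδ hx.le)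
  refine h1.trans (ENNReal.ofReal_le_ofReal (le_of_eq ?_))
  unfold wt phr
  field_simp
  ring

end Pool.Agent.Helper69.DS
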