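import Mathlib
import Pool.Agent.Helper69.DS.Pair
import Pool.Agent.Helper69.DS.KM

set_option autoImplicit false

open Finset MeasureTheory
open scoped ENNReal

namespace Pool.Agent.Helper69.DS

lemma Hc_primeFactors_sub (m n t : ℕ) (hm : 0 < m) (hn : 0 < n) :
    (Hc m n).primeFactors.filter (fun p => t < p) ⊆
      (m * n).primeFactors.filter (fun p => t < p ∧ m.factorization p ≠ n.factorization p) := by
  intro p hp
  rw [Finset.mem_filter] at hp ⊢
  have hpp := Nat.prime_of_mem_primeFactors hp.1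
  have hdvd := Nat.dvd_of_mem_primeFactors hp.1
  have hg : Nat.gcd m n ≠ 0 := Nat.gcd_ne_zero_left hm.ne'
  unfold Hc at hdvd
  have hfm : (m / Nat.gcd m n).factorization p = m.factorization p - n.factorization p := by
    rw [Nat.factorization_div (Nat.gcd_dvd_left m n), Nat.factorization_gcd hm.ne' hn.ne']
    simp only [Finsupp.coe_tsub, Pi.sub_apply, Finsupp.inf_apply]
    omega
  have hfn : (n / Nat.gcd m n).factorization p = n.factorization p - m.factorization p := by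
    rw [Nat.factorization_div (Nat.gcd_dvd_right m n), Nat.factorization_gcd hm.ne' hn.ne']
    simp only [Finsupp.coe_tsub, Pi.sub_apply, Finsupp.inf_apply]
    omega
  have hm' : m / Nat.gcd m n ≠ 0 := by
    have := Nat.div_pos (Nat.le_of_dvd hm (Nat.gcd_dvd_left m n)) (Nat.pos_of_ne_zero hg)
    omega
  have hn' : n / Nat.gcd m n ≠ 0 := by
    have := Nat.div_pos (Nat.le_of_dvd hn (Nat.gcd_dvd_right m n)) (Nat.pos_of_ne_zero hg)
    omega
  refine ⟨?_, hp.2, ?_⟩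
  · rw [Nat.mem_primeFactors]
    refine ⟨hpp, ?_, by positivity⟩
    rcases (Nat.Prime.dvd_mul hpp).mp hdvd with h | h
    · exact Dvd.dvd.mul_right (h.trans (Nat.div_dvd_of_dvd (Nat.gcd_dvd_left m n))) n
    · exact Dvd.dvd.mul_left (h.trans (Nat.div_dvd_of_dvd (Nat.gcd_dvd_right m n))) m
  · rcases (Nat.Prime.dvd_mul hpp).mp hdvd with h | h
    · have := (Nat.Prime.dvd_iff_one_le_factorization hpp hm').mp h
      omega
    · have := (Nat.Prime.dvd_iff_one_le_factorization hpp hn').mp h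
      omega

/-- The bilinear bound in the form used for the bad pairs. -/
lemma km_pairs (R : ℝ) (hR : 1 ≤ R) : ∃ C : ℝ, 0 < C ∧
    ∀ (NN : Finset ℕ) (ψ : ℕ → ℝ) (d : ℕ) (E : Finset (ℕ × ℕ)) (T : ℝ) (t : ℕ) (σ : ℝ),
      (∀ n ∈ NN, 0 < n) → (∀ n, 0 ≤ ψ n) → (∀ n ∈ NN, wt ψ n ≤ 1) → 1 ≤ d →
      (∀ x ∈ E, x.1 ∈ NN ∧ x.2 ∈ NN) → 0 < T →
      (∀ x ∈ E, DD ψ x.1 x.2 ≤ T) → 0 ≤ σ → σ ≤ 1 →
      (∀ x ∈ E, σ ≤ ∑ p ∈ (Hc x.1 x.2).primeFactors.filter (fun p => t < p), (1 : ℝ) / p) →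
      (∑ x ∈ E, wt ψ x.1 ^ d * wt ψ x.2 ^ d) ^ 4 ≤
        C * T ^ 2 * R ^ (-(σ * t / 2)) * (∑ n ∈ NN, wt ψ n ^ d) ^ 6 := by
  obtain ⟨C, hC, hkm⟩ := km R hR
  refine ⟨4 * C, by positivity, ?_⟩
  intro NN ψ d E T t σ hNN hψ hwt hd hE hT hD hσ0 hσ1 hanat
  have hw0 : ∀ n, 0 ≤ wt ψ n := fun n => by
    unfold wt
    have := hψ n
    have := phr_nonneg n
    positivity
  have hwle : ∀ n ∈ NN, wt ψ n ^ d ≤ wt ψ n := by
    intro n hn
    calc wt ψ n ^ d ≤ wt ψ n ^ 1 := pow_le_pow_of_le_one (hw0 n) (hwt n hn) hd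
      _ = wt ψ n := pow_one _
  have hμψ : ∀ v ∈ NN, wt ψ v ^ d / (2 * T) ≤ ψ v / T * phr v := by
    intro v hv
    rw [div_mul_eq_mul_div, div_le_div_iff₀ (by positivity) hT]
    have h1 := hwle v hv
    have h2 : wt ψ v = 2 * ψ v * phr v := rfl
    calc wt ψ v ^ d * T ≤ wt ψ v * T := mul_le_mul_of_nonneg_right h1 hT.le
      _ = ψ v * phr v * (2 * T) := by rw [h2]; ring
  have h := hkm NN NN E (fun n => wt ψ n ^ d / (2 * T)) (fun n => wt ψ n ^ d / (2 * T))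
    (fun n => ψ n / T) (fun n => ψ n / T) t σ
    (fun v hv => (hNN v hv).ne') (fun v hv => (hNN v hv).ne') hE
    (fun v _ => by have := hw0 v; positivity) (fun v _ => by have := hw0 v; positivity)
    hμψ hμψ ?_ ?_ hσ0 hσ1 ?_
  · have h1 : ∑ x ∈ E, wt ψ x.1 ^ d / (2 * T) * (wt ψ x.2 ^ d / (2 * T)) =
        (∑ x ∈ E, wt ψ x.1 ^ d * wt ψ x.2 ^ d) / (4 * T ^ 2) := by
      rw [Finset.sum_div]
      refine Finset.sum_congr rfl fun x _ => ?_
      field_simp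
      ring
    have h2 : ∑ v ∈ NN, wt ψ v ^ d / (2 * T) = (∑ v ∈ NN, wt ψ v ^ d) / (2 * T) := by
      rw [Finset.sum_div]
    simp only at h
    rw [h1, h2] at h
    set Z := ∑ x ∈ E, wt ψ x.1 ^ d * wt ψ x.2 ^ d with hZ
    set S := ∑ v ∈ NN, wt ψ v ^ d with hS
    set r := R ^ (-(σ * t / 2)) with hr
    rw [div_pow, div_le_iff₀ (by positivity)] at h
    refine h.trans (le_of_eq ?_)
    field_simp
    ring
  · intro x hx
    have hD' := (le_max_right _ _).trans (hD x hx)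
    have hx1 := hNN x.1 (hE x hx).1
    have hg : (0 : ℝ) < Nat.gcd x.1 x.2 := by exact_mod_cast Nat.gcd_pos_of_pos_left _ hx1
    rw [Nat.cast_div (Nat.gcd_dvd_right x.1 x.2) hg.ne'] at hD'
    rw [mul_div_assoc', div_le_iff₀ hT]
    rw [div_mul_eq_mul_div, div_le_iff₀ hg] at hD'
    linarith
  · intro x hx
    have hD' := (le_max_left _ _).trans (hD x hx)
    have hx1 := hNN x.1 (hE x hx).1
    have hg : (0 : ℝ) < Nat.gcd x.1 x.2 := by exact_mod_cast Nat.gcd_pos_of_pos_left _ hx1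
    rw [Nat.cast_div (Nat.gcd_dvd_left x.1 x.2) hg.ne'] at hD'
    rw [mul_div_assoc', div_le_iff₀ hT]
    rw [div_mul_eq_mul_div, div_le_iff₀ hg] at hD'
    linarith
  · intro x hx
    refine (hanat x hx).trans ?_
    exact Finset.sum_le_sum_of_subset_of_nonneg
      (Hc_primeFactors_sub x.1 x.2 t (hNN _ (hE x hx).1) (hNN _ (hE x hx).2))
      (fun p _ _ => by positivity)

end Pool.Agent.Helper69.DS
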