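import Mathlib
import Pool.Agent.Helper69.DS.KMPairs

set_option autoImplicit false

open Finset MeasureTheory Filter
open scoped ENNReal Topology

namespace Pool.Agent.Helper69.DS

lemma Ey_tendsto : Tendsto (fun y : ℕ => Ey y) atTop (𝓝 1) := by
  unfold Ey
  suffices hsuff : Tendsto (fun y : ℕ => Real.log (2 * 16 ^ (y + 1)) / (y * Real.log ((y : ℝ) + 1)))
      atTop (𝓝 0) by
    have h := (Real.continuous_exp.tendsto 0).comp hsuff
    rw [Real.exp_zero] at h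
    exact h
  have hlog : Tendsto (fun y : ℕ => Real.log ((y : ℝ) + 1)) atTop atTop :=
    Real.tendsto_log_atTop.comp (tendsto_atTop_add_const_right _ _ tendsto_natCast_atTop_atTop)
  have h2 : Tendsto (fun y : ℕ => (Real.log 2 + 2 * Real.log 16) / Real.log ((y : ℝ) + 1)) atTop (𝓝 0) :=
    Tendsto.div_atTop tendsto_const_nhds hlog
  refine squeeze_zero' ?_ ?_ h2
  · filter_upwards [eventually_ge_atTop 1] with y hy
    have hyR : (1 : ℝ) ≤ y := by exact_mod_cast hy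
    have h1 : (1 : ℝ) ≤ 2 * 16 ^ (y + 1) := by
      have : (1 : ℝ) ≤ 16 ^ (y + 1) := one_le_pow₀ (by norm_num)
      linarith
    have h3 := Real.log_nonneg h1
    have h4 : 0 ≤ Real.log ((y : ℝ) + 1) := Real.log_nonneg (by linarith)
    positivity
  · filter_upwards [eventually_ge_atTop 1] with y hy
    have hyR : (1 : ℝ) ≤ y := by exact_mod_cast hy
    have hlogy : 0 < Real.log ((y : ℝ) + 1) := Real.log_pos (by linarith)
    have hl2 : 0 ≤ Real.log 2 := Real.log_nonneg (by norm_num)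
    have hl16 : 0 ≤ Real.log 16 := Real.log_nonneg (by norm_num)
    have h5 : Real.log (2 * 16 ^ (y + 1)) = Real.log 2 + (y + 1) * Real.log 16 := by
      rw [Real.log_mul (by norm_num) (by positivity), Real.log_pow]
      push_cast
      ring
    rw [h5, div_le_div_iff₀ (by positivity) hlogy]
    have h6 : Real.log 2 + ((y : ℝ) + 1) * Real.log 16 ≤ (Real.log 2 + 2 * Real.log 16) * y := by
      nlinarith
    calc (Real.log 2 + ((y : ℝ) + 1) * Real.log 16) * Real.log ((y : ℝ) + 1)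
        ≤ ((Real.log 2 + 2 * Real.log 16) * y) * Real.log ((y : ℝ) + 1) :=
          mul_le_mul_of_nonneg_right h6 hlogy.le
      _ = (Real.log 2 + 2 * Real.log 16) * (y * Real.log ((y : ℝ) + 1)) := by ring

lemma exists_eta (d : ℕ) (ε : ℝ) (hε : 0 < ε) : ∃ η : ℝ, 0 < η ∧ ((1 + η) ^ 2) ^ d ≤ 1 + ε := by
  have hcont : Continuous (fun η : ℝ => ((1 + η) ^ 2) ^ d) := by fun_prop
  have h1 : Tendsto (fun η : ℝ => ((1 + η) ^ 2) ^ d) (𝓝[>] 0) (𝓝 (((1 + 0) ^ 2) ^ d)) :=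
    (hcont.tendsto 0).mono_left nhdsWithin_le_nhds
  have h2 : (((1 : ℝ) + 0) ^ 2) ^ d < 1 + ε := by
    simp
    exact hε
  have h3 := h1.eventually (gt_mem_nhds h2)
  have h4 : ∀ᶠ η : ℝ in 𝓝[>] 0, 0 < η := eventually_mem_nhdsWithin
  obtain ⟨η, h5, h6⟩ := (h3.and h4).exists
  exact ⟨η, h6, h5.le⟩

lemma exists_y0 (η : ℝ) (hη : 0 < η) : ∃ y0 : ℕ, 1 ≤ y0 ∧ ∀ y, y0 ≤ y →
    Ey y * (1 + (1 / 4) ^ y) ≤ 1 + η := by
  have h1 : Tendsto (fun y : ℕ => Ey y * (1 + (1 / 4 : ℝ) ^ y)) atTop (𝓝 (1 * (1 + 0))) := by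
    refine Ey_tendsto.mul (tendsto_const_nhds.add ?_)
    exact tendsto_pow_atTop_nhds_zero_of_lt_one (by norm_num) (by norm_num)
  have h2 : (1 : ℝ) * (1 + 0) < 1 + η := by linarith
  have h3 := h1.eventually (gt_mem_nhds h2)
  rw [eventually_atTop] at h3
  obtain ⟨a, ha⟩ := h3
  exact ⟨max a 1, le_max_right _ _, fun y hy => (ha y ((le_max_left _ _).trans hy)).le⟩

/-- index of the scale -/
noncomputable def yi (ψ : ℕ → ℝ) (x : ℕ × ℕ) : ℕ := Nat.log 16 ⌊DD ψ x.1 x.2⌋₊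

/-- index of the anatomy -/
noncomputable def ti (x : ℕ × ℕ) : ℕ := ⌊kapgt 0 (Hc x.1 x.2) / 3⌋₊

lemma DD_lt_yi (ψ : ℕ → ℝ) (x : ℕ × ℕ) : DD ψ x.1 x.2 < 16 ^ (yi ψ x + 1) := by
  have h1 := Nat.lt_pow_succ_log_self (b := 16) (by norm_num) ⌊DD ψ x.1 x.2⌋₊
  have h2 : ((⌊DD ψ x.1 x.2⌋₊ : ℕ) : ℝ) + 1 ≤ 16 ^ (yi ψ x + 1) := by
    unfold yi
    exact_mod_cast h1
  exact (Nat.lt_floor_add_one _).trans_le h2

lemma yi_le_DD (ψ : ℕ → ℝ) (x : ℕ × ℕ) (h : 1 ≤ yi ψ x) : (16 : ℝ) ^ yi ψ x ≤ DD ψ x.1 x.2 := by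
  have h0 : ⌊DD ψ x.1 x.2⌋₊ ≠ 0 := by
    intro h0
    unfold yi at h
    rw [h0] at h
    simp at h
  have h1 := Nat.pow_log_le_self 16 h0
  have h2 : (16 : ℝ) ^ yi ψ x ≤ (⌊DD ψ x.1 x.2⌋₊ : ℕ) := by
    unfold yi
    exact_mod_cast h1
  refine h2.trans (Nat.floor_le ?_)
  by_contra hneg
  push Not at hneg
  exact h0 (Nat.floor_of_nonpos hneg.le)

lemma kap_lt_ti (x : ℕ × ℕ) : kapgt 0 (Hc x.1 x.2) < 3 * (ti x + 1) := by
  have := Nat.lt_floor_add_one (kapgt 0 (Hc x.1 x.2) / 3)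
  unfold ti
  linarith

lemma anat_ti (x : ℕ × ℕ) (h : 1 ≤ ti x) :
    1 / 2 ≤ ∑ p ∈ (Hc x.1 x.2).primeFactors.filter (fun p => ti x < p), (1 : ℝ) / p := by
  by_contra hcon
  push Not at hcon
  have h1 := kapgt_zero_le (ti x) (Hc x.1 x.2) h
  have h2 := kapgt_le_exp (ti x) (Hc x.1 x.2)
  have h3 : (ti x : ℝ) * 3 ≤ kapgt 0 (Hc x.1 x.2) := by
    have := Nat.floor_le (a := kapgt 0 (Hc x.1 x.2) / 3)
      (div_nonneg (zero_le_one.trans (one_le_kapgt _ _)) (by norm_num))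
    unfold ti
    linarith
  have ht0 : (0 : ℝ) < ti x := by
    have : 0 < ti x := by omega
    exact_mod_cast this
  have h4 : (3 : ℝ) ≤ kapgt (ti x) (Hc x.1 x.2) := by
    have h5 : (ti x : ℝ) * 3 ≤ ti x * kapgt (ti x) (Hc x.1 x.2) := h3.trans h1
    exact le_of_mul_le_mul_left h5 ht0
  have h6 : Real.exp (2 * ∑ p ∈ (Hc x.1 x.2).primeFactors.filter (fun p => ti x < p), (1 : ℝ) / p) ≤
      Real.exp 1 := Real.exp_le_exp.mpr (by linarith)
  have h7 := Real.exp_one_lt_three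
  linarith

/-- contribution of the bad pairs in one class -/
lemma class_bound (ε1 : ℝ) (hε1 : 0 < ε1) (hε1' : ε1 ≤ 1) (y0 : ℕ) : ∃ A : ℝ, 0 < A ∧
    ∀ (NN : Finset ℕ) (ψ : ℕ → ℝ) (d : ℕ) (y t : ℕ),
      (∀ n ∈ NN, 0 < n) → (∀ n, 0 ≤ ψ n) → (∀ n ∈ NN, wt ψ n ≤ 1) → 1 ≤ d →
      ∑ x ∈ (NN ×ˢ NN).filter (fun x => (y0 ≤ yi ψ x → ε1 ≤
        ∑ p ∈ (Hc x.1 x.2).primeFactors.filter (fun p => yi ψ x < p), (1 : ℝ) / p) ∧
        yi ψ x = y ∧ ti x = t), wt ψ x.1 ^ d * wt ψ x.2 ^ d ≤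
        A * ((1 / 2) ^ y * (1 / 2) ^ t) * q4 (∑ n ∈ NN, wt ψ n ^ d) ^ 6 := by
  classical
  set R : ℝ := 2 ^ (48 / ε1 + 32) with hRdef
  have hR1 : 1 ≤ R := Real.one_le_rpow (by norm_num) (by positivity)
  have hR0 : 0 < R := by linarith
  obtain ⟨C, hC, hkm⟩ := km_pairs R hR1
  have hRε : R ^ (-(ε1 / 4)) ≤ (1 / 4096 : ℝ) := by
    rw [hRdef, ← Real.rpow_mul (by norm_num)]
    have h1 : (48 / ε1 + 32) * -(ε1 / 4) = -(12 + 8 * ε1) := by
      field_simp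
      ring
    rw [h1, Real.rpow_neg (by norm_num), one_div]
    apply inv_anti₀ (by norm_num)
    calc (4096 : ℝ) = 2 ^ (12 : ℝ) := by norm_num
      _ ≤ 2 ^ (12 + 8 * ε1) := Real.rpow_le_rpow_of_exponent_le (by norm_num) (by linarith)
  have hRt : R ^ (-(1 / 8 : ℝ)) ≤ (1 / 16 : ℝ) := by
    rw [hRdef, ← Real.rpow_mul (by norm_num)]
    have h1 : (48 / ε1 + 32) * -(1 / 8 : ℝ) = -(4 + 6 / ε1) := by
      field_simp
      ring
    rw [h1, Real.rpow_neg (by norm_num), one_div]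
    apply inv_anti₀ (by norm_num)
    calc (16 : ℝ) = 2 ^ (4 : ℝ) := by norm_num
      _ ≤ 2 ^ (4 + 6 / ε1) := Real.rpow_le_rpow_of_exponent_le (by norm_num) (by
          have : 0 ≤ 6 / ε1 := by positivity
          linarith)
  set A0 : ℝ := C * 256 * R ^ (ε1 * y0 / 4) with hA0
  have hA0pos : 0 < A0 := by positivity
  have hq4pos : 0 < q4 A0 := by
    rcases eq_or_lt_of_le (q4_nonneg A0) with h | h
    · have := q4_pow hA0pos.le
      rw [← h] at this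
      norm_num at this
      linarith
    · exact h
  refine ⟨q4 A0, hq4pos, ?_⟩
  intro NN ψ d y t hNN hψ hwt hd
  set E := (NN ×ˢ NN).filter (fun x => (y0 ≤ yi ψ x → ε1 ≤
        ∑ p ∈ (Hc x.1 x.2).primeFactors.filter (fun p => yi ψ x < p), (1 : ℝ) / p) ∧
        yi ψ x = y ∧ ti x = t) with hE
  have hw0 : ∀ n, 0 ≤ wt ψ n := fun n => by
    unfold wt
    have := hψ n
    have := phr_nonneg n
    positivity
  have hEm : ∀ x ∈ E, x.1 ∈ NN ∧ x.2 ∈ NN := fun x hx =>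
    Finset.mem_product.mp (Finset.mem_filter.mp hx).1
  have hED : ∀ x ∈ E, DD ψ x.1 x.2 ≤ 16 ^ (y + 1) := by
    intro x hx
    have h1 := (DD_lt_yi ψ x).le
    rw [(Finset.mem_filter.mp hx).2.2.1] at h1
    exact h1
  set S := ∑ n ∈ NN, wt ψ n ^ d with hS
  have hS0 : 0 ≤ S := Finset.sum_nonneg fun n _ => pow_nonneg (hw0 n) d
  set Z := ∑ x ∈ E, wt ψ x.1 ^ d * wt ψ x.2 ^ d with hZ
  have hZ0 : 0 ≤ Z := Finset.sum_nonneg fun x _ =>
    mul_nonneg (pow_nonneg (hw0 _) d) (pow_nonneg (hw0 _) d)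
  -- choose the anatomy parameter
  obtain ⟨σ, τ, hσ0, hσ1, hστ, hanat⟩ : ∃ (σ : ℝ) (τ : ℕ), 0 ≤ σ ∧ σ ≤ 1 ∧
      ε1 * y / 4 + t / 8 - ε1 * y0 / 4 ≤ σ * τ / 2 ∧
      (∀ x ∈ E, σ ≤ ∑ p ∈ (Hc x.1 x.2).primeFactors.filter (fun p => τ < p), (1 : ℝ) / p) := by
    have hoptY : y0 ≤ y → ∀ x ∈ E, ε1 ≤
        ∑ p ∈ (Hc x.1 x.2).primeFactors.filter (fun p => y < p), (1 : ℝ) / p := by
      intro hy x hx
      have h1 := (Finset.mem_filter.mp hx).2
      have h2 := h1.1 (by rw [h1.2.1]; exact hy)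
      rw [h1.2.1] at h2
      exact h2
    have hoptT : 1 ≤ t → ∀ x ∈ E, 1 / 2 ≤
        ∑ p ∈ (Hc x.1 x.2).primeFactors.filter (fun p => t < p), (1 : ℝ) / p := by
      intro ht x hx
      have h1 := (Finset.mem_filter.mp hx).2
      have h2 := anat_ti x (by rw [h1.2.2]; exact ht)
      rw [h1.2.2] at h2
      exact h2
    have hyR : (0 : ℝ) ≤ y := by positivity
    have htR : (0 : ℝ) ≤ t := by positivity
    have hy0R : (0 : ℝ) ≤ y0 := by positivity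
    have hεy0 : 0 ≤ ε1 * y0 := by positivity
    have hεy : 0 ≤ ε1 * y := by positivity
    by_cases hy : y0 ≤ y
    · by_cases ht : 1 ≤ t
      · rcases le_total (ε1 * y / 2) ((t : ℝ) / 4) with h | h
        · exact ⟨1 / 2, t, by norm_num, by norm_num, by linarith, hoptT ht⟩
        · exact ⟨ε1, y, hε1.le, hε1', by linarith, hoptY hy⟩
      · have ht0 : t = 0 := by omega
        refine ⟨ε1, y, hε1.le, hε1', ?_, hoptY hy⟩
        rw [ht0]
        push_cast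
        linarith
    · push Not at hy
      have hyy : (y : ℝ) ≤ y0 := by exact_mod_cast hy.le
      have h3 : ε1 * y ≤ ε1 * y0 := mul_le_mul_of_nonneg_left hyy hε1.le
      by_cases ht : 1 ≤ t
      · exact ⟨1 / 2, t, by norm_num, by norm_num, by linarith, hoptT ht⟩
      · have ht0 : t = 0 := by omega
        refine ⟨0, 0, le_rfl, by norm_num, ?_, fun x _ => ?_⟩
        · rw [ht0]
          push_cast
          linarith
        · exact Finset.sum_nonneg fun p _ => by positivity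
  have h := hkm NN ψ d E (16 ^ (y + 1)) τ σ hNN hψ hwt hd hEm (by positivity) hED hσ0 hσ1 hanat
  have hRpow : R ^ (-(σ * τ / 2)) ≤ R ^ (ε1 * y0 / 4) * ((1 / 4096) ^ y * (1 / 16) ^ t) := by
    calc R ^ (-(σ * τ / 2)) ≤ R ^ (ε1 * y0 / 4 + (-(ε1 / 4) * y + -(1 / 8 : ℝ) * t)) :=
          Real.rpow_le_rpow_of_exponent_le hR1 (by linarith)
      _ = R ^ (ε1 * y0 / 4) * ((R ^ (-(ε1 / 4))) ^ y * (R ^ (-(1 / 8 : ℝ))) ^ t) := by
          rw [Real.rpow_add hR0, Real.rpow_add hR0, Real.rpow_mul hR0.le, Real.rpow_mul hR0.le,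
            Real.rpow_natCast, Real.rpow_natCast]
      _ ≤ R ^ (ε1 * y0 / 4) * ((1 / 4096) ^ y * (1 / 16) ^ t) := by
          refine mul_le_mul_of_nonneg_left ?_ (by positivity)
          refine mul_le_mul ?_ ?_ (by positivity) (by positivity)
          · exact pow_le_pow_left₀ (by positivity) hRε y
          · exact pow_le_pow_left₀ (by positivity) hRt t
  have h2 : Z ^ 4 ≤ (q4 A0 * ((1 / 2) ^ y * (1 / 2) ^ t) * q4 S ^ 6) ^ 4 := by
    have h3 : ∀ a b c s : ℝ, (a * (b * c) * s ^ 6) ^ 4 = a ^ 4 * (b ^ 4 * c ^ 4) * (s ^ 4) ^ 6 := by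
      intro a b c s
      ring
    have e1 : ∀ k : ℕ, ((1 / 2 : ℝ) ^ k) ^ 4 = (1 / 16) ^ k := by
      intro k
      rw [← pow_mul, mul_comm k 4, pow_mul]
      norm_num
    rw [h3, e1, e1, q4_pow hA0pos.le, q4_pow hS0]
    calc Z ^ 4 ≤ C * (16 ^ (y + 1)) ^ 2 * R ^ (-(σ * τ / 2)) * S ^ 6 := h
      _ ≤ C * (16 ^ (y + 1)) ^ 2 * (R ^ (ε1 * y0 / 4) * ((1 / 4096) ^ y * (1 / 16) ^ t)) * S ^ 6 := by
          refine mul_le_mul_of_nonneg_right ?_ (by positivity)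
          exact mul_le_mul_of_nonneg_left hRpow (by positivity)
      _ = A0 * (((16 : ℝ) ^ 2) ^ y * (1 / 4096) ^ y * (1 / 16) ^ t) * S ^ 6 := by
          have e3 : ((16 : ℝ) ^ (y + 1)) ^ 2 = 256 * ((16 : ℝ) ^ 2) ^ y := by
            rw [← pow_mul (16 : ℝ) 2 y, ← pow_mul]
            ring
          rw [hA0, e3]
          ring
      _ = A0 * ((1 / 16) ^ y * (1 / 16) ^ t) * S ^ 6 := by
          rw [← mul_pow]
          norm_num
  exact le_of_pow_le_pow_left₀ (by norm_num) (by have := q4_nonneg S; positivity) h2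

end Pool.Agent.Helper69.DS
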