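import Mathlib
import Pool.Agent.Helper69.DS.Second

set_option autoImplicit false

open Finset MeasureTheory Filter
open scoped ENNReal Topology

namespace Pool.Agent.Helper69.DS

/-- weights of the anatomy classes -/
noncomputable def gw (d : ℕ) (t : ℕ) : ℝ := (18 * ((t : ℝ) + 1)) ^ d * (1 / 2) ^ t

lemma gw_nonneg (d t : ℕ) : 0 ≤ gw d t := by unfold gw; positivity

lemma gw_summable (d : ℕ) : Summable (gw d) := by
  have h1 : Summable (fun n : ℕ => (n : ℝ) ^ d * (1 / 2 : ℝ) ^ n) :=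
    summable_pow_mul_geometric_of_norm_lt_one d (by norm_num)
  have h2 := (summable_nat_add_iff 1).mpr h1
  have h3 := h2.mul_left (2 * 18 ^ d)
  refine h3.congr fun t => ?_
  unfold gw
  rw [mul_pow]
  push_cast
  ring

lemma pair_bound (d : ℕ) (ε η ε1 : ℝ) (hε : 0 < ε) (hη : 0 < η)
    (hηd : ((1 + η) ^ 2) ^ d ≤ 1 + ε / 2) (hε1η : Real.exp (2 * ε1) ≤ 1 + η)
    (y0 : ℕ) (hy0 : 1 ≤ y0) (hEy : ∀ y, y0 ≤ y → Ey y * (1 + (1 / 4) ^ y) ≤ 1 + η)
    (NN : Finset ℕ) (ψ : ℕ → ℝ) (hNN : ∀ n ∈ NN, 0 < n) (hψ : ∀ n, 0 ≤ ψ n)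
    (hwt : ∀ n ∈ NN, wt ψ n ≤ 1) (x : ℕ × ℕ) (hx1 : x.1 ∈ NN) (hx2 : x.2 ∈ NN)
    [Decidable (y0 ≤ yi ψ x → ε1 ≤
      ∑ p ∈ (Hc x.1 x.2).primeFactors.filter (fun p => yi ψ x < p), (1 : ℝ) / p)] :
    CC ψ x.1 x.2 ^ d ≤ ENNReal.ofReal ((if x.1 = x.2 then 7 ^ d * wt ψ x.1 ^ d else 0) +
      (1 + ε / 2) * (wt ψ x.1 ^ d * wt ψ x.2 ^ d) +
      (if (y0 ≤ yi ψ x → ε1 ≤
        ∑ p ∈ (Hc x.1 x.2).primeFactors.filter (fun p => yi ψ x < p), (1 : ℝ) / p) then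
        (6 * kapgt 0 (Hc x.1 x.2)) ^ d * (wt ψ x.1 ^ d * wt ψ x.2 ^ d) else 0)) := by
  have hw0 : ∀ n, 0 ≤ wt ψ n := fun n => by
    unfold wt
    have := hψ n
    have := phr_nonneg n
    positivity
  have hkap : 0 ≤ kapgt 0 (Hc x.1 x.2) := zero_le_one.trans (one_le_kapgt _ _)
  have hu1 : 0 ≤ wt ψ x.1 ^ d := pow_nonneg (hw0 _) d
  have hu2 : 0 ≤ wt ψ x.2 ^ d := pow_nonneg (hw0 _) d
  have hthird : 0 ≤ (if (y0 ≤ yi ψ x → ε1 ≤
        ∑ p ∈ (Hc x.1 x.2).primeFactors.filter (fun p => yi ψ x < p), (1 : ℝ) / p) then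
        (6 * kapgt 0 (Hc x.1 x.2)) ^ d * (wt ψ x.1 ^ d * wt ψ x.2 ^ d) else 0) := by
    split_ifs
    · positivity
    · exact le_rfl
  by_cases hxx : x.1 = x.2
  · rw [if_pos hxx]
    have h1 := CC_diag ψ hψ x.1 (hNN _ hx1)
    have h2 : wt ψ x.1 + 6 * wt ψ x.1 ^ 2 ≤ 7 * wt ψ x.1 := by
      have h3 := hw0 x.1
      have h4 := hwt x.1 hx1
      nlinarith
    have h5 : CC ψ x.1 x.2 ≤ ENNReal.ofReal (7 * wt ψ x.1) := by
      rw [← hxx]
      exact h1.trans (ENNReal.ofReal_le_ofReal h2)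
    calc CC ψ x.1 x.2 ^ d ≤ ENNReal.ofReal (7 * wt ψ x.1) ^ d := by gcongr
      _ = ENNReal.ofReal (7 ^ d * wt ψ x.1 ^ d) := by
          rw [← ENNReal.ofReal_pow (by have := hw0 x.1; positivity), mul_pow]
      _ ≤ _ := by
          apply ENNReal.ofReal_le_ofReal
          have : 0 ≤ (1 + ε / 2) * (wt ψ x.1 ^ d * wt ψ x.2 ^ d) := by positivity
          linarith
  · rw [if_neg hxx]
    by_cases hbad : (y0 ≤ yi ψ x → ε1 ≤
        ∑ p ∈ (Hc x.1 x.2).primeFactors.filter (fun p => yi ψ x < p), (1 : ℝ) / p)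
    · rw [if_pos hbad]
      have h1 := CC_crude ψ hψ x.1 x.2 (hNN _ hx1) (hNN _ hx2) hxx
      have hnn : 0 ≤ 6 * (wt ψ x.1 * wt ψ x.2) * kapgt 0 (Hc x.1 x.2) := by
        have := hw0 x.1
        have := hw0 x.2
        positivity
      calc CC ψ x.1 x.2 ^ d ≤ ENNReal.ofReal (6 * (wt ψ x.1 * wt ψ x.2) * kapgt 0 (Hc x.1 x.2)) ^ d := by
            gcongr
        _ = ENNReal.ofReal ((6 * kapgt 0 (Hc x.1 x.2)) ^ d * (wt ψ x.1 ^ d * wt ψ x.2 ^ d)) := by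
            rw [← ENNReal.ofReal_pow hnn]
            congr 1
            rw [← mul_pow, ← mul_pow]
            congr 1
            ring
        _ ≤ _ := by
            apply ENNReal.ofReal_le_ofReal
            have : 0 ≤ (1 + ε / 2) * (wt ψ x.1 ^ d * wt ψ x.2 ^ d) := by positivity
            linarith
    · rw [if_neg hbad]
      push Not at hbad
      obtain ⟨hb1, hb2⟩ := hbad
      have hyi : 1 ≤ yi ψ x := hy0.trans hb1
      have h1 := CC_sharp ψ hψ x.1 x.2 (hNN _ hx1) (hNN _ hx2) hxx (yi ψ x) hyi (yi_le_DD ψ x hyi)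
        (DD_lt_yi ψ x)
      have h2 : kapgt (yi ψ x) (Hc x.1 x.2) ≤ 1 + η := by
        refine (kapgt_le_exp _ _).trans (le_trans ?_ hε1η)
        apply Real.exp_le_exp.mpr
        linarith
      have h3 := hEy (yi ψ x) hb1
      have hk0 : 0 ≤ kapgt (yi ψ x) (Hc x.1 x.2) := zero_le_one.trans (one_le_kapgt _ _)
      have hE0 : 0 ≤ Ey (yi ψ x) * (1 + (1 / 4) ^ (yi ψ x)) := by
        have := zero_le_one.trans (one_le_Ey (yi ψ x))
        positivity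
      have hww : 0 ≤ wt ψ x.1 * wt ψ x.2 := mul_nonneg (hw0 _) (hw0 _)
      have h4 : (wt ψ x.1 * wt ψ x.2) * kapgt (yi ψ x) (Hc x.1 x.2) *
          (Ey (yi ψ x) * (1 + (1 / 4) ^ (yi ψ x))) ≤ (1 + η) ^ 2 * (wt ψ x.1 * wt ψ x.2) := by
        calc (wt ψ x.1 * wt ψ x.2) * kapgt (yi ψ x) (Hc x.1 x.2) *
            (Ey (yi ψ x) * (1 + (1 / 4) ^ (yi ψ x)))
            ≤ (wt ψ x.1 * wt ψ x.2) * (1 + η) * (1 + η) := by
              refine mul_le_mul (mul_le_mul_of_nonneg_left h2 hww) h3 hE0 (by positivity)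
          _ = _ := by ring
      have h5 := h1.trans (ENNReal.ofReal_le_ofReal h4)
      calc CC ψ x.1 x.2 ^ d ≤ ENNReal.ofReal ((1 + η) ^ 2 * (wt ψ x.1 * wt ψ x.2)) ^ d := by gcongr
        _ = ENNReal.ofReal (((1 + η) ^ 2) ^ d * (wt ψ x.1 ^ d * wt ψ x.2 ^ d)) := by
            rw [← ENNReal.ofReal_pow (by positivity), mul_pow, mul_pow]
        _ ≤ _ := by
            apply ENNReal.ofReal_le_ofReal
            have : ((1 + η) ^ 2) ^ d * (wt ψ x.1 ^ d * wt ψ x.2 ^ d) ≤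
                (1 + ε / 2) * (wt ψ x.1 ^ d * wt ψ x.2 ^ d) :=
              mul_le_mul_of_nonneg_right hηd (by positivity)
            linarith

/-- Second moment bound. -/
theorem second_moment (d : ℕ) (hd : 1 ≤ d) (ε : ℝ) (hε : 0 < ε) : ∃ S0 : ℝ, 0 < S0 ∧
    ∀ (NN : Finset ℕ) (ψ : ℕ → ℝ), (∀ n ∈ NN, 0 < n) → (∀ n, 0 ≤ ψ n) →
      (∀ n ∈ NN, wt ψ n ≤ 1) → S0 ≤ ∑ n ∈ NN, wt ψ n ^ d →
      ∑ m ∈ NN, ∑ n ∈ NN, CC ψ m n ^ d ≤
        ENNReal.ofReal ((1 + ε) * (∑ n ∈ NN, wt ψ n ^ d) ^ 2) := by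
  classical
  obtain ⟨η, hη, hηd⟩ := exists_eta d (ε / 2) (by positivity)
  obtain ⟨y0, hy0, hEy⟩ := exists_y0 η hη
  set ε1 := min (Real.log (1 + η) / 2) 1 with hε1
  have hlog : 0 < Real.log (1 + η) := Real.log_pos (by linarith)
  have hε1pos : 0 < ε1 := lt_min (by positivity) one_pos
  have hε1le : ε1 ≤ 1 := min_le_right _ _
  have hε1η : Real.exp (2 * ε1) ≤ 1 + η := by
    have h1 : 2 * ε1 ≤ Real.log (1 + η) := by
      have := min_le_left (Real.log (1 + η) / 2) 1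
      linarith
    calc Real.exp (2 * ε1) ≤ Real.exp (Real.log (1 + η)) := Real.exp_le_exp.mpr h1
      _ = 1 + η := Real.exp_log (by linarith)
  obtain ⟨A, hA, hclass⟩ := class_bound ε1 hε1pos hε1le y0
  set Sd := ∑' t, gw d t with hSd
  have hSd0 : 0 ≤ Sd := tsum_nonneg (gw_nonneg d)
  set K := A * 2 * Sd with hK
  have hK0 : 0 ≤ K := by positivity
  set a := max 1 (2 * (7 ^ d + K) / ε) with ha
  have ha1 : 1 ≤ a := le_max_left _ _
  refine ⟨a ^ 4, by positivity, ?_⟩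
  intro NN ψ hNN hψ hwt hS0
  have hw0 : ∀ n, 0 ≤ wt ψ n := fun n => by
    unfold wt
    have := hψ n
    have := phr_nonneg n
    positivity
  set S := ∑ n ∈ NN, wt ψ n ^ d with hS
  have hSnn : 0 ≤ S := Finset.sum_nonneg fun n _ => pow_nonneg (hw0 n) d
  set s := q4 S with hs
  have hs4 : s ^ 4 = S := q4_pow hSnn
  have hs0 : 0 ≤ s := q4_nonneg S
  have hsa : a ≤ s := by
    have h1 : a ^ 4 ≤ s ^ 4 := by rw [hs4]; exact hS0
    exact le_of_pow_le_pow_left₀ (by norm_num) hs0 h1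
  set bad : ℕ × ℕ → Prop := fun x => (y0 ≤ yi ψ x → ε1 ≤
        ∑ p ∈ (Hc x.1 x.2).primeFactors.filter (fun p => yi ψ x < p), (1 : ℝ) / p) with hbad
  set c : ℕ × ℕ → ℝ := fun x => (if x.1 = x.2 then 7 ^ d * wt ψ x.1 ^ d else 0) +
      (1 + ε / 2) * (wt ψ x.1 ^ d * wt ψ x.2 ^ d) +
      (if bad x then (6 * kapgt 0 (Hc x.1 x.2)) ^ d * (wt ψ x.1 ^ d * wt ψ x.2 ^ d) else 0) with hc
  have hu : ∀ n, 0 ≤ wt ψ n ^ d := fun n => pow_nonneg (hw0 n) d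
  have hc0 : ∀ x, 0 ≤ c x := by
    intro x
    rw [hc]
    simp only
    have h1 := hu x.1
    have h2 := hu x.2
    have h3 : 0 ≤ kapgt 0 (Hc x.1 x.2) := zero_le_one.trans (one_le_kapgt _ _)
    have h4 : 0 ≤ (if x.1 = x.2 then 7 ^ d * wt ψ x.1 ^ d else 0) := by
      split_ifs
      · positivity
      · exact le_rfl
    have h5 : 0 ≤ (if bad x then (6 * kapgt 0 (Hc x.1 x.2)) ^ d * (wt ψ x.1 ^ d * wt ψ x.2 ^ d)
        else 0) := by
      split_ifs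
      · positivity
      · exact le_rfl
    positivity
  have hsum : ∑ m ∈ NN, ∑ n ∈ NN, CC ψ m n ^ d ≤ ENNReal.ofReal (∑ x ∈ NN ×ˢ NN, c x) := by
    rw [← Finset.sum_product', ENNReal.ofReal_sum_of_nonneg (fun x _ => hc0 x)]
    refine Finset.sum_le_sum fun x hx => ?_
    rw [Finset.mem_product] at hx
    exact pair_bound d ε η ε1 hε hη hηd hε1η y0 hy0 hEy NN ψ hNN hψ hwt x hx.1 hx.2
  refine hsum.trans (ENNReal.ofReal_le_ofReal ?_)
  rw [hc]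
  simp only
  rw [Finset.sum_add_distrib, Finset.sum_add_distrib]
  -- diagonal
  have hdiag : ∑ x ∈ NN ×ˢ NN, (if x.1 = x.2 then 7 ^ d * wt ψ x.1 ^ d else 0) = 7 ^ d * S := by
    rw [Finset.sum_product]
    simp only
    rw [hS, Finset.mul_sum]
    refine Finset.sum_congr rfl fun m hm => ?_
    rw [Finset.sum_ite_eq]
    rw [if_pos hm]
  -- main term
  have hmain : ∑ x ∈ NN ×ˢ NN, (1 + ε / 2) * (wt ψ x.1 ^ d * wt ψ x.2 ^ d) = (1 + ε / 2) * S ^ 2 := by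
    rw [← Finset.mul_sum, Finset.sum_product' NN NN (fun m n => wt ψ m ^ d * wt ψ n ^ d),
      ← Finset.sum_mul_sum, ← hS]
    ring
  -- bad pairs
  have hbadsum : ∑ x ∈ NN ×ˢ NN, (if bad x then
      (6 * kapgt 0 (Hc x.1 x.2)) ^ d * (wt ψ x.1 ^ d * wt ψ x.2 ^ d) else 0) ≤ K * s ^ 6 := by
    rw [← Finset.sum_filter]
    set Bd := (NN ×ˢ NN).filter bad with hBd
    set Y := Bd.sup (yi ψ) + 1 with hY
    set T := Bd.sup ti + 1 with hT
    have hmaps : ∀ x ∈ Bd, (yi ψ x, ti x) ∈ range Y ×ˢ range T := by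
      intro x hx
      rw [Finset.mem_product, Finset.mem_range, Finset.mem_range]
      exact ⟨Nat.lt_succ_of_le (Finset.le_sup (f := yi ψ) hx),
        Nat.lt_succ_of_le (Finset.le_sup (f := ti) hx)⟩
    rw [← Finset.sum_fiberwise_of_maps_to hmaps]
    have hfib : ∀ b ∈ range Y ×ˢ range T, ∑ x ∈ Bd.filter (fun x => (yi ψ x, ti x) = b),
        (6 * kapgt 0 (Hc x.1 x.2)) ^ d * (wt ψ x.1 ^ d * wt ψ x.2 ^ d) ≤
        A * s ^ 6 * ((1 / 2) ^ b.1 * gw d b.2) := by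
      intro b _
      have h1 : Bd.filter (fun x => (yi ψ x, ti x) = b) =
          (NN ×ˢ NN).filter (fun x => (y0 ≤ yi ψ x → ε1 ≤
            ∑ p ∈ (Hc x.1 x.2).primeFactors.filter (fun p => yi ψ x < p), (1 : ℝ) / p) ∧
            yi ψ x = b.1 ∧ ti x = b.2) := by
        rw [hBd, Finset.filter_filter]
        apply Finset.filter_congr
        intro x _
        rw [hbad]
        constructor
        · rintro ⟨h1, h2⟩
          exact ⟨h1, by rw [← h2], by rw [← h2]⟩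
        · rintro ⟨h1, h2, h3⟩
          exact ⟨h1, by rw [h2, h3]⟩
      have h2 := hclass NN ψ d b.1 b.2 hNN hψ hwt hd
      rw [h1]
      calc _ ≤ ∑ x ∈ (NN ×ˢ NN).filter (fun x => (y0 ≤ yi ψ x → ε1 ≤
            ∑ p ∈ (Hc x.1 x.2).primeFactors.filter (fun p => yi ψ x < p), (1 : ℝ) / p) ∧
            yi ψ x = b.1 ∧ ti x = b.2), (18 * ((b.2 : ℝ) + 1)) ^ d * (wt ψ x.1 ^ d * wt ψ x.2 ^ d) := by
            refine Finset.sum_le_sum fun x hx => ?_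
            have h3 := (kap_lt_ti x).le
            rw [(Finset.mem_filter.mp hx).2.2.2] at h3
            have h4 := hu x.1
            have h5 := hu x.2
            refine mul_le_mul_of_nonneg_right ?_ (by positivity)
            refine pow_le_pow_left₀ (by
              have : 0 ≤ kapgt 0 (Hc x.1 x.2) := zero_le_one.trans (one_le_kapgt _ _)
              positivity) ?_ d
            linarith
        _ = (18 * ((b.2 : ℝ) + 1)) ^ d * ∑ x ∈ (NN ×ˢ NN).filter (fun x => (y0 ≤ yi ψ x → ε1 ≤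
            ∑ p ∈ (Hc x.1 x.2).primeFactors.filter (fun p => yi ψ x < p), (1 : ℝ) / p) ∧
            yi ψ x = b.1 ∧ ti x = b.2), (wt ψ x.1 ^ d * wt ψ x.2 ^ d) := by rw [Finset.mul_sum]
        _ ≤ (18 * ((b.2 : ℝ) + 1)) ^ d * (A * ((1 / 2) ^ b.1 * (1 / 2) ^ b.2) * s ^ 6) :=
            mul_le_mul_of_nonneg_left h2 (by positivity)
        _ = A * s ^ 6 * ((1 / 2) ^ b.1 * gw d b.2) := by unfold gw; ring
    refine (Finset.sum_le_sum hfib).trans ?_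
    rw [← Finset.mul_sum, Finset.sum_product' (range Y) (range T) (fun y t => (1 / 2 : ℝ) ^ y * gw d t),
      ← Finset.sum_mul_sum]
    have h6 : ∑ y ∈ range Y, (1 / 2 : ℝ) ^ y ≤ 2 := by
      have h7 := sum_le_hasSum (range Y) (fun i _ => by positivity) (hasSum_geometric_two)
      exact h7
    have h8 : ∑ t ∈ range T, gw d t ≤ Sd :=
      (gw_summable d).sum_le_tsum _ (fun i _ => gw_nonneg d i)
    have h9 : (∑ y ∈ range Y, (1 / 2 : ℝ) ^ y) * ∑ t ∈ range T, gw d t ≤ 2 * Sd :=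
      mul_le_mul h6 h8 (Finset.sum_nonneg fun t _ => gw_nonneg d t) (by norm_num)
    calc A * s ^ 6 * ((∑ y ∈ range Y, (1 / 2 : ℝ) ^ y) * ∑ t ∈ range T, gw d t)
        ≤ A * s ^ 6 * (2 * Sd) := mul_le_mul_of_nonneg_left h9 (by positivity)
      _ = K * s ^ 6 := by rw [hK]; ring
  rw [hdiag, hmain]
  have hs1 : 1 ≤ s := ha1.trans hsa
  have h10 : (7 ^ d + K) ≤ ε / 2 * s ^ 2 := by
    have h11 : 2 * (7 ^ d + K) / ε ≤ s := (le_max_right _ _).trans hsa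
    rw [div_le_iff₀ hε] at h11
    have h12 : s ≤ s ^ 2 := by nlinarith
    nlinarith
  have h13 : 7 ^ d * S + K * s ^ 6 ≤ ε / 2 * S ^ 2 := by
    have h14 : S ≤ s ^ 6 := by
      rw [← hs4]
      exact pow_le_pow_right₀ hs1 (by norm_num)
    have h15 : 7 ^ d * S ≤ 7 ^ d * s ^ 6 := mul_le_mul_of_nonneg_left h14 (by positivity)
    have h16 : (7 ^ d + K) * s ^ 6 ≤ (ε / 2 * s ^ 2) * s ^ 6 :=
      mul_le_mul_of_nonneg_right h10 (by positivity)
    have h17 : (ε / 2 * s ^ 2) * s ^ 6 = ε / 2 * S ^ 2 := by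
      rw [← hs4]; ring
    linarith
  linarith

end Pool.Agent.Helper69.DS
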