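import Mathlib
import Pool.Agent.Helper69.DS.Moment

set_option autoImplicit false

open Finset MeasureTheory Filter
open scoped ENNReal Topology

namespace Pool.Agent.Helper69.DS

/-- the cube measure -/
noncomputable def Pd (d : ℕ) : Measure (Fin d → ℝ) :=
  Measure.pi (fun _ : Fin d => (volume : Measure ℝ).restrict (Set.Ioc (0 : ℝ) 1))

/-- product counting function -/
noncomputable def FF (d : ℕ) (ψ : ℕ → ℝ) (n : ℕ) (x : Fin d → ℝ) : ℝ≥0∞ :=
  ∏ i, ff n (ψ n / n) (x i)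

lemma measurable_FF (d : ℕ) (ψ : ℕ → ℝ) (n : ℕ) : Measurable (FF d ψ n) := by
  unfold FF
  exact Finset.measurable_prod _ (fun i _ => (measurable_ff n _).comp (measurable_pi_apply i))

lemma FF_int (d : ℕ) (ψ : ℕ → ℝ) (n : ℕ) (hn : 0 < n) :
    ∫⁻ x, FF d ψ n x ∂(Pd d) = ENNReal.ofReal (wt ψ n) ^ d := by
  unfold FF Pd
  rw [lintegral_fin_prod (fun _ => ff n (ψ n / n)) (fun _ => measurable_ff n _),
    Finset.prod_const, Finset.card_univ, Fintype.card_fin, integral_ff n hn]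
  congr 1
  rw [← ENNReal.ofReal_natCast, ← ENNReal.ofReal_mul' (by positivity)]
  congr 1
  unfold wt phr
  ring

lemma FF_mul_int (d : ℕ) (ψ : ℕ → ℝ) (m n : ℕ) :
    ∫⁻ x, FF d ψ m x * FF d ψ n x ∂(Pd d) = CC ψ m n ^ d := by
  unfold FF Pd
  simp_rw [← Finset.prod_mul_distrib]
  rw [lintegral_fin_prod (fun _ y => ff m (ψ m / m) y * ff n (ψ n / n) y)
    (fun _ => (measurable_ff m _).mul (measurable_ff n _)),
    Finset.prod_const, Finset.card_univ, Fintype.card_fin]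
  rfl

lemma chebyshev (d : ℕ) (F : (Fin d → ℝ) → ℝ≥0∞) (hF : Measurable F) :
    (∫⁻ x, F x ∂(Pd d)) ^ 2 ≤ Pd d {x | F x ≠ 0} * ∫⁻ x, F x * F x ∂(Pd d) := by
  have hU : MeasurableSet {x | F x ≠ 0} := (hF (measurableSet_singleton 0)).compl
  set g : (Fin d → ℝ) → ℝ≥0∞ := Set.indicator {x | F x ≠ 0} (fun _ => 1) with hg
  have hgm : Measurable g := measurable_const.indicator hU
  have h1 : ∀ x, F x = (F * g) x := by
    intro x
    rw [Pi.mul_apply, hg]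
    by_cases h : F x ≠ 0
    · rw [Set.indicator_of_mem (by exact h), mul_one]
    · push Not at h
      rw [h, zero_mul]
  have h2 := ENNReal.lintegral_mul_le_Lp_mul_Lq (Pd d) Real.HolderConjugate.two_two
    hF.aemeasurable hgm.aemeasurable
  have h3 : ∫⁻ x, F x ∂(Pd d) = ∫⁻ x, (F * g) x ∂(Pd d) := lintegral_congr h1
  have h4 : ∫⁻ x, g x ^ (2 : ℝ) ∂(Pd d) = Pd d {x | F x ≠ 0} := by
    rw [← lintegral_indicator_one hU]
    refine lintegral_congr fun x => ?_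
    rw [hg]
    by_cases h : F x ≠ 0
    · rw [Set.indicator_of_mem (by exact h), Set.indicator_of_mem (by exact h)]
      simp
    · rw [Set.indicator_of_notMem (by exact h), Set.indicator_of_notMem (by exact h)]
      simp
  have h5 : ∫⁻ x, F x ^ (2 : ℝ) ∂(Pd d) = ∫⁻ x, F x * F x ∂(Pd d) := by
    refine lintegral_congr fun x => ?_
    rw [ENNReal.rpow_two, sq]
  rw [h4, h5] at h2
  rw [h3]
  have h6 : ∀ z : ℝ≥0∞, (z ^ (1 / 2 : ℝ)) ^ 2 = z := by
    intro z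
    rw [← ENNReal.rpow_natCast, ← ENNReal.rpow_mul]
    norm_num
  calc (∫⁻ x, (F * g) x ∂(Pd d)) ^ 2
      ≤ ((∫⁻ x, F x * F x ∂(Pd d)) ^ (1 / 2 : ℝ) * (Pd d {x | F x ≠ 0}) ^ (1 / 2 : ℝ)) ^ 2 := by
        gcongr
    _ = Pd d {x | F x ≠ 0} * ∫⁻ x, F x * F x ∂(Pd d) := by
        rw [mul_pow, h6, h6, mul_comm]

/-- Lower bound for the measure of the union. -/
theorem union_lower (d : ℕ) (hd : 1 ≤ d) (ε : ℝ) (hε : 0 < ε) : ∃ S0 : ℝ, 0 < S0 ∧
    ∀ (NN : Finset ℕ) (ψ : ℕ → ℝ), (∀ n ∈ NN, 0 < n) → (∀ n, 0 ≤ ψ n) →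
      (∀ n ∈ NN, wt ψ n ≤ 1) → S0 ≤ ∑ n ∈ NN, wt ψ n ^ d →
      ENNReal.ofReal (1 / (1 + ε)) ≤ Pd d {x | ∑ n ∈ NN, FF d ψ n x ≠ 0} := by
  obtain ⟨S0, hS0, h2m⟩ := second_moment d hd ε hε
  refine ⟨S0, hS0, ?_⟩
  intro NN ψ hNN hψ hwt hS
  have hw0 : ∀ n, 0 ≤ wt ψ n := fun n => by
    unfold wt
    have := hψ n
    have := phr_nonneg n
    positivity
  have h1 := h2m NN ψ hNN hψ hwt hS
  set S := ∑ n ∈ NN, wt ψ n ^ d with hSdef
  have hSpos : 0 < S := hS0.trans_le hS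
  set F : (Fin d → ℝ) → ℝ≥0∞ := fun x => ∑ n ∈ NN, FF d ψ n x with hF
  have hFm : Measurable F := Finset.measurable_sum _ (fun n _ => measurable_FF d ψ n)
  have hFint : ∫⁻ x, F x ∂(Pd d) = ENNReal.ofReal S := by
    rw [hF]
    simp only
    rw [lintegral_finsetSum _ (fun n _ => measurable_FF d ψ n), hSdef,
      ENNReal.ofReal_sum_of_nonneg (fun n _ => pow_nonneg (hw0 n) d)]
    refine Finset.sum_congr rfl fun n hn => ?_
    rw [FF_int d ψ n (hNN n hn), ENNReal.ofReal_pow (hw0 n)]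
  have hF2 : ∫⁻ x, F x * F x ∂(Pd d) = ∑ m ∈ NN, ∑ n ∈ NN, CC ψ m n ^ d := by
    have h3 : ∀ x, F x * F x = ∑ m ∈ NN, ∑ n ∈ NN, FF d ψ m x * FF d ψ n x := by
      intro x
      rw [hF]
      simp only
      rw [Finset.sum_mul_sum]
    have hmn : ∀ m n, Measurable (fun x : Fin d → ℝ => FF d ψ m x * FF d ψ n x) :=
      fun m n => (measurable_FF d ψ m).mul (measurable_FF d ψ n)
    have hm : ∀ m, Measurable (fun x : Fin d → ℝ => ∑ n ∈ NN, FF d ψ m x * FF d ψ n x) :=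
      fun m => Finset.measurable_sum _ (fun n _ => hmn m n)
    rw [lintegral_congr h3, lintegral_finsetSum NN (fun m _ => hm m)]
    refine Finset.sum_congr rfl fun m _ => ?_
    rw [lintegral_finsetSum NN (fun n _ => hmn m n)]
    exact Finset.sum_congr rfl fun n _ => FF_mul_int d ψ m n
  have h4 := chebyshev d F hFm
  rw [hFint, hF2] at h4
  have h5 : ENNReal.ofReal (1 / (1 + ε)) * ENNReal.ofReal ((1 + ε) * S ^ 2) ≤
      Pd d {x | F x ≠ 0} * ENNReal.ofReal ((1 + ε) * S ^ 2) := by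
    calc ENNReal.ofReal (1 / (1 + ε)) * ENNReal.ofReal ((1 + ε) * S ^ 2)
        = ENNReal.ofReal S ^ 2 := by
          rw [← ENNReal.ofReal_mul (by positivity), ← ENNReal.ofReal_pow hSpos.le]
          congr 1
          field_simp
      _ ≤ Pd d {x | F x ≠ 0} * ∑ m ∈ NN, ∑ n ∈ NN, CC ψ m n ^ d := h4
      _ ≤ _ := by gcongr
  have hne : ENNReal.ofReal ((1 + ε) * S ^ 2) ≠ 0 := by
    rw [Ne, ENNReal.ofReal_eq_zero, not_le]
    positivity
  exact (ENNReal.mul_le_mul_iff_left hne ENNReal.ofReal_ne_top).mp h5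

/-- the one-dimensional set -/
def E1 (ψ : ℕ → ℝ) (n : ℕ) : Set ℝ :=
  {y : ℝ | y ∈ Set.Icc (0 : ℝ) 1 ∧ ∃ a : ℤ, Int.gcd a n = 1 ∧ |y - (a : ℝ) / n| < ψ n / n}

lemma volume_E1_le (ψ : ℕ → ℝ) (n : ℕ) (hn : 0 < n) :
    volume (E1 ψ n) ≤ ENNReal.ofReal (min (wt ψ n) 1) := by
  have hsub : E1 ψ n ⊆ Set.Icc (0 : ℝ) 1 := fun y hy => hy.1
  have h1 : volume (E1 ψ n) ≤ 1 := by
    calc volume (E1 ψ n) ≤ volume (Set.Icc (0 : ℝ) 1) := measure_mono hsub
      _ = 1 := by rw [Real.volume_Icc]; simp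
  have h2 : volume (E1 ψ n) ≤ ENNReal.ofReal (wt ψ n) := by
    have h3 : volume (E1 ψ n) ≤ volume (E1 ψ n ∩ Set.Ioc (0 : ℝ) 1) + volume ({0} : Set ℝ) := by
      refine (measure_mono ?_).trans (measure_union_le _ _)
      intro y hy
      rcases eq_or_lt_of_le hy.1.1 with h | h
      · right; exact h.symm
      · left; exact ⟨hy, h, hy.1.2⟩
    rw [Real.volume_singleton, add_zero] at h3
    refine h3.trans ?_
    have hmeas : MeasurableSet {y : ℝ | ff n (ψ n / n) y ≠ 0} :=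
      ((measurable_ff n _) (measurableSet_singleton 0)).compl
    have h4 : volume (E1 ψ n ∩ Set.Ioc (0 : ℝ) 1) ≤
        (volume.restrict (Set.Ioc (0 : ℝ) 1)) {y : ℝ | ff n (ψ n / n) y ≠ 0} := by
      rw [Measure.restrict_apply hmeas]
      apply measure_mono
      rintro y ⟨hy1, hy2⟩
      refine ⟨?_, hy2⟩
      exact (ff_pos_iff n _ y).mpr hy1.2
    refine h4.trans ?_
    calc (volume.restrict (Set.Ioc (0 : ℝ) 1)) {y : ℝ | ff n (ψ n / n) y ≠ 0}
        = ∫⁻ y in Set.Ioc (0 : ℝ) 1, Set.indicator {y : ℝ | ff n (ψ n / n) y ≠ 0} 1 y := by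
          rw [lintegral_indicator_one hmeas]
      _ ≤ ∫⁻ y in Set.Ioc (0 : ℝ) 1, ff n (ψ n / n) y := by
          apply lintegral_mono
          intro y
          simp only
          by_cases h : ff n (ψ n / n) y ≠ 0
          · rw [Set.indicator_of_mem (by exact h), Pi.one_apply, ff_eq_card n hn]
            rw [ff_eq_card n hn] at h
            have h5 : (Bset n (ψ n / n) y).card ≠ 0 := by
              intro h0
              rw [h0] at h
              simp at h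
            exact_mod_cast Nat.one_le_iff_ne_zero.mpr h5
          · rw [Set.indicator_of_notMem (by exact h)]
            exact bot_le
      _ = ENNReal.ofReal (wt ψ n) := by
          rw [integral_ff n hn, ← ENNReal.ofReal_natCast, ← ENNReal.ofReal_mul' (by positivity)]
          congr 1
          unfold wt phr
          ring
  rcases le_total (wt ψ n) 1 with h | h
  · rw [min_eq_left h]; exact h2
  · rw [min_eq_right h, ENNReal.ofReal_one]; exact h1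

lemma set_eq_pi (d : ℕ) (ψ : ℕ → ℝ) (n : ℕ) :
    {x : Fin d → ℝ | ∀ i, x i ∈ Set.Icc (0 : ℝ) 1 ∧
            ∃ a : ℤ, Int.gcd a (n : ℤ) = 1 ∧
              |x i - (a : ℝ) / (n : ℝ)| < ψ n / (n : ℝ)} =
      Set.pi Set.univ (fun _ : Fin d => E1 ψ n) := by
  ext x
  simp only [Set.mem_pi, Set.mem_univ, true_implies]
  rfl

/-- The main theorem, for denominators `n ≥ 1`. -/
theorem main (d : ℕ) (hd : 1 ≤ d) (γ : ℝ) (hγ0 : 0 < γ) (hγ1 : γ < 1) :
    ∃ M : ℝ, 0 < M ∧ ∀ ψ : ℕ → ℝ, (∀ n, 0 ≤ ψ n) →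
      ENNReal.ofReal M ≤ ∑' n : ℕ, volume
          {x : Fin d → ℝ | ∀ i, x i ∈ Set.Icc (0 : ℝ) 1 ∧
            ∃ a : ℤ, Int.gcd a ((n + 1 : ℕ) : ℤ) = 1 ∧
              |x i - (a : ℝ) / ((n + 1 : ℕ) : ℝ)| < ψ (n + 1) / ((n + 1 : ℕ) : ℝ)} →
      ENNReal.ofReal γ ≤ volume (⋃ n : ℕ,
          {x : Fin d → ℝ | ∀ i, x i ∈ Set.Icc (0 : ℝ) 1 ∧
            ∃ a : ℤ, Int.gcd a ((n + 1 : ℕ) : ℤ) = 1 ∧
              |x i - (a : ℝ) / ((n + 1 : ℕ) : ℝ)| < ψ (n + 1) / ((n + 1 : ℕ) : ℝ)}) := by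
  classical
  have hε : 0 < 1 / γ - 1 := by
    rw [sub_pos, lt_div_iff₀ hγ0]
    linarith
  obtain ⟨S0, hS0, hmain⟩ := union_lower d hd (1 / γ - 1) hε
  refine ⟨2 * S0, by positivity, ?_⟩
  intro ψ hψ hsum
  set ψ' : ℕ → ℝ := fun n => min (ψ n) ((n : ℝ) / (2 * Nat.totient n)) with hψ'
  have hψ'0 : ∀ n, 0 ≤ ψ' n := fun n => le_min (hψ n) (by positivity)
  have hψ'le : ∀ n, ψ' n ≤ ψ n := fun n => min_le_left _ _
  have hwt' : ∀ n : ℕ, 0 < n → wt ψ' n = min (wt ψ n) 1 := by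
    intro n hn
    have hφ : (0 : ℝ) < Nat.totient n := by exact_mod_cast Nat.totient_pos.mpr hn
    have hnR : (0 : ℝ) < n := by exact_mod_cast hn
    have hp : 0 < phr n := phr_pos hn.ne'
    have h1 : 2 * ((n : ℝ) / (2 * Nat.totient n)) * phr n = 1 := by
      unfold phr
      field_simp
    unfold wt
    rw [hψ']
    simp only
    rw [← h1, mul_min_of_nonneg _ _ (by norm_num : (0:ℝ) ≤ 2), min_mul_of_nonneg _ _ hp.le]
  have hvol : ∀ n : ℕ, volume {x : Fin d → ℝ | ∀ i, x i ∈ Set.Icc (0 : ℝ) 1 ∧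
            ∃ a : ℤ, Int.gcd a ((n + 1 : ℕ) : ℤ) = 1 ∧
              |x i - (a : ℝ) / ((n + 1 : ℕ) : ℝ)| < ψ (n + 1) / ((n + 1 : ℕ) : ℝ)} ≤
      ENNReal.ofReal (wt ψ' (n + 1) ^ d) := by
    intro n
    have hw := hwt' (n + 1) (Nat.succ_pos n)
    have hw0 : 0 ≤ min (wt ψ (n + 1)) 1 := by
      apply le_min _ (by norm_num)
      unfold wt
      have := hψ (n + 1)
      have := phr_nonneg (n + 1)
      positivity
    rw [set_eq_pi d ψ (n + 1), volume_pi_pi, Finset.prod_const, Finset.card_univ, Fintype.card_fin,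
      hw, ENNReal.ofReal_pow hw0]
    have := volume_E1_le ψ (n + 1) (Nat.succ_pos n)
    gcongr
  have h1 : ENNReal.ofReal S0 < ∑' n : ℕ, ENNReal.ofReal (wt ψ' (n + 1) ^ d) := by
    refine lt_of_lt_of_le ?_ (hsum.trans (ENNReal.tsum_le_tsum hvol))
    rw [ENNReal.ofReal_lt_ofReal_iff (by positivity)]
    linarith
  rw [ENNReal.tsum_eq_iSup_sum, lt_iSup_iff] at h1
  obtain ⟨I, hI⟩ := h1
  have hw0 : ∀ n, 0 ≤ wt ψ' n := fun n => by
    unfold wt
    have := hψ'0 n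
    have := phr_nonneg n
    positivity
  rw [← ENNReal.ofReal_sum_of_nonneg (fun n _ => pow_nonneg (hw0 _) d)] at hI
  have hI2 : S0 < ∑ n ∈ I, wt ψ' (n + 1) ^ d := by
    by_contra hcon
    push Not at hcon
    exact absurd hI (not_lt.mpr (ENNReal.ofReal_le_ofReal hcon))
  set NN := I.image (fun n => n + 1) with hNN
  have hNNsum : ∑ n ∈ NN, wt ψ' n ^ d = ∑ n ∈ I, wt ψ' (n + 1) ^ d := by
    rw [hNN, Finset.sum_image]
    intro a _ b _ hab
    exact Nat.succ_injective hab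
  have hNNpos : ∀ n ∈ NN, 0 < n := by
    intro n hn
    rw [hNN, Finset.mem_image] at hn
    obtain ⟨k, _, rfl⟩ := hn
    exact Nat.succ_pos k
  have h2 := hmain NN ψ' hNNpos hψ'0
    (fun n hn => by rw [hwt' n (hNNpos n hn)]; exact min_le_right _ _)
    (by rw [hNNsum]; exact hI2.le)
  have hγe : 1 / (1 + (1 / γ - 1)) = γ := by field_simp; ring
  rw [hγe] at h2
  refine h2.trans ?_
  have hPd : Pd d = (volume : Measure (Fin d → ℝ)).restrict
      (Set.pi Set.univ (fun _ : Fin d => Set.Ioc (0 : ℝ) 1)) := by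
    unfold Pd
    rw [volume_pi, Measure.restrict_pi_pi]
  have hUmeas : MeasurableSet {x : Fin d → ℝ | ∑ n ∈ NN, FF d ψ' n x ≠ 0} := by
    have hFm : Measurable (fun x : Fin d → ℝ => ∑ n ∈ NN, FF d ψ' n x) :=
      Finset.measurable_sum _ (fun n _ => measurable_FF d ψ' n)
    exact (hFm (measurableSet_singleton 0)).compl
  rw [hPd, Measure.restrict_apply hUmeas]
  apply measure_mono
  rintro x ⟨hx1, hx2⟩
  rw [Set.mem_ofPred_eq] at hx1
  have h3 : ∃ n ∈ NN, FF d ψ' n x ≠ 0 := by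
    by_contra hcon
    push Not at hcon
    exact hx1 (Finset.sum_eq_zero hcon)
  obtain ⟨n, hn, hne⟩ := h3
  rw [hNN, Finset.mem_image] at hn
  obtain ⟨k, _, rfl⟩ := hn
  rw [Set.mem_iUnion]
  refine ⟨k, ?_⟩
  rw [Set.mem_ofPred_eq]
  intro i
  have h4 : ff (k + 1) (ψ' (k + 1) / ((k + 1 : ℕ) : ℝ)) (x i) ≠ 0 := by
    intro h0
    apply hne
    unfold FF
    exact Finset.prod_eq_zero (Finset.mem_univ i) h0
  rw [ff_pos_iff] at h4
  obtain ⟨a, ha1, ha2⟩ := h4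
  have hx2i := hx2 i (Set.mem_univ i)
  refine ⟨⟨hx2i.1.le, hx2i.2⟩, a, ha1, ha2.trans_le ?_⟩
  exact div_le_div_of_nonneg_right (hψ'le (k + 1)) (by positivity)

end Pool.Agent.Helper69.DS
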